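import Pool.Agent.H99N.Defs

/-!
# Weak sequential compactness of functions with values in `[0, 1]`

Plan. Let `w x = exp (-(x.1 ^ 2 + x.2 ^ 2))` (bounded, positive, integrable) and
let `μ` be the finite measure with density `w`. The space `H = Lp ℝ 2 μ` is a separable Hilbert
space (`MeasureTheory.Lp.SecondCountableTopology`). The functions `a k` are bounded in `H`, so by
`WeakDual.isSeqCompact_closedBall` (and the Riesz isometry `InnerProductSpace.toDual`) a
subsequence `φ` satisfies `∫ a (φ k) * G ∂μ → ∫ F * G ∂μ` for some `F ∈ H` and all `G ∈ H`.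
Testing with indicators shows `0 ≤ F ≤ 1` almost everywhere; put `f = max 0 (min 1 F)`. Every
function integrable with respect to `μ` is approximated in `L¹` by simple functions. Finally a
function `G` integrable with respect to Lebesgue measure is `w * (G / w)`, and `G / w` is
integrable with respect to `μ`.
-/

open Set MeasureTheory Filter Topology Metric

namespace Pool.Agent.H99N

private lemma wc_l2 (μ : Measure (ℝ × ℝ)) [IsFiniteMeasure μ] {a : ℕ → ℝ × ℝ → ℝ}
    (ha : ∀ k, Measurable (a k)) (ha1 : ∀ k x, 0 ≤ a k x ∧ a k x ≤ 1) :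
    ∃ φ : ℕ → ℕ, StrictMono φ ∧ ∃ F : Lp ℝ 2 μ, ∀ G : ℝ × ℝ → ℝ, MemLp G 2 μ →
      Tendsto (fun k => ∫ x, a (φ k) x * G x ∂μ) atTop (𝓝 (∫ x, F x * G x ∂μ)) := by
  have hbd : ∀ k, ∀ᵐ x ∂μ, ‖a k x‖ ≤ 1 := fun k => Eventually.of_forall fun x => by
    rw [Real.norm_eq_abs, abs_of_nonneg (ha1 k x).1]; exact (ha1 k x).2
  have hmem : ∀ k, MemLp (a k) 2 μ := fun k =>
    MemLp.of_bound (ha k).aestronglyMeasurable 1 (hbd k)
  set A : ℕ → Lp ℝ 2 μ := fun k => (hmem k).toLp (a k) with hA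
  have hAn : ∀ k, ‖A k‖ ≤ (measureUnivNNReal μ : ℝ) ^ ((2 : ENNReal).toReal)⁻¹ * 1 := by
    intro k
    refine Lp.norm_le_of_ae_bound zero_le_one ?_
    filter_upwards [(hmem k).coeFn_toLp, hbd k] with x hx h1
    rw [hA]
    simp only
    rw [hx]
    exact h1
  set C : ℝ := (measureUnivNNReal μ : ℝ) ^ ((2 : ENNReal).toReal)⁻¹ * 1 with hC
  set T : ℕ → WeakDual ℝ (Lp ℝ 2 μ) := fun k =>
    StrongDual.toWeakDual (InnerProductSpace.toDual ℝ (Lp ℝ 2 μ) (A k)) with hT
  have hTmem : ∀ k, T k ∈ (WeakDual.toStrongDual ⁻¹' Metric.closedBall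
      (0 : StrongDual ℝ (Lp ℝ 2 μ)) C) := by
    intro k
    simp only [mem_preimage, mem_closedBall, dist_zero_right]
    have : WeakDual.toStrongDual (T k) = InnerProductSpace.toDual ℝ (Lp ℝ 2 μ) (A k) := rfl
    rw [this, LinearIsometryEquiv.norm_map]
    exact hAn k
  have : Fact ((2 : ENNReal) ≠ ⊤) := ⟨ENNReal.ofNat_ne_top⟩
  have : TopologicalSpace.SeparableSpace (Lp ℝ 2 μ) := inferInstance
  obtain ⟨Λ, -, φ, hφ, hlim⟩ := WeakDual.isSeqCompact_closedBall ℝ (Lp ℝ 2 μ) 0 C hTmem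
  refine ⟨φ, hφ, (InnerProductSpace.toDual ℝ (Lp ℝ 2 μ)).symm (WeakDual.toStrongDual Λ), ?_⟩
  intro G hG
  have h1 : Tendsto (fun k => T (φ k) (hG.toLp G)) atTop (𝓝 (Λ (hG.toLp G))) :=
    ((WeakDual.eval_continuous (hG.toLp G)).tendsto Λ).comp hlim
  have h2 : ∀ k, T (φ k) (hG.toLp G) = ∫ x, a (φ k) x * G x ∂μ := by
    intro k
    have : T (φ k) (hG.toLp G) = inner ℝ (A (φ k)) (hG.toLp G) := rfl
    rw [this, L2.inner_def]
    refine integral_congr_ae ?_
    filter_upwards [(hmem (φ k)).coeFn_toLp, hG.coeFn_toLp] with x hx hy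
    have e1 : (A (φ k)) x = a (φ k) x := hx
    rw [e1, hy]
    simp [mul_comm]
  set F := (InnerProductSpace.toDual ℝ (Lp ℝ 2 μ)).symm (WeakDual.toStrongDual Λ) with hF
  have h3 : Λ (hG.toLp G) = ∫ x, F x * G x ∂μ := by
    have e1 : Λ (hG.toLp G) = inner ℝ F (hG.toLp G) := by
      rw [hF, InnerProductSpace.toDual_symm_apply]
      rfl
    rw [e1, L2.inner_def]
    refine integral_congr_ae ?_
    filter_upwards [hG.coeFn_toLp] with x hy
    rw [hy]
    simp [mul_comm]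
  rw [← h3]
  refine h1.congr ?_
  intro k
  exact h2 k

private lemma wc_fin (μ : Measure (ℝ × ℝ)) [IsFiniteMeasure μ] {a : ℕ → ℝ × ℝ → ℝ}
    (ha : ∀ k, Measurable (a k)) (ha1 : ∀ k x, 0 ≤ a k x ∧ a k x ≤ 1) :
    ∃ φ : ℕ → ℕ, StrictMono φ ∧ ∃ f : ℝ × ℝ → ℝ, Measurable f ∧ (∀ x, 0 ≤ f x ∧ f x ≤ 1) ∧
      ∀ G : ℝ × ℝ → ℝ, Integrable G μ →
      Tendsto (fun k => ∫ x, a (φ k) x * G x ∂μ) atTop (𝓝 (∫ x, f x * G x ∂μ)) := by
  obtain ⟨φ, hφ, F, hF⟩ := wc_l2 μ ha ha1
  have hFm : Measurable (F : ℝ × ℝ → ℝ) := (Lp.stronglyMeasurable F).measurable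
  have hFi : Integrable (F : ℝ × ℝ → ℝ) μ := (Lp.memLp F).integrable one_le_two
  have hbd : ∀ k, ∀ᵐ x ∂μ, ‖a k x‖ ≤ 1 := fun k => Eventually.of_forall fun x => by
    rw [Real.norm_eq_abs, abs_of_nonneg (ha1 k x).1]; exact (ha1 k x).2
  have hai : ∀ k, Integrable (a k) μ := fun k =>
    Integrable.of_bound (ha k).aestronglyMeasurable 1 (hbd k)
  have hset : ∀ s, MeasurableSet s →
      Tendsto (fun k => ∫ x in s, a (φ k) x ∂μ) atTop (𝓝 (∫ x in s, F x ∂μ)) := by
    intro s hs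
    have h0 : MemLp (s.indicator (fun _ => (1 : ℝ))) 2 μ := by
      refine MemLp.of_bound ((measurable_const.indicator hs).aestronglyMeasurable) 1 ?_
      refine Eventually.of_forall fun x => ?_
      by_cases hx : x ∈ s <;> simp [hx]
    have h1 := hF _ h0
    have e : ∀ g : ℝ × ℝ → ℝ, ∫ x, g x * s.indicator (fun _ => (1 : ℝ)) x ∂μ
        = ∫ x in s, g x ∂μ := by
      intro g
      rw [← integral_indicator hs]
      refine integral_congr_ae (Eventually.of_forall fun x => ?_)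
      by_cases hx : x ∈ s <;> simp [hx]
    simp only [e] at h1
    exact h1
  have hle : (F : ℝ × ℝ → ℝ) ≤ᵐ[μ] fun _ => (1 : ℝ) := by
    refine ae_le_of_forall_setIntegral_le hFi (integrable_const _) ?_
    intro s hs _
    refine le_of_tendsto (hset s hs) (Eventually.of_forall fun k => ?_)
    exact integral_mono (hai _).integrableOn (integrable_const _) fun x => (ha1 _ x).2
  have hge : 0 ≤ᵐ[μ] (F : ℝ × ℝ → ℝ) := by
    refine ae_nonneg_of_forall_setIntegral_nonneg hFi ?_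
    intro s hs _
    refine ge_of_tendsto (hset s hs) (Eventually.of_forall fun k => ?_)
    exact integral_nonneg fun x => (ha1 _ x).1
  refine ⟨φ, hφ, fun x => max 0 (min 1 (F x)), measurable_const.max (measurable_const.min hFm),
    fun x => ⟨le_max_left _ _, max_le zero_le_one (min_le_left _ _)⟩, ?_⟩
  intro G hG
  set f : ℝ × ℝ → ℝ := fun x => max 0 (min 1 (F x)) with hf
  have hfm : Measurable f := measurable_const.max (measurable_const.min hFm)
  have hf1 : ∀ x, 0 ≤ f x ∧ f x ≤ 1 :=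
    fun x => ⟨le_max_left _ _, max_le zero_le_one (min_le_left _ _)⟩
  have hfF : f =ᵐ[μ] F := by
    filter_upwards [hle, hge] with x h1 h2
    simp only [hf]
    rw [min_eq_right h1]
    exact max_eq_right h2
  -- general estimate
  have hest : ∀ (b : ℝ × ℝ → ℝ), Measurable b → (∀ x, 0 ≤ b x ∧ b x ≤ 1) →
      ∀ G' : ℝ × ℝ → ℝ, Integrable G' μ →
      |∫ x, b x * G x ∂μ - ∫ x, b x * G' x ∂μ| ≤ ∫ x, |G x - G' x| ∂μ := by
    intro b hb hb1 G' hG'
    have hbn : ∀ᵐ x ∂μ, ‖b x‖ ≤ 1 := Eventually.of_forall fun x => by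
      rw [Real.norm_eq_abs, abs_of_nonneg (hb1 x).1]; exact (hb1 x).2
    have i1 : Integrable (fun x => b x * G x) μ := hG.bdd_mul hb.aestronglyMeasurable hbn
    have i2 : Integrable (fun x => b x * G' x) μ := hG'.bdd_mul hb.aestronglyMeasurable hbn
    rw [← integral_sub i1 i2]
    refine (abs_integral_le_integral_abs).trans ?_
    refine integral_mono (i1.sub i2).abs (hG.sub hG').abs ?_
    intro x
    simp only
    rw [← mul_sub, abs_mul, abs_of_nonneg (hb1 x).1]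
    exact mul_le_of_le_one_left (abs_nonneg _) (hb1 x).2
  rw [Metric.tendsto_atTop]
  intro ε hε
  obtain ⟨g, hg, hgm⟩ := (memLp_one_iff_integrable.2 hG).exists_simpleFunc_eLpNorm_sub_lt
    ENNReal.one_ne_top (ε := ENNReal.ofReal (ε / 3)) (by simp; positivity)
  have hgi : Integrable g μ := memLp_one_iff_integrable.1 hgm
  have hdist : ∫ x, |G x - g x| ∂μ < ε / 3 := by
    have h1 : ∫ x, |G x - g x| ∂μ = (eLpNorm (G - ⇑g) 1 μ).toReal := by
      rw [eLpNorm_one_eq_lintegral_enorm]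
      rw [← integral_norm_eq_lintegral_enorm (hG.sub hgi).aestronglyMeasurable]
      rfl
    rw [h1]
    refine (ENNReal.toReal_lt_toReal hg.ne_top ENNReal.ofReal_ne_top).2 hg |>.trans_le ?_
    rw [ENNReal.toReal_ofReal (by positivity)]
  have h2 := hF g (g.memLp_of_isFiniteMeasure 2 μ)
  rw [Metric.tendsto_atTop] at h2
  obtain ⟨N, hN⟩ := h2 (ε / 3) (by positivity)
  refine ⟨N, fun n hn => ?_⟩
  have h3 := hN n hn
  have h4 : ∫ x, F x * g x ∂μ = ∫ x, f x * g x ∂μ := by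
    refine integral_congr_ae ?_
    filter_upwards [hfF] with x hx
    rw [hx]
  rw [h4, Real.dist_eq] at h3
  have h5 := hest (a (φ n)) (ha _) (ha1 _) g hgi
  have h6 := hest f hfm hf1 g hgi
  rw [Real.dist_eq]
  rw [abs_lt] at h3 ⊢
  rw [abs_le] at h5 h6
  constructor <;> linarith [h3.1, h3.2, h5.1, h5.2, h6.1, h6.2]

/-- the weight -/
private noncomputable def wcw (x : ℝ × ℝ) : NNReal :=
  Real.toNNReal (Real.exp (-(x.1 ^ 2)) * Real.exp (-(x.2 ^ 2)))

private lemma wcw_coe (x : ℝ × ℝ) :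
    (wcw x : ℝ) = Real.exp (-(x.1 ^ 2)) * Real.exp (-(x.2 ^ 2)) :=
  Real.coe_toNNReal _ (by positivity)

private lemma wcw_pos (x : ℝ × ℝ) : 0 < (wcw x : ℝ) := by
  rw [wcw_coe]; positivity

private lemma wcw_meas : Measurable wcw := by
  unfold wcw
  fun_prop

private lemma wcw_int : Integrable (fun x : ℝ × ℝ => (wcw x : ℝ)) := by
  have h := integrable_exp_neg_mul_sq (b := 1) one_pos
  have h2 : Integrable (fun x : ℝ => Real.exp (-(x ^ 2))) := by
    refine h.congr (Eventually.of_forall fun x => ?_)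
    simp
  have h3 := h2.mul_prod h2
  refine (h3.congr (Eventually.of_forall fun x => ?_))
  simp only
  rw [wcw_coe]

theorem weak_compact {a : ℕ → ℝ × ℝ → ℝ} (ha : ∀ k, Measurable (a k))
    (ha1 : ∀ k x, 0 ≤ a k x ∧ a k x ≤ 1) :
    ∃ φ : ℕ → ℕ, StrictMono φ ∧ ∃ f : ℝ × ℝ → ℝ, Measurable f ∧ (∀ x, 0 ≤ f x ∧ f x ≤ 1) ∧
      Weak (fun k => a (φ k)) f := by
  set μ : Measure (ℝ × ℝ) := (volume : Measure (ℝ × ℝ)).withDensity (fun x => (wcw x : ENNReal))
    with hμ
  have hfin : IsFiniteMeasure μ := by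
    refine isFiniteMeasure_withDensity ?_
    have := wcw_int.hasFiniteIntegral
    rw [HasFiniteIntegral] at this
    refine ne_of_lt (lt_of_le_of_lt (le_of_eq ?_) this)
    refine lintegral_congr fun x => ?_
    rw [Real.enorm_eq_ofReal (wcw_pos x).le, ENNReal.ofReal_coe_nnreal]
  obtain ⟨φ, hφ, f, hfm, hf1, hlim⟩ := wc_fin μ ha ha1
  refine ⟨φ, hφ, f, hfm, hf1, ?_⟩
  intro G hG
  have hG' : Integrable (fun x => G x / (wcw x : ℝ)) μ := by
    rw [hμ, integrable_withDensity_iff_integrable_smul wcw_meas]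
    refine hG.congr (Eventually.of_forall fun x => ?_)
    simp only [NNReal.smul_def, smul_eq_mul]
    rw [mul_div_cancel₀ _ (wcw_pos x).ne']
  have e : ∀ b : ℝ × ℝ → ℝ, ∫ x, b x * (G x / (wcw x : ℝ)) ∂μ = ∫ x, b x * G x := by
    intro b
    rw [hμ, integral_withDensity_eq_integral_smul wcw_meas]
    refine integral_congr_ae (Eventually.of_forall fun x => ?_)
    simp only [NNReal.smul_def, smul_eq_mul]
    have := (wcw_pos x).ne'
    field_simp
  have h := hlim _ hG'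
  simp only [e] at h
  exact h

end Pool.Agent.H99N
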