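import Mathlib

/-!
# Definitions for colourings of norms close to the Euclidean norm
-/

open Set MeasureTheory Filter Topology Metric

namespace Pool.Agent.H99N

/-- cutoff function on the line, positive exactly on `(-1/2, 1/2)` -/
noncomputable def chi (t : ℝ) : ℝ := max 0 (1 / 2 - |t|)

/-- a profile: differentiable, strongly concave, with Lipschitz derivative -/
structure Prof (g g' : ℝ → ℝ) : Prop where
  der : ∀ t, HasDerivAt g (g' t) t
  lo : ∀ s t, s ≤ t → t - s ≤ g' s - g' t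
  hi : ∀ s t, s ≤ t → g' s - g' t ≤ 2 * (t - s)

/-- a function which is `η`-small and `η`-Lipschitz -/
structure Small (η : ℝ) (r : ℝ → ℝ) : Prop where
  bd : ∀ t, |r t| ≤ η
  lip : ∀ s t, |r s - r t| ≤ η * |s - t|

/-- Euclidean length in the plane `ℝ × ℝ` -/
noncomputable def eu (x : ℝ × ℝ) : ℝ := √(x.1 ^ 2 + x.2 ^ 2)

/-- a seminorm that is `ε`-close to the Euclidean norm -/
structure Near (ε : ℝ) (N : ℝ × ℝ → ℝ) : Prop where
  add : ∀ x y, N (x + y) ≤ N x + N y
  smul : ∀ (c : ℝ) (x : ℝ × ℝ), N (c • x) = |c| * N x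
  near : ∀ x, |N x - eu x| ≤ ε * eu x

/-- rotation by the angle `ω` -/
noncomputable def rot (ω : ℝ) (x : ℝ × ℝ) : ℝ × ℝ :=
  (Real.cos ω * x.1 - Real.sin ω * x.2, Real.sin ω * x.1 + Real.cos ω * x.2)

/-- four measurable sets covering almost everything, none of which contains two points of the
(sup norm) ball of radius `R` around the origin with `N`-distance `1` -/
structure Loc (N : ℝ × ℝ → ℝ) (R : ℝ) (A : Fin 4 → Set (ℝ × ℝ)) : Prop where
  meas : ∀ i, MeasurableSet (A i)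
  cover : ∀ᵐ x : ℝ × ℝ, ∃ i, x ∈ A i
  avoid : ∀ i, ∀ x ∈ A i, ∀ y ∈ A i, x ∈ closedBall (0 : ℝ × ℝ) R →
    y ∈ closedBall (0 : ℝ × ℝ) R → N (x - y) ≠ 1

/-- weak convergence of bounded functions, tested against integrable functions -/
def Weak (a : ℕ → ℝ × ℝ → ℝ) (f : ℝ × ℝ → ℝ) : Prop :=
  ∀ G : ℝ × ℝ → ℝ, Integrable G → Tendsto (fun k => ∫ x, a k x * G x) atTop (𝓝 (∫ x, f x * G x))

/-- a fractional colouring: nonnegative functions, almost everywhere not all zero, such that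
`f i x * f i (x + u) = 0` for almost all pairs at Euclidean distance one (in all arcs) -/
structure Frac (f : Fin 4 → ℝ × ℝ → ℝ) : Prop where
  meas : ∀ i, Measurable (f i)
  nonneg : ∀ i x, 0 ≤ f i x
  cover : ∀ᵐ x : ℝ × ℝ, ∃ i, 0 < f i x
  avoid : ∀ (i : Fin 4) (ω : ℝ), ∀ᵐ x : ℝ × ℝ, ∀ᵐ t : ℝ, |t| < 1 / 2 →
    f i x * f i (x + rot ω (t, √(1 - t ^ 2))) = 0

end Pool.Agent.H99N
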