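import Pool.Agent.H99N.Defs

/-!
# Autocorrelations of a weakly null sequence are weakly null

Plan. With `β k = Q.indicator (b k)`, by Fubini (`|β| ≤ 1` supported in `Q`, `κ` integrable)
`∫ u, κ u * ∫ x, β k x * β k (x + u) = ∫ x, β k x * ∫ u, κ u * β k (x + u)`, and by translation
`∫ u, κ u * β k (x + u) = ∫ y, b k y * (Q.indicator (fun y => κ (y - x)) y)`, which tends to `0` for
every `x` because `y ↦ Q.indicator (fun y => κ (y - x)) y` is integrable; it is bounded by
`∫ |κ|`. Dominated convergence on `Q` (finite measure).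
-/

open Set MeasureTheory Filter Topology Metric

namespace Pool.Agent.H99N

theorem auto {b : ℕ → ℝ × ℝ → ℝ} (hb : ∀ k, Measurable (b k)) (hb1 : ∀ k x, |b k x| ≤ 1)
    (hw : Weak b 0) {Q : Set (ℝ × ℝ)} (hQ : MeasurableSet Q) (hQv : volume Q < ⊤)
    {κ : ℝ × ℝ → ℝ} (hκ : Integrable κ) :
    Tendsto (fun k => ∫ u, κ u * ∫ x, Q.indicator (b k) x * Q.indicator (b k) (x + u))
      atTop (𝓝 0) := by
  have hQi : Integrable (Q.indicator fun _ => (1 : ℝ)) :=
    (integrable_indicator_iff hQ).2 (by simp [hQv])
  have hβm : ∀ k, Measurable (Q.indicator (b k)) := fun k => (hb k).indicator hQ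
  have hβQ : ∀ k x, |Q.indicator (b k) x| ≤ Q.indicator (fun _ => (1 : ℝ)) x := by
    intro k x
    by_cases hx : x ∈ Q
    · rw [indicator_of_mem hx, indicator_of_mem hx]
      exact hb1 k x
    · rw [indicator_of_notMem hx, indicator_of_notMem hx]
      simp
  have hQ1 : ∀ x, Q.indicator (fun _ => (1 : ℝ)) x ≤ 1 := by
    intro x
    by_cases hx : x ∈ Q
    · rw [indicator_of_mem hx]
    · rw [indicator_of_notMem hx]
      exact zero_le_one
  have hβ1 : ∀ k x, |Q.indicator (b k) x| ≤ 1 := fun k x => (hβQ k x).trans (hQ1 x)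
  set K : ℕ → (ℝ × ℝ) × (ℝ × ℝ) → ℝ := fun k z =>
    κ z.1 * (Q.indicator (b k) z.2 * Q.indicator (b k) (z.2 + z.1)) with hK
  have hKi : ∀ k, Integrable (K k)
      ((volume : Measure (ℝ × ℝ)).prod (volume : Measure (ℝ × ℝ))) := by
    intro k
    refine (hκ.abs.mul_prod hQi).mono' ?_ ?_
    · exact hκ.aestronglyMeasurable.comp_fst.mul (((hβm k).comp measurable_snd).mul
        ((hβm k).comp (measurable_snd.add measurable_fst))).aestronglyMeasurable
    · refine ae_of_all _ fun z => ?_
      simp only [hK, Real.norm_eq_abs, abs_mul]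
      have h1 := hβQ k z.2
      have h2 := hβ1 k (z.2 + z.1)
      have h3 : |Q.indicator (b k) z.2| * |Q.indicator (b k) (z.2 + z.1)| ≤
          Q.indicator (fun _ => (1 : ℝ)) z.2 := by
        calc _ ≤ |Q.indicator (b k) z.2| * 1 := mul_le_mul_of_nonneg_left h2 (abs_nonneg _)
          _ = |Q.indicator (b k) z.2| := mul_one _
          _ ≤ _ := h1
      exact mul_le_mul_of_nonneg_left h3 (abs_nonneg _)
  have e1 : ∀ k, ∫ u, κ u * ∫ x, Q.indicator (b k) x * Q.indicator (b k) (x + u) =
      ∫ x, ∫ u, K k (u, x) := by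
    intro k
    rw [← integral_integral_swap (hKi k)]
    refine integral_congr_ae (ae_of_all _ fun u => ?_)
    simp only [hK]
    rw [integral_const_mul]
  have e2 : ∀ k x, ∫ u, K k (u, x) = Q.indicator (b k) x *
      ∫ y, b k y * Q.indicator (fun y => κ (y - x)) y := by
    intro k x
    have h1 : ∀ u, K k (u, x) = Q.indicator (b k) x *
        (fun y => b k y * Q.indicator (fun y => κ (y - x)) y) (u + x) := by
      intro u
      simp only [hK, add_comm u x]
      by_cases hx : x + u ∈ Q
      · rw [indicator_of_mem hx, indicator_of_mem hx, add_sub_cancel_left]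
        ring
      · rw [indicator_of_notMem hx, indicator_of_notMem hx]
        ring
    simp only [h1]
    rw [integral_const_mul, integral_add_right_eq_self
      (fun y => b k y * Q.indicator (fun y => κ (y - x)) y)]
  have hG : ∀ x : ℝ × ℝ, Integrable (Q.indicator fun y => κ (y - x)) := fun x =>
    (hκ.comp_sub_right x).indicator hQ
  have hIb : ∀ k x, |∫ y, b k y * Q.indicator (fun y => κ (y - x)) y| ≤ ∫ u, |κ u| := by
    intro k x
    refine abs_integral_le_integral_abs.trans ?_
    calc ∫ y, |b k y * Q.indicator (fun y => κ (y - x)) y| ≤ ∫ y, |κ (y - x)| := by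
          refine integral_mono_of_nonneg (ae_of_all _ fun y => abs_nonneg _)
            (hκ.comp_sub_right x).abs (ae_of_all _ fun y => ?_)
          simp only [abs_mul]
          have h1 : |Q.indicator (fun y => κ (y - x)) y| ≤ |κ (y - x)| := by
            by_cases hy : y ∈ Q
            · rw [indicator_of_mem hy]
            · rw [indicator_of_notMem hy, abs_zero]
              exact abs_nonneg _
          calc |b k y| * |Q.indicator (fun y => κ (y - x)) y|
              ≤ 1 * |Q.indicator (fun y => κ (y - x)) y| :=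
                mul_le_mul_of_nonneg_right (hb1 k y) (abs_nonneg _)
            _ = |Q.indicator (fun y => κ (y - x)) y| := one_mul _
            _ ≤ _ := h1
      _ = ∫ u, |κ u| := integral_sub_right_eq_self (fun y => |κ y|) x
  have hlim : ∀ x, Tendsto (fun k => ∫ y, b k y * Q.indicator (fun y => κ (y - x)) y)
      atTop (𝓝 0) := by
    intro x
    have := hw _ (hG x)
    simpa using this
  simp only [e1]
  have hfin : Tendsto (fun k => ∫ x, ∫ u, K k (u, x)) atTop (𝓝 (∫ _ : ℝ × ℝ, (0 : ℝ))) := by
    refine tendsto_integral_of_dominated_convergence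
      (fun x => Q.indicator (fun _ => (1 : ℝ)) x * ∫ u, |κ u|) ?_ (hQi.mul_const _) ?_ ?_
    · intro k
      exact (hKi k).integral_prod_right.aestronglyMeasurable
    · intro k
      refine ae_of_all _ fun x => ?_
      rw [e2, Real.norm_eq_abs, abs_mul]
      exact mul_le_mul (hβQ k x) (hIb k x) (abs_nonneg _)
        (indicator_nonneg (fun _ _ => zero_le_one) _)
    · refine ae_of_all _ fun x => ?_
      simp only [e2]
      refine squeeze_zero_norm (fun k => ?_) (by simpa using (hlim x).abs)
      rw [Real.norm_eq_abs, abs_mul]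
      exact mul_le_of_le_one_left (abs_nonneg _) (hβ1 k x)
  simpa using hfin

end Pool.Agent.H99N
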