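import Pool.Agent.H99N.Defs

/-!
# The law of the difference of two points of the arc is absolutely continuous
-/

open Set MeasureTheory Filter Topology Metric

namespace Pool.Agent.H99N

private theorem ac_anti {g g' : ℝ → ℝ} (h : Prof g g') {a : ℝ} (ha : 0 < a) (s s' : ℝ)
    (hs : s ≤ s') : a * (s' - s) ≤ (g (s + a) - g s) - (g (s' + a) - g s') := by
  have hd : ∀ u, HasDerivAt (fun u => -(g (u + a) - g u) - a * u) (-(g' (u + a) - g' u) - a) u := by
    intro u
    have h1 : HasDerivAt (fun u => g (u + a)) (g' (u + a)) u := (h.der (u + a)).comp_add_const u a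
    have h2 := ((h1.sub (h.der u)).neg).sub ((hasDerivAt_id u).const_mul a)
    rw [mul_one] at h2
    exact h2
  have hm : Monotone (fun u => -(g (u + a) - g u) - a * u) := by
    apply monotone_of_deriv_nonneg
    · exact fun u => (hd u).differentiableAt
    · intro u
      rw [(hd u).deriv]
      have := h.lo u (u + a) (by linarith)
      linarith
  have h3 := hm hs
  simp only at h3
  linarith

private theorem ac_abs {g g' : ℝ → ℝ} (h : Prof g g') {a : ℝ} (ha : a ≠ 0) (s s' : ℝ) :
    |a| * |s - s'| ≤ |(g (s + a) - g s) - (g (s' + a) - g s')| := by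
  -- positive increments
  have key : ∀ b : ℝ, 0 < b → ∀ u u' : ℝ,
      b * |u - u'| ≤ |(g (u + b) - g u) - (g (u' + b) - g u')| := by
    intro b hb u u'
    rcases le_total u u' with hu | hu
    · rw [abs_of_nonpos (by linarith : u - u' ≤ 0)]
      have := ac_anti h hb u u' hu
      refine le_trans ?_ (le_abs_self _)
      linarith
    · rw [abs_of_nonneg (by linarith : 0 ≤ u - u')]
      have := ac_anti h hb u' u hu
      refine le_trans ?_ (neg_le_abs _)
      linarith
  rcases lt_or_gt_of_ne ha with hlt | hgt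
  · have h1 := key (-a) (by linarith) (s + a) (s' + a)
    rw [show s + a + -a = s by ring, show s' + a + -a = s' by ring] at h1
    rw [abs_of_neg hlt]
    have e1 : s + a - (s' + a) = s - s' := by ring
    rw [e1] at h1
    refine h1.trans (le_of_eq ?_)
    rw [← abs_neg]
    congr 1
    ring
  · rw [abs_of_pos hgt]
    exact key a hgt s s'

private theorem ac_null {g g' : ℝ → ℝ} (h : Prof g g') {a : ℝ} (ha : a ≠ 0) (T : Set ℝ)
    (hT : volume T = 0) : volume ((fun s => g (s + a) - g s) ⁻¹' T) = 0 := by
  have ha' : 0 < |a| := abs_pos.mpr ha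
  have hA : AntilipschitzWith (Real.toNNReal |a|⁻¹) (fun s => g (s + a) - g s) := by
    apply AntilipschitzWith.of_le_mul_dist
    intro x y
    rw [Real.coe_toNNReal _ (by positivity), Real.dist_eq, Real.dist_eq]
    have := ac_abs h ha x y
    rw [← mul_le_mul_iff_right₀ ha', ← mul_assoc, mul_inv_cancel₀ ha'.ne', one_mul]
    exact this
  have h1 := hA.hausdorffMeasure_preimage_le (d := 1) (by norm_num) T
  rw [hausdorffMeasure_real, hT, mul_zero] at h1
  exact le_antisymm h1 bot_le

private theorem chi_cont : Continuous chi := by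
  unfold chi
  fun_prop

private theorem chi_nonneg (t : ℝ) : 0 ≤ chi t := le_max_left _ _

private theorem chi_supp : HasCompactSupport chi := by
  apply HasCompactSupport.intro (K := Icc (-1) 1) isCompact_Icc
  intro x hx
  unfold chi
  apply max_eq_left
  by_contra hc
  push Not at hc
  apply hx
  have h1 : |x| < 1 := by linarith
  rw [abs_lt] at h1
  exact ⟨h1.1.le, h1.2.le⟩

private theorem w_int : Integrable (fun p : ℝ × ℝ => chi p.1 * chi p.2) := by
  have h1 : Integrable chi := chi_cont.integrable_of_hasCompactSupport chi_supp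
  exact h1.mul_prod h1

theorem ac {g g' : ℝ → ℝ} (h : Prof g g') : ∃ κ : ℝ × ℝ → ℝ, Integrable κ ∧
    ∀ c : ℝ × ℝ → ℝ, Measurable c → (∃ C : ℝ, ∀ u, |c u| ≤ C) →
      ∫ s, ∫ t, chi s * chi t * c (t - s, g t - g s) = ∫ u, κ u * c u := by
  have hg : Continuous g := continuous_iff_continuousAt.mpr fun t => (h.der t).continuousAt
  have hΦ : Measurable (fun p : ℝ × ℝ => (p.2 - p.1, g p.2 - g p.1)) := by
    apply Continuous.measurable
    fun_prop
  have hwm : Measurable (fun p : ℝ × ℝ => ENNReal.ofReal (chi p.1 * chi p.2)) := by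
    apply ENNReal.measurable_ofReal.comp
    apply Continuous.measurable
    exact (chi_cont.comp continuous_fst).mul (chi_cont.comp continuous_snd)
  set μ : Measure (ℝ × ℝ) := volume.withDensity
    (fun p : ℝ × ℝ => ENNReal.ofReal (chi p.1 * chi p.2)) with hμ
  have hfin : IsFiniteMeasure μ := isFiniteMeasure_withDensity_ofReal w_int.2
  set ν : Measure (ℝ × ℝ) := μ.map (fun p : ℝ × ℝ => (p.2 - p.1, g p.2 - g p.1)) with hν
  have hνfin : IsFiniteMeasure ν := by
    rw [hν]
    infer_instance
  have hac : ν ≪ volume := by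
    refine Measure.AbsolutelyContinuous.mk fun S hS h0 => ?_
    rw [hν, Measure.map_apply hΦ hS]
    apply withDensity_absolutelyContinuous
    have hmp : MeasurePreserving (fun z : ℝ × ℝ => (z.2, z.2 + z.1)) volume volume := by
      have h1 := measurePreserving_prod_add (volume : Measure ℝ) (volume : Measure ℝ)
      exact h1.comp (Measure.measurePreserving_swap (μ := (volume : Measure ℝ))
        (ν := (volume : Measure ℝ)))
    rw [← hmp.measure_preimage (hΦ hS).nullMeasurableSet]
    have hmeas : MeasurableSet ((fun z : ℝ × ℝ => (z.2, z.2 + z.1)) ⁻¹'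
        ((fun p : ℝ × ℝ => (p.2 - p.1, g p.2 - g p.1)) ⁻¹' S)) := hmp.measurable (hΦ hS)
    rw [Measure.volume_eq_prod, Measure.measure_prod_null hmeas]
    rw [Measure.volume_eq_prod, Measure.measure_prod_null hS] at h0
    have hne : ∀ᵐ a : ℝ, a ≠ 0 := by
      rw [ae_iff]
      simp
    filter_upwards [h0, hne] with a ha ha0
    have e : Prod.mk a ⁻¹' ((fun z : ℝ × ℝ => (z.2, z.2 + z.1)) ⁻¹'
        ((fun p : ℝ × ℝ => (p.2 - p.1, g p.2 - g p.1)) ⁻¹' S)) =
        (fun s => g (s + a) - g s) ⁻¹' (Prod.mk a ⁻¹' S) := by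
      ext s
      simp only [mem_preimage, add_sub_cancel_left]
    rw [e]
    exact ac_null h ha0 _ ha
  refine ⟨fun u => (ν.rnDeriv volume u).toReal, Measure.integrable_toReal_rnDeriv, ?_⟩
  intro c hc hbd
  obtain ⟨C, hC⟩ := hbd
  have h1 : ∫ u, (ν.rnDeriv volume u).toReal * c u = ∫ u, c u ∂ν := by
    have := integral_rnDeriv_smul (μ := ν) (ν := volume) (f := c) hac
    simpa only [smul_eq_mul] using this
  rw [h1, hν, integral_map hΦ.aemeasurable hc.aestronglyMeasurable, hμ,
    integral_withDensity_eq_integral_toReal_smul hwm (by simp)]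
  have h2 : (fun p : ℝ × ℝ => (ENNReal.ofReal (chi p.1 * chi p.2)).toReal •
      c (p.2 - p.1, g p.2 - g p.1)) =
      fun p : ℝ × ℝ => chi p.1 * chi p.2 * c (p.2 - p.1, g p.2 - g p.1) := by
    funext p
    rw [ENNReal.toReal_ofReal (mul_nonneg (chi_nonneg _) (chi_nonneg _)), smul_eq_mul]
  rw [h2, Measure.volume_eq_prod, integral_prod]
  refine w_int.mul_bdd (c := C) ?_ ?_
  · exact (hc.comp hΦ).aestronglyMeasurable
  · exact Eventually.of_forall fun p => by
      rw [Real.norm_eq_abs]
      exact hC _

end Pool.Agent.H99N
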