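import Pool.Agent.H99N.Rot
import Pool.Agent.Helper2.LM.M2
import Pool.Agent.Helper2.LM.G1

/-!
# From a fractional colouring to a colouring by measurable sets

Plan. `S i = {x | 0 < f i x}`, `A' i = S i \ ⋃ j < i, S j`, `A i = {x ∈ A' i | Dens1 (A' i) x}`
(`measurable_dens1`). They are measurable, disjoint and cover almost everything (Lebesgue density
theorem as in `mix_null` of `Pool.Agent.Helper2.LM.M1`). Avoidance: suppose `x` and `y` are in `A i`
and `hp 2 (x - y) = 1` (`hp_two`). Write `y - x = rot ω (0, 1)` (`exists_rot`). Let `n` be large such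
that the proportion of the complement of `A' i` in the balls of radius `rad n` around `x` and around
`y` is at most `1 / 100`. Let `ρ = rad n / 8`. For `z ∈ closedBall x (rad n / 2)` and `|t| ≤ ρ` the
point `z + rot ω (t, √(1 - t ^ 2))` is in `closedBall y (rad n)`
(`‖rot ω (t, √(1 - t ^ 2)) - rot ω (0, 1)‖ ≤ 2 * |t| + 2 * t ^ 2`). By Fubini the set of pairs
`(z, t)` with `z ∉ A' i` or `z + rot ω (t, √(1 - t ^ 2)) ∉ A' i` has measure at most
`2 * (2 * ρ) * (1 / 100) * volume (closedBall x (rad n))`, less than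
`2 * ρ * volume (closedBall x (rad n / 2))`. So the set of pairs `(z, t)` with both points in
`A' i ⊆ {f i > 0}` has positive measure, in contradiction to `Frac.avoid`.
-/

open Set MeasureTheory Filter Topology Metric

namespace Pool.Agent.H99N

open Pool.Agent.Helper2.LM

private def ao_A' (f : Fin 4 → ℝ × ℝ → ℝ) (i : Fin 4) : Set (ℝ × ℝ) :=
  {x | 0 < f i x ∧ ∀ j, j < i → ¬ 0 < f j x}

private theorem ao_meas {f : Fin 4 → ℝ × ℝ → ℝ} (h : Frac f) (i : Fin 4) :
    MeasurableSet (ao_A' f i) := by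
  unfold ao_A'
  apply MeasurableSet.inter
  · exact measurableSet_lt measurable_const (h.meas i)
  · have e : {x | ∀ j, j < i → ¬ 0 < f j x} = ⋂ j, ⋂ (_ : j < i), {x | ¬ 0 < f j x} := by
      ext x; simp
    change MeasurableSet {x | ∀ j, j < i → ¬ 0 < f j x}
    rw [e]
    refine MeasurableSet.iInter fun j => MeasurableSet.iInter fun _ => ?_
    exact (measurableSet_lt measurable_const (h.meas j)).compl

private theorem ao_disj {f : Fin 4 → ℝ × ℝ → ℝ} {i j : Fin 4} (hij : i ≠ j) :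
    Disjoint (ao_A' f i) (ao_A' f j) := by
  rw [Set.disjoint_left]
  rintro x ⟨h1, h2⟩ ⟨h3, h4⟩
  rcases lt_or_gt_of_ne hij with h | h
  · exact h4 i h h1
  · exact h2 j h h3

private theorem ao_cover {f : Fin 4 → ℝ × ℝ → ℝ} {x : ℝ × ℝ} (h : ∃ i, 0 < f i x) :
    ∃ i, x ∈ ao_A' f i := by
  classical
  have hne : (Finset.univ.filter fun i => 0 < f i x).Nonempty := by
    obtain ⟨i, hi⟩ := h
    exact ⟨i, by simp [hi]⟩
  refine ⟨(Finset.univ.filter fun i => 0 < f i x).min' hne, ?_, ?_⟩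
  · have := Finset.min'_mem _ hne
    simpa using this
  · intro j hj hpos
    have h1 : j ∈ (Finset.univ.filter fun i => 0 < f i x) := by simp [hpos]
    exact absurd hj (not_lt.2 (Finset.min'_le _ j h1))

private theorem ao_near (ω : ℝ) {x y z : ℝ × ℝ} {t r : ℝ} (hxy : y - x = rot ω (0, 1))
    (ht : |t| < r / 16) (hr : r ≤ 1) (hz : z ∈ closedBall x (r / 2)) :
    z + rot ω (t, √(1 - t ^ 2)) ∈ closedBall y r := by
  have hrpos : 0 < r := by
    have := abs_nonneg t
    linarith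
  have ht1 : |t| < 1 := by linarith
  have ht2 : t ^ 2 ≤ |t| := by
    rw [← sq_abs]
    nlinarith [abs_nonneg t]
  rw [mem_closedBall, dist_eq_norm] at hz ⊢
  have e : z + rot ω (t, √(1 - t ^ 2)) - y = (z - x) + rot ω (t, √(1 - t ^ 2) - 1) := by
    have h1 : rot ω (t, √(1 - t ^ 2)) = rot ω (t, √(1 - t ^ 2) - 1) + rot ω (0, 1) := by
      rw [← rot_add]
      congr 1
      ext <;> simp
    rw [h1, ← hxy]
    abel
  rw [e]
  have h2 : ‖rot ω (t, √(1 - t ^ 2) - 1)‖ ≤ 2 * ‖((t, √(1 - t ^ 2) - 1) : ℝ × ℝ)‖ := norm_rot_le _ _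
  have h3 : ‖((t, √(1 - t ^ 2) - 1) : ℝ × ℝ)‖ ≤ |t| := by
    rw [Prod.norm_def]
    apply max_le
    · exact le_of_eq (Real.norm_eq_abs t)
    · rw [Real.norm_eq_abs]
      have hs1 : √(1 - t ^ 2) ≤ 1 := by
        calc √(1 - t ^ 2) ≤ √1 := Real.sqrt_le_sqrt (by nlinarith [sq_nonneg t])
          _ = 1 := Real.sqrt_one
      have hs2 : 1 - t ^ 2 ≤ √(1 - t ^ 2) := by
        apply Real.le_sqrt_of_sq_le
        nlinarith [sq_nonneg t, abs_nonneg t]
      rw [abs_of_nonpos (by linarith)]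
      simp only
      linarith
  calc ‖(z - x) + rot ω (t, √(1 - t ^ 2) - 1)‖ ≤ ‖z - x‖ + ‖rot ω (t, √(1 - t ^ 2) - 1)‖ := norm_add_le _ _
    _ ≤ r / 2 + 2 * |t| := by linarith
    _ ≤ r := by linarith

private theorem ao_core {B : Set (ℝ × ℝ)} (hB : MeasurableSet B) (ω : ℝ) {x y : ℝ × ℝ}
    (hx : Dens1 B x) (hy : Dens1 B y) (hxy : y - x = rot ω (0, 1))
    (h : ∀ᵐ z : ℝ × ℝ, ∀ᵐ t : ℝ, |t| < 1 / 2 → z ∈ B → z + rot ω (t, √(1 - t ^ 2)) ∉ B) :
    False := by
  have h99 : (99 / 100 : ENNReal) < 1 := by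
    rw [ENNReal.div_lt_iff] <;> norm_num
  obtain ⟨n, hn1, hn2⟩ := ((hx.eventually_const_lt h99).and (hy.eventually_const_lt h99)).exists
  set r := rad n with hr
  have hrpos : 0 < r := rad_pos n
  have hr1 : r ≤ 1 := by
    rw [hr]; unfold rad
    exact pow_le_one₀ (by norm_num) (by norm_num)
  -- complement proportions
  have hcomp : ∀ w : ℝ × ℝ, (99 / 100 : ENNReal) < dens B n w →
      volume (Bᶜ ∩ closedBall w r) ≤ 1 / 100 * volume (closedBall (0 : ℝ × ℝ) r) := by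
    intro w hw
    have h1 := dens_add_le hB.compl (disjoint_compl_right) n w (B := B)
    have h2 : dens Bᶜ n w ≤ 1 / 100 := by
      have h3 : (99 / 100 : ENNReal) + dens Bᶜ n w ≤ 99 / 100 + 1 / 100 := by
        have e : (99 / 100 : ENNReal) + 1 / 100 = 1 := by
          rw [← ENNReal.add_div]
          norm_num
          exact ENNReal.div_self (by norm_num) (by norm_num)
        rw [e]
        exact (add_le_add_left hw.le _).trans h1
      exact (ENNReal.add_le_add_iff_left (ne_top_of_lt h99)).1 h3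
    unfold dens at h2
    rw [m2_vol_rad n w] at h2
    rw [ENNReal.div_le_iff (vol_ball_pos n 0).ne' (vol_ball_lt n 0).ne] at h2
    exact h2
  -- swap
  have hcont : Continuous fun p : (ℝ × ℝ) × ℝ => p.1 + rot ω (p.2, √(1 - p.2 ^ 2)) := by
    have h1 : Continuous fun p : (ℝ × ℝ) × ℝ => ((p.2, √(1 - p.2 ^ 2)) : ℝ × ℝ) := by fun_prop
    exact continuous_fst.add ((continuous_rot ω).comp h1)
  have hset : MeasurableSet {p : (ℝ × ℝ) × ℝ |
      |p.2| < 1 / 2 → p.1 ∈ B → p.1 + rot ω (p.2, √(1 - p.2 ^ 2)) ∉ B} := by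
    have e : {p : (ℝ × ℝ) × ℝ |
      |p.2| < 1 / 2 → p.1 ∈ B → p.1 + rot ω (p.2, √(1 - p.2 ^ 2)) ∉ B} =
      ({p : (ℝ × ℝ) × ℝ | |p.2| < 1 / 2} ∩ (Prod.fst ⁻¹' B) ∩
        ((fun p : (ℝ × ℝ) × ℝ => p.1 + rot ω (p.2, √(1 - p.2 ^ 2))) ⁻¹' B))ᶜ := by
      ext p
      simp only [mem_ofPred_eq, mem_compl_iff, mem_inter_iff, mem_preimage]
      tauto
    rw [e]
    refine MeasurableSet.compl ((MeasurableSet.inter ?_ (measurable_fst hB)).inter
      (hcont.measurable hB))
    exact measurableSet_lt (continuous_abs.measurable.comp measurable_snd) measurable_const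
  have hswap : ∀ᵐ t : ℝ, ∀ᵐ z : ℝ × ℝ,
      |t| < 1 / 2 → z ∈ B → z + rot ω (t, √(1 - t ^ 2)) ∉ B :=
    (Measure.ae_ae_comm (μ := (volume : Measure (ℝ × ℝ))) (ν := (volume : Measure ℝ)) hset).1 h
  have hfreq : ∃ᶠ t : ℝ in ae volume, t ∈ Ioo (-(r / 16)) (r / 16) := by
    rw [frequently_ae_mem_iff, Real.volume_Ioo]
    have : 0 < r / 16 - -(r / 16) := by linarith
    exact (ENNReal.ofReal_pos.2 this).ne'
  obtain ⟨t, ht1, ht2⟩ := (hfreq.and_eventually hswap).exists
  have ht : |t| < r / 16 := abs_lt.2 ht1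
  have hz0 : volume {z : ℝ × ℝ | z ∈ B ∧ z + rot ω (t, √(1 - t ^ 2)) ∈ B} = 0 := by
    rw [measure_eq_zero_iff_ae_notMem]
    filter_upwards [ht2] with z hz hz2
    exact hz (by linarith) hz2.1 hz2.2
  set c := rot ω (t, √(1 - t ^ 2)) with hc
  have hsub : closedBall x (rad (n + 1)) ⊆ {z : ℝ × ℝ | z ∈ B ∧ z + c ∈ B} ∪
      (Bᶜ ∩ closedBall x r) ∪ ((fun z => z + c) ⁻¹' (Bᶜ ∩ closedBall y r)) := by
    intro z hz
    have hz1 : z ∈ closedBall x (r / 2) := by
      have e : rad (n + 1) = r / 2 := by rw [hr]; unfold rad; rw [pow_succ]; ring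
      rwa [e] at hz
    have hz2 : z ∈ closedBall x r := closedBall_subset_closedBall (by linarith) hz1
    have hz3 : z + c ∈ closedBall y r := ao_near ω hxy ht hr1 hz1
    by_cases hb1 : z ∈ B
    · by_cases hb2 : z + c ∈ B
      · exact Or.inl (Or.inl ⟨hb1, hb2⟩)
      · exact Or.inr ⟨hb2, hz3⟩
    · exact Or.inl (Or.inr ⟨hb1, hz2⟩)
  have hV : volume (closedBall (0 : ℝ × ℝ) (rad (n + 1))) ≤
      2 / 100 * (4 * volume (closedBall (0 : ℝ × ℝ) (rad (n + 1)))) := by
    calc volume (closedBall (0 : ℝ × ℝ) (rad (n + 1))) = volume (closedBall x (rad (n + 1))) :=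
          (m2_vol_rad (n + 1) x).symm
      _ ≤ volume {z : ℝ × ℝ | z ∈ B ∧ z + c ∈ B} + volume (Bᶜ ∩ closedBall x r) +
          volume ((fun z => z + c) ⁻¹' (Bᶜ ∩ closedBall y r)) :=
          (measure_mono hsub).trans ((measure_union_le _ _).trans
            (add_le_add_left (measure_union_le _ _) _))
      _ = volume (Bᶜ ∩ closedBall x r) + volume (Bᶜ ∩ closedBall y r) := by
          rw [hz0, zero_add, measure_preimage_add_right]
      _ ≤ 1 / 100 * volume (closedBall (0 : ℝ × ℝ) r) +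
          1 / 100 * volume (closedBall (0 : ℝ × ℝ) r) := add_le_add (hcomp x hn1) (hcomp y hn2)
      _ = 2 / 100 * (4 * volume (closedBall (0 : ℝ × ℝ) (rad (n + 1)))) := by
          rw [← add_mul, ← ENNReal.add_div, m2_vol_rad_succ n]
          norm_num
  have hVpos := vol_ball_pos (n + 1) (0 : ℝ × ℝ)
  have hVlt := vol_ball_lt (n + 1) (0 : ℝ × ℝ)
  set V := volume (closedBall (0 : ℝ × ℝ) (rad (n + 1))) with hVdef
  have h1 : V.toReal ≤ (2 / 100 * (4 * V)).toReal := by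
    apply ENNReal.toReal_mono _ hV
    exact ENNReal.mul_ne_top (ENNReal.div_ne_top (by norm_num) (by norm_num))
      (ENNReal.mul_ne_top (by norm_num) hVlt.ne)
  have h2 : (2 / 100 * (4 * V)).toReal = 2 / 100 * (4 * V.toReal) := by
    simp [ENNReal.toReal_mul, ENNReal.toReal_div]
  have h3 : 0 < V.toReal := ENNReal.toReal_pos hVpos.ne' hVlt.ne
  rw [h2] at h1
  linarith

theorem avoid_of_frac {f : Fin 4 → ℝ × ℝ → ℝ} (h : Frac f) :
    ∃ A, Avoid {v : ℝ × ℝ | hp 2 v = 1} A := by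
  refine ⟨fun i => ao_A' f i ∩ {x | Dens1 (ao_A' f i) x}, ?_, ?_, ?_, ?_⟩
  · intro i
    exact (ao_meas h i).inter (measurable_dens1 (ao_meas h i))
  · intro i j hij
    exact (ao_disj hij).mono inter_subset_left inter_subset_left
  · have h1 : ∀ i, ∀ᵐ x : ℝ × ℝ, x ∈ ao_A' f i → Dens1 (ao_A' f i) x := by
      intro i
      have h2 := Besicovitch.ae_tendsto_measure_inter_div (volume : Measure (ℝ × ℝ)) (ao_A' f i)
      rw [ae_restrict_iff' (ao_meas h i)] at h2
      filter_upwards [h2] with x hx hxA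
      exact (hx hxA).comp tendsto_rad
    have h3 : ∀ᵐ x : ℝ × ℝ, ∀ i, x ∈ ao_A' f i → Dens1 (ao_A' f i) x := by
      rw [ae_all_iff]
      exact h1
    filter_upwards [h3, h.cover] with x hx hc
    obtain ⟨i, hi⟩ := ao_cover hc
    exact ⟨i, hi, hx i hi⟩
  · rintro i x ⟨-, hx⟩ y ⟨-, hy⟩ hxy
    rw [mem_ofPred_eq, hp_two] at hxy
    have hu : (y - x).1 ^ 2 + (y - x).2 ^ 2 = 1 := by
      have h1 : (x - y).1 = - (y - x).1 := by simp
      have h2 : (x - y).2 = - (y - x).2 := by simp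
      rw [h1, h2] at hxy
      linarith
    obtain ⟨ω, hω⟩ := exists_rot hu
    refine ao_core (ao_meas h i) ω hx hy hω ?_
    filter_upwards [h.avoid i ω] with z hz
    filter_upwards [hz] with t ht ht1 hz1 hz2
    have h1 := ht ht1
    have h2 : 0 < f i z := hz1.1
    have h3 : 0 < f i (z + rot ω (t, √(1 - t ^ 2))) := hz2.1
    exact absurd h1 (mul_pos h2 h3).ne'

end Pool.Agent.H99N
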