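import Pool.Agent.Helper2.LM.F2

/-!
# The Euclidean case (Falconer), from the library `Pool.Agent.Helper2.LM`

Plan. As in `family` and `main` (files F1, F2 of `Pool.Agent.Helper2.LM`) but directly for `p = 2`:
`Config {v | hp 2 v = 1} ee (fun t => t + 1 / 6) (fun t => t + α)` with `α` from `euclid2`, using
`euclid1`, `euclid2`, `gam_curve` (for `dir`, with `gam 2 = ee`, `gam' 2 = ee'`), and the translation
number of the translation by `α` is `α`. Then `exists_anti`, `cdiff_of`, `no_anti`.
-/

open Set MeasureTheory Filter Topology Metric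

namespace Pool.Agent.H99N

open Pool.Agent.Helper2.LM

private theorem falconer_config : ∃ α : ℝ, Irrational α ∧
    Config {v : ℝ × ℝ | hp 2 v = 1} ee (fun t => t + 1 / 6) (fun t => t + α) := by
  obtain ⟨gam', hcurve, hgam2, hdir⟩ := gam_curve
  have e2 : gam 2 = ee := funext gam_two
  have e2' : gam' 2 = ee' := funext hgam2
  have h2mem : (2 : ℝ) ∈ Ico (2 : ℝ) (2 + 1) := ⟨le_rfl, by norm_num⟩
  have hder : ∀ t, HasDerivAt ee (ee' t) t := by
    intro t
    have := (hcurve 1 one_pos).der 2 h2mem t
    rwa [e2, e2'] at this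
  have hper : ∀ t, ee (t + 1) = ee t := by
    intro t
    have := (hcurve 1 one_pos).per 2 h2mem t
    rwa [e2] at this
  have hsm : ContDiff ℝ 1 ee := by
    unfold ee
    fun_prop
  obtain ⟨-, α, hα, hirr, hαt⟩ := euclid2
  have hw : ∀ t, HasDerivAt (fun s => ee s + ee (s + 1 / 6)) (ee' t + ee' (t + 1 / 6)) t := by
    intro t
    exact (hder t).add ((hder (t + 1 / 6)).comp_add_const t (1 / 6))
  refine ⟨α, hirr, ?_⟩
  exact
  { γ_c := hsm
    γ_per := hper
    γ_mem := fun t => by
      have := hp_gam (p := 2) (by norm_num) t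
      rw [e2] at this
      exact this
    T_c := by fun_prop
    T_pos := fun t => by
      rw [deriv_add_const, deriv_id'']
      exact one_pos
    T_add := fun t => by ring
    γT := fun t => (euclid1 t).2.2.2
    ρ_c := by fun_prop
    ρ_pos := fun t => by
      rw [deriv_add_const, deriv_id'']
      exact one_pos
    ρ_add := fun t => by ring
    wρ := fun t => (hαt t).1
    dir := fun v hv => by
      filter_upwards [hdir 2 le_rfl v hv] with t ht
      rw [(hder t).deriv, ← hgam2 t]
      exact ht
    ww := fun t => by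
      rw [(hw t).deriv, (hw (t + α)).deriv]
      exact (hαt t).2 }

theorem falconer (A : Fin 4 → Set (ℝ × ℝ)) : ¬ Avoid {v : ℝ × ℝ | hp 2 v = 1} A := by
  intro hA
  obtain ⟨α, hirr, hC⟩ := falconer_config
  obtain ⟨E, hE1, hE2, hE3⟩ := exists_anti hC hA
  have hF : ∀ x, (CircleDeg1Lift.translate (Multiplicative.ofAdd α) : CircleDeg1Lift) x =
      (fun t => t + α) x := by
    intro x
    rw [CircleDeg1Lift.translate_apply]
    exact add_comm _ _
  have htn : CircleDeg1Lift.translationNumber
      ((CircleDeg1Lift.translate (Multiplicative.ofAdd α) : CircleDeg1Liftˣ) : CircleDeg1Lift) =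
      α := CircleDeg1Lift.translationNumber_translate α
  obtain ⟨g, hg⟩ := cdiff_of hC.ρ_c hC.ρ_pos hC.ρ_add hF (by rw [htn]; exact hirr)
  exact no_anti hg hE1 hE2 hE3

end Pool.Agent.H99N
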