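import Pool.Agent.H99N.Defs

/-!
# The near-identity map between the two difference maps, for a fixed first coordinate `a`

Plan. Put `D s = g (s + a) - g s`, so `D' s = g' (s + a) - g' s` and by `Prof` `|D' s| ≥ |a| ≥ δ`
with constant sign, so `|D x - D y| ≥ |a| * |x - y|`, `D` is continuous, injective and onto `ℝ`.
Also `|D' (s + d) - D' s| ≤ 4 * |d|` (two applications of `hi`), so by the mean value inequality
`|(D (s + d) - D (s' + d)) - (D s - D s')| ≤ 4 * |d| * |s - s'|`.
Define `τ s` by `D (τ s) = D s + (r (s + a) - r s)`; write `τ s = s + d s`. Then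
`|a| * |d s| ≤ |D (τ s) - D s| ≤ 2 * η`, and
`|a| * |d s - d s'| ≤ |D (s' + d s) - D (s' + d s')|`
`≤ |(D (s + d s) - D (s' + d s')) - (D s - D s')| + |(D (s + d s) - D (s' + d s)) - (D s - D s')|`
`≤ 2 * η * |s - s'| + 4 * |d s| * |s - s'|`. So every `η` with
`2 * η / δ ≤ ε` and `(2 * η + 8 * η / δ) / δ ≤ ε` works.
-/

open Set MeasureTheory Filter Topology Metric

namespace Pool.Agent.H99N

private lemma fibre_der {g g' : ℝ → ℝ} (h : Prof g g') (a s : ℝ) :
    HasDerivAt (fun s => g (s + a) - g s) (g' (s + a) - g' s) s :=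
  ((h.der (s + a)).comp_add_const s a).sub (h.der s)

private lemma fibre_dlip {g g' : ℝ → ℝ} (h : Prof g g') (s d : ℝ) :
    |g' (s + d) - g' s| ≤ 2 * |d| := by
  rcases le_total 0 d with hd | hd
  · have h1 := h.hi s (s + d) (by linarith)
    have h2 := h.lo s (s + d) (by linarith)
    rw [abs_of_nonneg hd, abs_le]
    constructor <;> linarith
  · have h1 := h.hi (s + d) s (by linarith)
    have h2 := h.lo (s + d) s (by linarith)
    rw [abs_of_nonpos hd, abs_le]
    constructor <;> linarith

private lemma fibre_sign {g g' : ℝ → ℝ} (h : Prof g g') (a : ℝ) :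
    ∃ σ : ℝ, |σ| = 1 ∧ ∀ s, |a| ≤ σ * (g' (s + a) - g' s) := by
  rcases le_total 0 a with ha | ha
  · refine ⟨-1, by simp, fun s => ?_⟩
    have h1 := h.lo s (s + a) (by linarith)
    rw [abs_of_nonneg ha]
    linarith
  · refine ⟨1, by simp, fun s => ?_⟩
    have h1 := h.lo (s + a) s (by linarith)
    rw [abs_of_nonpos ha]
    linarith

private lemma fibre_lower {g g' : ℝ → ℝ} (h : Prof g g') (a : ℝ) {σ : ℝ}
    (h1 : ∀ s, |a| ≤ σ * (g' (s + a) - g' s)) :
    Monotone fun s => σ * (g (s + a) - g s) - |a| * s := by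
  have hd : ∀ s, HasDerivAt (fun s => σ * (g (s + a) - g s) - |a| * s)
      (σ * (g' (s + a) - g' s) - |a| * 1) s := fun s =>
    ((fibre_der h a s).const_mul σ).sub ((hasDerivAt_id s).const_mul |a|)
  refine monotone_of_deriv_nonneg (fun s => (hd s).differentiableAt) fun s => ?_
  rw [(hd s).deriv]
  linarith [h1 s]

private lemma fibre_bil {g g' : ℝ → ℝ} (h : Prof g g') (a x y : ℝ) :
    |a| * |x - y| ≤ |(g (x + a) - g x) - (g (y + a) - g y)| := by
  obtain ⟨σ, hσ, h1⟩ := fibre_sign h a
  have hm := fibre_lower h a h1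
  have key : ∀ u v : ℝ, u ≤ v →
      |a| * (v - u) ≤ |(g (v + a) - g v) - (g (u + a) - g u)| := by
    intro u v huv
    have := hm huv
    simp only at this
    have h2 : |a| * (v - u) ≤ σ * ((g (v + a) - g v) - (g (u + a) - g u)) := by
      rw [mul_sub σ, mul_sub]
      linarith
    refine h2.trans ((le_abs_self _).trans ?_)
    rw [abs_mul, hσ, one_mul]
  rcases le_total x y with hxy | hxy
  · have := key x y hxy
    rw [abs_sub_comm x y, abs_of_nonneg (sub_nonneg.2 hxy), abs_sub_comm]
    exact this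
  · have := key y x hxy
    rw [abs_of_nonneg (sub_nonneg.2 hxy)]
    exact this

private lemma fibre_surj {g g' : ℝ → ℝ} (h : Prof g g') {a : ℝ} (ha : 0 < |a|) :
    Function.Surjective fun s => g (s + a) - g s := by
  obtain ⟨σ, hσ, h1⟩ := fibre_sign h a
  have hm := fibre_lower h a h1
  have hcont : Continuous fun s => σ * (g (s + a) - g s) :=
    continuous_iff_continuousAt.2 fun s => ((fibre_der h a s).const_mul σ).continuousAt
  have hs : Function.Surjective fun s => σ * (g (s + a) - g s) := by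
    refine hcont.surjective ?_ ?_
    · refine tendsto_atTop_mono' atTop (f₁ := fun s => σ * (g (0 + a) - g 0) + |a| * s) ?_ ?_
      · filter_upwards [eventually_ge_atTop (0 : ℝ)] with s hs
        have := hm hs
        simp only at this
        linarith
      · exact tendsto_atTop_add_const_left _ _ (tendsto_id.const_mul_atTop ha)
    · have hlin : Tendsto (fun s : ℝ => σ * (g (0 + a) - g 0) + |a| * s) atBot atBot :=
        tendsto_atBot_add_const_left _ _ (tendsto_id.const_mul_atBot ha)
      refine tendsto_atBot_mono' atBot ?_ hlin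
      · filter_upwards [eventually_le_atBot (0 : ℝ)] with s hs
        have := hm hs
        simp only at this
        linarith
  intro y
  obtain ⟨x, hx⟩ := hs (σ * y)
  refine ⟨x, ?_⟩
  have hσ0 : σ ≠ 0 := by
    intro h0
    rw [h0] at hσ
    simp at hσ
  exact mul_left_cancel₀ hσ0 hx

private lemma fibre_second {g g' : ℝ → ℝ} (h : Prof g g') (a d x y : ℝ) :
    |((g (x + d + a) - g (x + d)) - (g (x + a) - g x)) -
      ((g (y + d + a) - g (y + d)) - (g (y + a) - g y))| ≤ 4 * |d| * |x - y| := by
  have hd : ∀ s, HasDerivAt (fun s => (g (s + d + a) - g (s + d)) - (g (s + a) - g s))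
      ((g' (s + d + a) - g' (s + d)) - (g' (s + a) - g' s)) s := fun s =>
    ((fibre_der h a (s + d)).comp_add_const s d).sub (fibre_der h a s)
  have hb : ∀ s, ‖(g' (s + d + a) - g' (s + d)) - (g' (s + a) - g' s)‖ ≤ 4 * |d| := by
    intro s
    have e1 := fibre_dlip h (s + a) d
    have e2 := fibre_dlip h s d
    have e3 : (g' (s + d + a) - g' (s + d)) - (g' (s + a) - g' s) =
        (g' (s + a + d) - g' (s + a)) - (g' (s + d) - g' s) := by
      rw [show s + d + a = s + a + d by ring]
      ring
    rw [e3, Real.norm_eq_abs]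
    refine (abs_sub _ _).trans ?_
    linarith
  have := Convex.norm_image_sub_le_of_norm_hasDerivWithin_le
    (fun s _ => (hd s).hasDerivWithinAt (s := univ)) (fun s _ => hb s) convex_univ
    (mem_univ y) (mem_univ x)
  simpa [Real.norm_eq_abs] using this

theorem fibre {g g' : ℝ → ℝ} (h : Prof g g') {δ ε : ℝ} (hδ : 0 < δ) (hε : 0 < ε) :
    ∃ η : ℝ, 0 < η ∧ ∀ r : ℝ → ℝ, Small η r → ∀ a : ℝ, δ ≤ |a| →
      ∃ τ : ℝ → ℝ, Small ε (fun s => τ s - s) ∧
        ∀ s, g (τ s + a) - g (τ s) = (g (s + a) + r (s + a)) - (g s + r s) := by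
  set K : ℝ := 2 / δ + (2 + 8 / δ) / δ with hK
  have hK0 : 0 < K := by positivity
  refine ⟨ε / K, by positivity, ?_⟩
  set η : ℝ := ε / K with hη
  have hη0 : 0 < η := by positivity
  have hηK : η * K = ε := by rw [hη]; field_simp
  have hη1 : 2 * η ≤ ε * δ := by
    have e : ε * δ = 2 * η + η * (2 + 8 / δ) := by
      rw [← hηK, hK]; field_simp
    have : 0 < η * (2 + 8 / δ) := by positivity
    linarith
  have hη2 : 2 * η + 8 * η / δ ≤ ε * δ := by
    have e : ε * δ = 2 * η + (2 * η + 8 * η / δ) := by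
      rw [← hηK, hK]; field_simp
    linarith
  intro r hr a ha
  have ha0 : 0 < |a| := hδ.trans_le ha
  have hsurj := fibre_surj h ha0
  choose τ hτ using fun s => hsurj ((g (s + a) - g s) + (r (s + a) - r s))
  simp only at hτ
  have hds : ∀ s, |a| * |τ s - s| ≤ 2 * η := by
    intro s
    refine (fibre_bil h a (τ s) s).trans ?_
    rw [hτ s]
    have e : (g (s + a) - g s) + (r (s + a) - r s) - (g (s + a) - g s) = r (s + a) - r s := by
      ring
    rw [e]
    refine (abs_sub _ _).trans ?_
    linarith [hr.bd (s + a), hr.bd s]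
  have hds2 : ∀ s, |τ s - s| ≤ 2 * η / δ := by
    intro s
    rw [le_div_iff₀ hδ]
    refine le_trans ?_ (hds s)
    rw [mul_comm]
    exact mul_le_mul_of_nonneg_right ha (abs_nonneg _)
  refine ⟨τ, ⟨fun s => ?_, fun s s' => ?_⟩, fun s => ?_⟩
  · refine (hds2 s).trans ?_
    rw [div_le_iff₀ hδ]
    exact hη1
  · set d := τ s - s with hd
    set d' := τ s' - s' with hd'
    have h1 := fibre_bil h a (s' + d) (s' + d')
    have h2 := fibre_second h a d s s'
    have e1 : s + d = τ s := by rw [hd]; ring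
    have e2 : s' + d' = τ s' := by rw [hd']; ring
    rw [e1] at h2
    rw [e2] at h1
    have t1 := hτ s
    have t2 := hτ s'
    have r1 := hr.lip (s + a) (s' + a)
    have r2 := hr.lip s s'
    have e3 : s + a - (s' + a) = s - s' := by ring
    rw [e3] at r1
    have e4 : s' + d - τ s' = d - d' := by rw [hd']; ring
    rw [e4] at h1
    have h3 : |(g (s' + d + a) - g (s' + d)) - (g (τ s' + a) - g (τ s'))| ≤
        (2 * η + 8 * η / δ) * |s - s'| := by
      have e5 : (g (s' + d + a) - g (s' + d)) - (g (τ s' + a) - g (τ s')) =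
          ((r (s + a) - r (s' + a)) - (r s - r s')) -
          (((g (τ s + a) - g (τ s)) - (g (s + a) - g s)) -
            ((g (s' + d + a) - g (s' + d)) - (g (s' + a) - g s'))) := by
        rw [t1, t2]; ring
      rw [e5]
      have h4 : 4 * |d| * |s - s'| ≤ 8 * η / δ * |s - s'| := by
        refine mul_le_mul_of_nonneg_right ?_ (abs_nonneg _)
        have := hds2 s
        rw [← hd] at this
        calc 4 * |d| ≤ 4 * (2 * η / δ) := by linarith
          _ = 8 * η / δ := by ring
      have h5 := abs_sub ((r (s + a) - r (s' + a)) - (r s - r s'))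
          (((g (τ s + a) - g (τ s)) - (g (s + a) - g s)) -
            ((g (s' + d + a) - g (s' + d)) - (g (s' + a) - g s')))
      have h6 := abs_sub (r (s + a) - r (s' + a)) (r s - r s')
      rw [add_mul]
      linarith
    have h7 : |a| * |d - d'| ≤ (2 * η + 8 * η / δ) * |s - s'| := h1.trans h3
    have h8 : δ * |d - d'| ≤ (ε * |s - s'|) * δ := by
      calc δ * |d - d'| ≤ |a| * |d - d'| := mul_le_mul_of_nonneg_right ha (abs_nonneg _)
        _ ≤ (2 * η + 8 * η / δ) * |s - s'| := h7
        _ ≤ (ε * δ) * |s - s'| := mul_le_mul_of_nonneg_right hη2 (abs_nonneg _)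
        _ = (ε * |s - s'|) * δ := by ring
    rw [mul_comm] at h8
    exact le_of_mul_le_mul_right h8 hδ
  · rw [hτ s]
    ring

end Pool.Agent.H99N
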