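import Pool.Agent.H99N.Graph

/-!
# The unit circle of a norm close to the Euclidean norm is a small Lipschitz perturbation

Plan. Let `G` be from `graph` for a small `η₀`, `ρ = G - g` on `[-3/5, 3/5]`, `|ρ| ≤ η₀`. Claim: for
`s < t` in `[-1/2, 1/2]`, `|ρ t - ρ s| ≤ (C * √η₀) * (t - s)` for a constant `C`. Put `d = √η₀ ≤ 1/10`.
If `t - s ≥ d` use `|ρ t - ρ s| ≤ 2 * η₀ ≤ 2 * d * (t - s)`. If `t - s < d` compare slopes: by
concavity of `G` (`ConcaveOn.slope_anti_adjacent` or similar)
`(G t - G s) / (t - s) ≥ (G (t + d) - G t) / d ≥ (g (t + d) - g t - 2 * η₀) / d ≥ g' (t + d) - 2 * d`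
and `(g t - g s) / (t - s) ≤ g' s ≤ g' (t + d) + 4 * d`, which gives a lower bound `-6 * d` of the
slope of `ρ`; symmetrically with `s - d` for an upper bound. Then
`r t = ρ (max (-1/2) (min (1/2) t))` (clamping is `1`-Lipschitz) is `Small η` when `η₀` is small, and
`g t + r t = G t` for `|t| ≤ 1/2`.
-/

open Set MeasureTheory Filter Topology Metric

namespace Pool.Agent.H99N

/-- two-sided bounds for the increments of a profile -/
private theorem pert_mvt {g g' : ℝ → ℝ} (h : Prof g g') {s t : ℝ} (hst : s < t) :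
    g' t * (t - s) ≤ g t - g s ∧ g t - g s ≤ g' s * (t - s) := by
  obtain ⟨c, hc, hce⟩ := exists_hasDerivAt_eq_slope g g' hst
    (fun x _ => (h.der x).continuousAt.continuousWithinAt) (fun x _ => h.der x)
  have hts : 0 < t - s := by linarith
  have h1 : g t - g s = g' c * (t - s) := by
    rw [hce]; field_simp
  have h2 := h.lo s c hc.1.le
  have h3 := h.lo c t hc.2.le
  have h4 := hc.1
  have h5 := hc.2
  rw [h1]
  constructor
  · exact mul_le_mul_of_nonneg_right (by linarith) hts.le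
  · exact mul_le_mul_of_nonneg_right (by linarith) hts.le

/-- the difference of a concave function and a profile which are close is Lipschitz with a small
constant -/
private theorem pert_slope {g g' G : ℝ → ℝ} (h : Prof g g')
    (hG : ConcaveOn ℝ (Icc (-(3 / 5)) (3 / 5)) G) {d : ℝ} (hd : 0 < d) (hd1 : d ≤ 1 / 10)
    (hcl : ∀ t, |t| ≤ 3 / 5 → |G t - g t| ≤ d ^ 2) {s t : ℝ} (hs : -(1 / 2) ≤ s) (hst : s < t)
    (ht : t ≤ 1 / 2) : |(G t - g t) - (G s - g s)| ≤ 6 * d * (t - s) := by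
  have hts : 0 < t - s := by linarith
  have hs1 := abs_le.1 (hcl s (abs_le.2 ⟨by linarith, by linarith⟩))
  have ht1 := abs_le.1 (hcl t (abs_le.2 ⟨by linarith, by linarith⟩))
  rcases le_or_gt d (t - s) with hc | hc
  · have h1 : d * d ≤ d * (t - s) := mul_le_mul_of_nonneg_left hc hd.le
    rw [abs_le]
    constructor <;> nlinarith
  · have hu1 := abs_le.1 (hcl (t + d) (abs_le.2 ⟨by linarith, by linarith⟩))
    have hv1 := abs_le.1 (hcl (s - d) (abs_le.2 ⟨by linarith, by linarith⟩))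
    have hmem : ∀ x : ℝ, -(3 / 5) ≤ x → x ≤ 3 / 5 → x ∈ Icc (-(3 / 5) : ℝ) (3 / 5) :=
      fun x h1 h2 => ⟨h1, h2⟩
    have hA := hG.slope_anti_adjacent (hmem s (by linarith) (by linarith))
      (hmem (t + d) (by linarith) (by linarith)) hst (by linarith : t < t + d)
    have hB := hG.slope_anti_adjacent (hmem (s - d) (by linarith) (by linarith))
      (hmem t (by linarith) (by linarith)) (by linarith : s - d < s) hst
    rw [add_sub_cancel_left, div_le_div_iff₀ hd hts] at hA
    rw [sub_sub_cancel, div_le_div_iff₀ hts hd] at hB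
    obtain ⟨m1, m2⟩ := pert_mvt h hst
    obtain ⟨n1, -⟩ := pert_mvt h (by linarith : t < t + d)
    obtain ⟨-, k2⟩ := pert_mvt h (by linarith : s - d < s)
    rw [add_sub_cancel_left] at n1
    rw [sub_sub_cancel] at k2
    have l1 := h.hi s (t + d) (by linarith)
    have l2 := h.hi (s - d) t (by linarith)
    -- lower bound
    have e1 : (g' (t + d) * d - 2 * d ^ 2) * (t - s) ≤ (G t - G s) * d := by
      refine le_trans ?_ hA
      exact mul_le_mul_of_nonneg_right (by linarith) hts.le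
    have e2 : (g' (t + d) - 2 * d) * (t - s) ≤ G t - G s := by
      have : ((g' (t + d) - 2 * d) * (t - s)) * d ≤ (G t - G s) * d := by
        refine le_trans (le_of_eq ?_) e1
        ring
      exact le_of_mul_le_mul_right this hd
    have e3 : g' s * (t - s) ≤ (g' (t + d) + 4 * d) * (t - s) :=
      mul_le_mul_of_nonneg_right (by linarith) hts.le
    -- upper bound
    have f1 : (G t - G s) * d ≤ (g' (s - d) * d + 2 * d ^ 2) * (t - s) := by
      refine le_trans hB ?_
      exact mul_le_mul_of_nonneg_right (by linarith) hts.le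
    have f2 : G t - G s ≤ (g' (s - d) + 2 * d) * (t - s) := by
      have : (G t - G s) * d ≤ ((g' (s - d) + 2 * d) * (t - s)) * d := by
        refine le_trans f1 (le_of_eq ?_)
        ring
      exact le_of_mul_le_mul_right this hd
    have f3 : (g' (s - d)) * (t - s) ≤ (g' t + 4 * d) * (t - s) :=
      mul_le_mul_of_nonneg_right (by linarith) hts.le
    rw [abs_le]
    constructor <;> linarith

/-- clamping to `[-1/2, 1/2]` is `1`-Lipschitz -/
private theorem pert_clamp (s t : ℝ) :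
    |max (-(1 / 2)) (min (1 / 2) s) - max (-(1 / 2)) (min (1 / 2) t)| ≤ |s - t| := by
  refine (abs_max_sub_max_le_max _ _ _ _).trans (max_le (by simp) ?_)
  exact (abs_min_sub_min_le_max _ _ _ _).trans (max_le (by simp) le_rfl)

theorem pert {g g' : ℝ → ℝ} (h : Prof g g') (hg : ∀ t, |t| ≤ 3 / 5 → g t = √(1 - t ^ 2)) {η : ℝ}
    (hη : 0 < η) : ∃ ε : ℝ, 0 < ε ∧ ∀ N : ℝ × ℝ → ℝ, Near ε N →
      ∃ r : ℝ → ℝ, Small η r ∧ ∀ t, |t| ≤ 1 / 2 → N (t, g t + r t) = 1 := by
  obtain ⟨d, hd⟩ : ∃ d : ℝ, d = min (1 / 10) (η / 10) := ⟨_, rfl⟩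
  have hd0 : 0 < d := by rw [hd]; exact lt_min (by norm_num) (by linarith)
  have hd1 : d ≤ 1 / 10 := by rw [hd]; exact min_le_left _ _
  have hd2 : d ≤ η / 10 := by rw [hd]; exact min_le_right _ _
  obtain ⟨ε, hε, H⟩ := graph (pow_pos hd0 2)
  refine ⟨ε, hε, fun N hN => ?_⟩
  obtain ⟨G, hG, hcl, hone⟩ := H N hN
  have hcl' : ∀ t, |t| ≤ 3 / 5 → |G t - g t| ≤ d ^ 2 := by
    intro t ht
    rw [hg t ht]
    exact hcl t ht
  obtain ⟨c, hc⟩ : ∃ c : ℝ → ℝ, ∀ t, c t = max (-(1 / 2)) (min (1 / 2) t) :=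
    ⟨fun t => max (-(1 / 2)) (min (1 / 2) t), fun t => rfl⟩
  have hc1 : ∀ t, -(1 / 2) ≤ c t := fun t => by rw [hc]; exact le_max_left _ _
  have hc2 : ∀ t, c t ≤ 1 / 2 := fun t => by
    rw [hc]; exact max_le (by norm_num) (min_le_left _ _)
  have hc3 : ∀ s t, |c s - c t| ≤ |s - t| := fun s t => by
    rw [hc, hc]; exact pert_clamp s t
  have hc4 : ∀ t, |t| ≤ 1 / 2 → c t = t := fun t ht => by
    have h1 := abs_le.1 ht
    rw [hc, min_eq_right h1.2, max_eq_right h1.1]
  have hlip : ∀ s t : ℝ, |(G (c s) - g (c s)) - (G (c t) - g (c t))| ≤ 6 * d * |c s - c t| := by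
    intro s t
    rcases lt_trichotomy (c s) (c t) with hlt | heq | hgt
    · have := pert_slope h hG hd0 hd1 hcl' (hc1 s) hlt (hc2 t)
      rw [abs_sub_comm] at this
      rw [abs_sub_comm (c s) (c t), abs_of_pos (by linarith : 0 < c t - c s)]
      exact this
    · rw [heq]; simp
    · have := pert_slope h hG hd0 hd1 hcl' (hc1 t) hgt (hc2 s)
      rw [abs_of_pos (by linarith : 0 < c s - c t)]
      exact this
  refine ⟨fun t => G (c t) - g (c t), ⟨fun t => ?_, fun s t => ?_⟩, fun t ht => ?_⟩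
  · refine (hcl' (c t) (abs_le.2 ⟨by linarith [hc1 t], by linarith [hc2 t]⟩)).trans ?_
    nlinarith
  · refine (hlip s t).trans ?_
    have h1 := hc3 s t
    have h2 := abs_nonneg (c s - c t)
    have h3 : 6 * d ≤ η := by linarith
    calc 6 * d * |c s - c t| ≤ η * |c s - c t| := mul_le_mul_of_nonneg_right h3 h2
      _ ≤ η * |s - t| := mul_le_mul_of_nonneg_left h1 hη.le
  · have h1 : g t + (G (c t) - g (c t)) = G t := by
      rw [hc4 t ht]; ring
    show N (t, g t + (G (c t) - g (c t))) = 1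
    rw [h1]
    exact hone t (ht.trans (by norm_num))

end Pool.Agent.H99N
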