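import Pool.Agent.H99N.Defs

/-!
# A global profile that agrees with the Euclidean circle on `[-3/5, 3/5]`

Plan. `g' t = -t / √(1 - min (t ^ 2) (9 / 25))`, a continuous odd function; `g t = 1 + ∫ x in 0..t,
g' x`. On `[-3/5, 3/5]` the function `√(1 - t ^ 2)` has derivative `g' t` (in the interior, it is
continuous on the closed interval) and value `1` at `0`, so it agrees with `g` there. With
`h t = 1 / √(1 - min (t ^ 2) (9 / 25)) ∈ [1, 5/4]`, even and nondecreasing on `[0, ∞)`, one has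
`-g' t = t * h t`, and `t - s ≤ t * h t - s * h s` for `s ≤ t` is elementary (treat the signs
separately). For the upper bound: `t * h t` has derivative `(1 - t ^ 2) ^ (-3/2) ≤ 125/64 < 2` for
`|t| < 3/5` and is `5/4 * t` for `|t| ≥ 3/5`.
(Alternatively `g t = √(1 - t ^ 2)` for `|t| ≤ 3/5` and `4/5 - 5/8 * (t ^ 2 - 9/25)` otherwise.)
-/

open Set MeasureTheory Filter Topology Metric

namespace Pool.Agent.H99N

private noncomputable def cl (t : ℝ) : ℝ := max (-(3 / 5)) (min (3 / 5) t)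

private theorem cl_lo (t : ℝ) : -(3 / 5) ≤ cl t := le_max_left _ _

private theorem cl_hi (t : ℝ) : cl t ≤ 3 / 5 := max_le (by norm_num) (min_le_left _ _)

private theorem cl_mono {s t : ℝ} (h : s ≤ t) : cl s ≤ cl t :=
  max_le_max le_rfl (min_le_min le_rfl h)

private theorem cl_lip {s t : ℝ} (h : s ≤ t) : cl t - cl s ≤ t - s := by
  unfold cl
  rcases max_cases (-(3 / 5)) (min (3 / 5) t) with h1 | h1 <;>
  rcases max_cases (-(3 / 5)) (min (3 / 5) s) with h2 | h2 <;>
  rcases min_cases (3 / 5) t with h3 | h3 <;>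
  rcases min_cases (3 / 5) s with h4 | h4 <;> linarith [h1.1, h1.2, h2.1, h2.2, h3.1, h3.2, h4.1, h4.2]

private theorem cl_eq {t : ℝ} (h : |t| ≤ 3 / 5) : cl t = t := by
  have h1 := abs_le.1 h
  unfold cl
  rw [min_eq_right h1.2, max_eq_right h1.1]

private theorem cl_cont : Continuous cl := by
  unfold cl
  exact continuous_const.max (continuous_const.min continuous_id)

private theorem psi_bd {u v : ℝ} (hu : -(3 / 5) ≤ u) (hu' : u ≤ 3 / 5) (hv : -(3 / 5) ≤ v)
    (hv' : v ≤ 3 / 5) (h : u ≤ v) :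
    v - u ≤ v / √(1 - v ^ 2) - u / √(1 - u ^ 2) ∧
      v / √(1 - v ^ 2) - u / √(1 - u ^ 2) ≤ 2 * (v - u) := by
  have hu2 : u ^ 2 ≤ 9 / 25 := by nlinarith
  have hv2 : v ^ 2 ≤ 9 / 25 := by nlinarith
  obtain ⟨p, hp⟩ : ∃ p, p = √(1 - u ^ 2) := ⟨_, rfl⟩
  obtain ⟨q, hq⟩ : ∃ q, q = √(1 - v ^ 2) := ⟨_, rfl⟩
  have hp2 : p ^ 2 = 1 - u ^ 2 := by rw [hp]; exact Real.sq_sqrt (by linarith)
  have hq2 : q ^ 2 = 1 - v ^ 2 := by rw [hq]; exact Real.sq_sqrt (by linarith)
  have hp0 : 4 / 5 ≤ p := by rw [hp]; exact Real.le_sqrt_of_sq_le (by linarith)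
  have hq0 : 4 / 5 ≤ q := by rw [hq]; exact Real.le_sqrt_of_sq_le (by linarith)
  have hp1 : p ≤ 1 := by nlinarith [sq_nonneg u]
  have hq1 : q ≤ 1 := by nlinarith [sq_nonneg v]
  rw [← hp, ← hq]
  have hpp : 0 < p := by linarith
  have hqq : 0 < q := by linarith
  have hD : 0 < p * q * (p + q) := by positivity
  have key : v / q - u / p = (v - u) * ((1 + p * q + u * v) / (p * q * (p + q))) := by
    rw [div_sub_div _ _ hqq.ne' hpp.ne', mul_div_assoc', div_eq_div_iff (by positivity) hD.ne']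
    linear_combination (v * p * q) * hp2 - (u * p * q) * hq2
  have k1 : 1 ≤ (1 + p * q + u * v) / (p * q * (p + q)) := by
    rw [le_div_iff₀ hD, one_mul]
    have h1 : p * q * (p + q) ≤ p * q * 2 :=
      mul_le_mul_of_nonneg_left (by linarith) (by positivity)
    nlinarith [sq_nonneg (u + v), sq_nonneg (p - q)]
  have k2 : (1 + p * q + u * v) / (p * q * (p + q)) ≤ 2 := by
    rw [div_le_iff₀ hD]
    have h1 : 16 / 25 ≤ p * q := by nlinarith
    have h2 : u * v ≤ 9 / 25 := by nlinarith [sq_nonneg (u - v)]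
    have h3 : 16 / 25 * (11 / 5) ≤ p * q * (2 * (p + q) - 1) :=
      mul_le_mul h1 (by linarith) (by norm_num) (by positivity)
    nlinarith
  have hvu : 0 ≤ v - u := by linarith
  rw [key]
  constructor
  · nlinarith
  · nlinarith

private noncomputable def gp (t : ℝ) : ℝ :=
  -(cl t / √(1 - cl t ^ 2) + 5 / 4 * (t - cl t))

private theorem gp_cont : Continuous gp := by
  unfold gp
  refine ((cl_cont.div (Real.continuous_sqrt.comp (continuous_const.sub (cl_cont.pow 2))) ?_).add
    (continuous_const.mul (continuous_id.sub cl_cont))).neg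
  intro t
  have h1 := cl_lo t
  have h2 := cl_hi t
  have h3 : 0 < 1 - cl t ^ 2 := by nlinarith
  exact (Real.sqrt_pos.2 h3).ne'

theorem profile : ∃ g g' : ℝ → ℝ, Prof g g' ∧ ∀ t, |t| ≤ 3 / 5 → g t = √(1 - t ^ 2) := by
  refine ⟨fun t => 1 + ∫ x in (0 : ℝ)..t, gp x, gp, ⟨?_, ?_, ?_⟩, ?_⟩
  · intro t
    exact (gp_cont.integral_hasStrictDerivAt 0 t).hasDerivAt.const_add 1
  · intro s t hst
    have h1 := psi_bd (cl_lo s) (cl_hi s) (cl_lo t) (cl_hi t) (cl_mono hst)
    have h2 := cl_lip hst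
    have h3 := cl_mono hst
    unfold gp
    linarith [h1.1, h1.2]
  · intro s t hst
    have h1 := psi_bd (cl_lo s) (cl_hi s) (cl_lo t) (cl_hi t) (cl_mono hst)
    have h2 := cl_lip hst
    have h3 := cl_mono hst
    unfold gp
    linarith [h1.1, h1.2]
  · intro t ht
    have hd : ∀ x ∈ uIcc 0 t, HasDerivAt (fun x : ℝ => √(1 - x ^ 2)) (gp x) x := by
      intro x hx
      have hx1 : |x| ≤ 3 / 5 := by
        have h1 := abs_sub_left_of_mem_uIcc hx
        simp only [sub_zero] at h1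
        exact h1.trans ht
      have hx2 := abs_le.1 hx1
      have hpos : 0 < 1 - x ^ 2 := by nlinarith
      have h2 : HasDerivAt (fun x : ℝ => 1 - x ^ 2) (-(2 * x)) x := by
        have h3 := (hasDerivAt_pow 2 x).const_sub 1
        simpa using h3
      have h4 := h2.sqrt hpos.ne'
      have h5 : gp x = -(2 * x) / (2 * √(1 - x ^ 2)) := by
        unfold gp
        rw [cl_eq hx1]
        have : √(1 - x ^ 2) ≠ 0 := (Real.sqrt_pos.2 hpos).ne'
        field_simp
        ring
      rw [h5]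
      exact h4
    have h6 := intervalIntegral.integral_eq_sub_of_hasDerivAt hd (gp_cont.intervalIntegrable _ _)
    simp only [h6]
    norm_num

end Pool.Agent.H99N
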