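import Pool.Agent.H99N.Defs

/-!
# Rotations of the plane
-/

open Set MeasureTheory Filter Topology Metric

namespace Pool.Agent.H99N

theorem rot_add (ω : ℝ) (x y : ℝ × ℝ) : rot ω (x + y) = rot ω x + rot ω y := by
  unfold rot
  ext
  · simp only [Prod.fst_add, Prod.snd_add]; ring
  · simp only [Prod.fst_add, Prod.snd_add]; ring

theorem rot_neg_rot (ω : ℝ) (x : ℝ × ℝ) : rot (-ω) (rot ω x) = x := by
  have h := Real.sin_sq_add_cos_sq ω
  unfold rot
  ext
  · simp only [Real.cos_neg, Real.sin_neg]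
    linear_combination x.1 * h
  · simp only [Real.cos_neg, Real.sin_neg]
    linear_combination x.2 * h

theorem rot_rot_neg (ω : ℝ) (x : ℝ × ℝ) : rot ω (rot (-ω) x) = x := by
  have h := rot_neg_rot (-ω) x
  rwa [neg_neg] at h

theorem eu_rot (ω : ℝ) (x : ℝ × ℝ) : eu (rot ω x) = eu x := by
  have h := Real.sin_sq_add_cos_sq ω
  unfold eu rot
  congr 1
  simp only
  linear_combination (x.1 ^ 2 + x.2 ^ 2) * h

theorem norm_rot_le (ω : ℝ) (x : ℝ × ℝ) : ‖rot ω x‖ ≤ 2 * ‖x‖ := by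
  have h1 : |x.1| ≤ ‖x‖ := by rw [← Real.norm_eq_abs]; exact norm_fst_le x
  have h2 : |x.2| ≤ ‖x‖ := by rw [← Real.norm_eq_abs]; exact norm_snd_le x
  have hc := Real.abs_cos_le_one ω
  have hs := Real.abs_sin_le_one ω
  have key : ∀ a b u v : ℝ, |a| ≤ 1 → |b| ≤ 1 → |u| ≤ ‖x‖ → |v| ≤ ‖x‖ →
      |a * u + b * v| ≤ 2 * ‖x‖ := by
    intro a b u v ha hb hu hv
    calc |a * u + b * v| ≤ |a * u| + |b * v| := abs_add_le _ _
      _ = |a| * |u| + |b| * |v| := by rw [abs_mul, abs_mul]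
      _ ≤ 1 * ‖x‖ + 1 * ‖x‖ := add_le_add
          (mul_le_mul ha hu (abs_nonneg _) zero_le_one)
          (mul_le_mul hb hv (abs_nonneg _) zero_le_one)
      _ = 2 * ‖x‖ := by ring
  rw [Prod.norm_def]
  refine max_le ?_ ?_
  · rw [Real.norm_eq_abs]
    have h3 := key (Real.cos ω) (-Real.sin ω) x.1 x.2 hc (by rwa [abs_neg]) h1 h2
    have h4 : (rot ω x).1 = Real.cos ω * x.1 + -Real.sin ω * x.2 := by
      unfold rot
      simp only
      ring
    rwa [h4]
  · rw [Real.norm_eq_abs]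
    exact key (Real.sin ω) (Real.cos ω) x.1 x.2 hs hc h1 h2

private theorem rot_smul (ω c : ℝ) (x : ℝ × ℝ) : rot ω (c • x) = c • rot ω x := by
  unfold rot
  ext
  · simp only [Prod.smul_fst, Prod.smul_snd, smul_eq_mul]; ring
  · simp only [Prod.smul_fst, Prod.smul_snd, smul_eq_mul]; ring

theorem near_rot {ε : ℝ} {N : ℝ × ℝ → ℝ} (h : Near ε N) (ω : ℝ) : Near ε fun x => N (rot ω x) where
  add x y := by
    rw [rot_add]
    exact h.add _ _
  smul c x := by
    rw [rot_smul]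
    exact h.smul _ _
  near x := by
    have h1 := h.near (rot ω x)
    rwa [eu_rot] at h1

theorem continuous_rot (ω : ℝ) : Continuous (rot ω) := by
  unfold rot
  fun_prop

theorem rot_mp (ω : ℝ) : MeasurePreserving (rot ω) (volume : Measure (ℝ × ℝ)) volume := by
  refine ⟨(continuous_rot ω).measurable, ?_⟩
  let f : ℝ × ℝ →ₗ[ℝ] ℝ × ℝ :=
    Matrix.toLin (Module.Basis.finTwoProd ℝ) (Module.Basis.finTwoProd ℝ)
      !![Real.cos ω, -Real.sin ω; Real.sin ω, Real.cos ω]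
  have hf : ⇑f = rot ω := by
    funext x
    have h1 := Matrix.toLin_finTwoProd_apply (Real.cos ω) (-Real.sin ω) (Real.sin ω)
      (Real.cos ω) x
    change f x = _
    rw [show f x = _ from h1]
    unfold rot
    ext
    · simp only; ring
    · simp only
  have hdet : LinearMap.det f = 1 := by
    change LinearMap.det (Matrix.toLin (Module.Basis.finTwoProd ℝ) (Module.Basis.finTwoProd ℝ)
      !![Real.cos ω, -Real.sin ω; Real.sin ω, Real.cos ω]) = 1
    rw [LinearMap.det_toLin, Matrix.det_fin_two_of]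
    have h := Real.sin_sq_add_cos_sq ω
    linear_combination h
  have h2 := Measure.map_linearMap_addHaar_eq_smul_addHaar (volume : Measure (ℝ × ℝ)) (f := f)
    (by rw [hdet]; exact one_ne_zero)
  rw [hdet, hf] at h2
  rw [h2]
  simp

/-- every unit vector is the image of `(0, 1)` under a rotation -/
theorem exists_rot {u : ℝ × ℝ} (hu : u.1 ^ 2 + u.2 ^ 2 = 1) : ∃ ω : ℝ, u = rot ω (0, 1) := by
  have h1 : ‖(⟨u.2, -u.1⟩ : ℂ)‖ = 1 := by
    rw [Complex.norm_def, Complex.normSq_mk]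
    rw [show u.2 * u.2 + -u.1 * -u.1 = 1 by linarith [hu]]
    exact Real.sqrt_one
  refine ⟨Complex.arg ⟨u.2, -u.1⟩, ?_⟩
  have h2 := Complex.norm_mul_cos_arg (⟨u.2, -u.1⟩ : ℂ)
  have h3 := Complex.norm_mul_sin_arg (⟨u.2, -u.1⟩ : ℂ)
  rw [h1, one_mul] at h2 h3
  unfold rot
  ext
  · simp only [mul_zero, mul_one, zero_sub]
    rw [h3]
    simp
  · simp only [mul_zero, mul_one, zero_add]
    rw [h2]

end Pool.Agent.H99N
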