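import Pool.Agent.H99N.Limit
import Pool.Agent.H99N.WeakCpt
import Pool.Agent.H99N.Profile
import Pool.Agent.H99N.Pert
import Pool.Agent.H99N.Rot

/-!
# Colourings for norms tending to the Euclidean norm have a fractional limit

Plan. Let `g, g'` be from `profile` and for `n : ℕ` let `ε n` be from `pert` with
`η = 1 / (n + 1)`. Choose `N n` with `Near (ε n) (N n)` and `A n` with `Loc (N n) n (A n)`. By
`weak_compact` applied four times (extract successively; `Weak` passes to subsequences) there are a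
strictly monotone `φ` and `f i` with `Weak (fun k => (A (φ k) i).indicator 1) (f i)` for all `i`.
Cover: `∑ i, f i ≥ 1` almost everywhere, since for every integrable `G ≥ 0`
`∫ (∑ i, f i) * G = lim ∫ (∑ i, indicator) * G ≥ ∫ G` (use for `G` the indicator of
`{x | ∀ i, f i x = 0} ∩ closedBall 0 R`).
Avoid: fix `i`, `ω`. Apply `limit` to `a k x = (A (φ k) i).indicator 1 (rot ω x)`,
`f = fun x => f i (rot ω x)` (weak convergence is preserved by `rot_mp`: substitute `x = rot (-ω) y`),
`r k` from `pert` for the norm `fun x => N (φ k) (rot ω x)` (`near_rot`), `e k = 1 / (φ k + 1)`. The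
avoidance hypothesis: if `x` and `y = x + (t, g t + r k t)` had both `rot ω x, rot ω y ∈ A (φ k) i`
then `N (rot ω y - rot ω x) = 1`, a contradiction once the ball of radius `φ k` contains both
(`norm_rot_le`, `g` is bounded on `[-1/2, 1/2]` by `1`). The conclusion for almost every `x` about
`f i (rot ω x) * f i (rot ω x + rot ω (t, g t)) = 0` transfers to the statement for almost every
`x' = rot ω x` by `rot_mp`; `g t = √(1 - t ^ 2)` for `|t| < 1/2`.
-/

open Set MeasureTheory Filter Topology Metric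

namespace Pool.Agent.H99N

private lemma frac_weak_sub {a : ℕ → ℝ × ℝ → ℝ} {f : ℝ × ℝ → ℝ} (h : Weak a f) {ψ : ℕ → ℕ}
    (hψ : StrictMono ψ) : Weak (fun k => a (ψ k)) f := by
  intro G hG
  exact (h G hG).comp hψ.tendsto_atTop

private lemma frac_extract {a : Fin 4 → ℕ → ℝ × ℝ → ℝ} (ha : ∀ i k, Measurable (a i k))
    (ha1 : ∀ i k x, 0 ≤ a i k x ∧ a i k x ≤ 1) :
    ∃ φ : ℕ → ℕ, StrictMono φ ∧ ∃ f : Fin 4 → ℝ × ℝ → ℝ, ∀ i, Measurable (f i) ∧
      (∀ x, 0 ≤ f i x ∧ f i x ≤ 1) ∧ Weak (fun k => a i (φ k)) (f i) := by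
  have key : ∀ s : Finset (Fin 4), ∃ φ : ℕ → ℕ, StrictMono φ ∧ ∃ f : Fin 4 → ℝ × ℝ → ℝ,
      ∀ i ∈ s, Measurable (f i) ∧ (∀ x, 0 ≤ f i x ∧ f i x ≤ 1) ∧
        Weak (fun k => a i (φ k)) (f i) := by
    intro s
    induction s using Finset.induction_on with
    | empty => exact ⟨id, strictMono_id, fun _ _ => 0, fun i hi => absurd hi (Finset.notMem_empty i)⟩
    | insert j s hj ih =>
      obtain ⟨φ, hφ, f, hf⟩ := ih
      obtain ⟨ψ, hψ, F, hF, hF1, hw⟩ := weak_compact (a := fun k => a j (φ k))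
        (fun k => ha j (φ k)) (fun k => ha1 j (φ k))
      refine ⟨fun k => φ (ψ k), hφ.comp hψ, Function.update f j F, fun i hi => ?_⟩
      by_cases hij : i = j
      · subst hij
        rw [Function.update_self]
        exact ⟨hF, hF1, hw⟩
      · rw [Function.update_of_ne hij]
        have hi' : i ∈ s := (Finset.mem_insert.1 hi).resolve_left hij
        exact ⟨(hf i hi').1, (hf i hi').2.1, frac_weak_sub (hf i hi').2.2 hψ⟩
  obtain ⟨φ, hφ, f, hf⟩ := key Finset.univ
  exact ⟨φ, hφ, f, fun i => hf i (Finset.mem_univ i)⟩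

/-- the rotation as a homeomorphism -/
private noncomputable def fracHomeo (ω : ℝ) : (ℝ × ℝ) ≃ₜ (ℝ × ℝ) where
  toFun := rot ω
  invFun := rot (-ω)
  left_inv := rot_neg_rot ω
  right_inv := rot_rot_neg ω
  continuous_toFun := continuous_rot ω
  continuous_invFun := continuous_rot (-ω)

private lemma frac_emb (ω : ℝ) : MeasurableEmbedding (rot ω) :=
  (fracHomeo ω).measurableEmbedding

private lemma frac_weak_rot {a : ℕ → ℝ × ℝ → ℝ} {f : ℝ × ℝ → ℝ} (h : Weak a f) (ω : ℝ) :
    Weak (fun k x => a k (rot ω x)) (fun x => f (rot ω x)) := by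
  intro G hG
  have hG' : Integrable (fun y => G (rot (-ω) y)) :=
    ((rot_mp (-ω)).integrable_comp_emb (frac_emb (-ω))).2 hG
  have key : ∀ F : ℝ × ℝ → ℝ, ∫ x, F (rot ω x) * G x = ∫ y, F y * G (rot (-ω) y) := by
    intro F
    have h1 := (rot_mp ω).integral_comp (frac_emb ω) (fun y => F y * G (rot (-ω) y))
    rw [← h1]
    refine integral_congr_ae (Eventually.of_forall fun x => ?_)
    show F (rot ω x) * G x = F (rot ω x) * G (rot (-ω) (rot ω x))
    rw [rot_neg_rot]
  have h2 := h _ hG'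
  show Tendsto (fun k => ∫ x, a k (rot ω x) * G x) atTop (𝓝 (∫ x, f (rot ω x) * G x))
  rw [key]
  refine h2.congr fun k => ?_
  rw [key (a k)]

private lemma frac_cover {a : Fin 4 → ℕ → ℝ × ℝ → ℝ} {f : Fin 4 → ℝ × ℝ → ℝ}
    (ham : ∀ i k, Measurable (a i k)) (ha1 : ∀ i k x, 0 ≤ a i k x ∧ a i k x ≤ 1)
    (hf : ∀ i, Measurable (f i)) (hf1 : ∀ i x, 0 ≤ f i x)
    (hw : ∀ i, Weak (a i) (f i)) (hc : ∀ k, ∀ᵐ x : ℝ × ℝ, 1 ≤ ∑ i, a i k x) :
    ∀ᵐ x : ℝ × ℝ, ∃ i, 0 < f i x := by
  have hZm : MeasurableSet {x : ℝ × ℝ | ∀ i, f i x = 0} := by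
    rw [setOf_forall]
    exact MeasurableSet.iInter fun i => (hf i) (measurableSet_singleton (0 : ℝ))
  have key : ∀ n : ℕ, volume ({x : ℝ × ℝ | ∀ i, f i x = 0} ∩ closedBall (0 : ℝ × ℝ) n) = 0 := by
    intro n
    set Z : Set (ℝ × ℝ) := {x : ℝ × ℝ | ∀ i, f i x = 0} ∩ closedBall (0 : ℝ × ℝ) n with hZ
    have hZ1 : MeasurableSet Z := hZm.inter measurableSet_closedBall
    have hZv : volume Z ≠ ⊤ :=
      (lt_of_le_of_lt (measure_mono inter_subset_right) measure_closedBall_lt_top).ne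
    have hG : Integrable (Z.indicator (fun _ => (1 : ℝ))) := by
      rw [integrable_indicator_iff hZ1]
      exact integrableOn_const hZv
    have hi : ∀ i k, Integrable fun x => a i k x * Z.indicator (fun _ => (1 : ℝ)) x := by
      intro i k
      apply Integrable.bdd_mul (c := 1) hG (ham i k).aestronglyMeasurable
      refine Eventually.of_forall fun x => ?_
      rw [Real.norm_eq_abs, abs_of_nonneg (ha1 i k x).1]
      exact (ha1 i k x).2
    have h1 : ∀ k, ∫ x, Z.indicator (fun _ => (1 : ℝ)) x ≤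
        ∑ i, ∫ x, a i k x * Z.indicator (fun _ => (1 : ℝ)) x := by
      intro k
      rw [← integral_finset_sum _ (fun i _ => hi i k)]
      apply integral_mono_ae hG (integrable_finset_sum _ (fun i _ => hi i k))
      filter_upwards [hc k] with x hx
      rw [← Finset.sum_mul]
      have h0 : 0 ≤ Z.indicator (fun _ => (1 : ℝ)) x := indicator_nonneg (fun _ _ => zero_le_one) x
      nlinarith
    have h2 : Tendsto (fun k => ∑ i, ∫ x, a i k x * Z.indicator (fun _ => (1 : ℝ)) x) atTop
        (𝓝 (∑ i, ∫ x, f i x * Z.indicator (fun _ => (1 : ℝ)) x)) :=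
      tendsto_finset_sum _ fun i _ => hw i _ hG
    have h3 : ∑ i, ∫ x, f i x * Z.indicator (fun _ => (1 : ℝ)) x = 0 := by
      apply Finset.sum_eq_zero
      intro i _
      rw [← integral_zero (ℝ × ℝ) ℝ]
      refine integral_congr_ae (Eventually.of_forall fun x => ?_)
      show f i x * Z.indicator (fun _ => (1 : ℝ)) x = 0
      by_cases hx : x ∈ Z
      · rw [hx.1 i, zero_mul]
      · rw [indicator_of_notMem hx, mul_zero]
    rw [h3] at h2
    have h4 : ∫ x, Z.indicator (fun _ => (1 : ℝ)) x ≤ 0 := ge_of_tendsto' h2 h1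
    rw [integral_indicator hZ1, setIntegral_const, smul_eq_mul, mul_one] at h4
    have h5 : (volume Z).toReal = 0 := le_antisymm h4 ENNReal.toReal_nonneg
    exact ((ENNReal.toReal_eq_zero_iff _).1 h5).resolve_right hZv
  have h6 : volume {x : ℝ × ℝ | ∀ i, f i x = 0} = 0 := by
    have h7 : {x : ℝ × ℝ | ∀ i, f i x = 0} ⊆
        ⋃ n : ℕ, ({x : ℝ × ℝ | ∀ i, f i x = 0} ∩ closedBall (0 : ℝ × ℝ) n) := by
      intro x hx
      obtain ⟨n, hn⟩ := exists_nat_ge ‖x‖
      exact mem_iUnion.2 ⟨n, hx, by rwa [mem_closedBall, dist_zero_right]⟩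
    exact measure_mono_null h7 (measure_iUnion_null key)
  rw [ae_iff]
  refine measure_mono_null ?_ h6
  intro x hx i
  by_contra h8
  exact hx ⟨i, lt_of_le_of_ne (hf1 i x) (Ne.symm h8)⟩

theorem frac_of (hbad : ∀ ε : ℝ, 0 < ε → ∀ R : ℝ, ∃ N : ℝ × ℝ → ℝ, Near ε N ∧
    ∃ A : Fin 4 → Set (ℝ × ℝ), Loc N R A) : ∃ f, Frac f := by
  obtain ⟨g, g', hP, hg⟩ := profile
  have hpert : ∀ n : ℕ, ∃ ε : ℝ, 0 < ε ∧ ∀ N : ℝ × ℝ → ℝ, Near ε N →
      ∃ r : ℝ → ℝ, Small (1 / ((n : ℝ) + 1)) r ∧ ∀ t, |t| ≤ 1 / 2 → N (t, g t + r t) = 1 :=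
    fun n => pert hP hg (by positivity)
  choose ε hε hr using hpert
  choose N hN A hA using fun n : ℕ => hbad (ε n) (hε n) n
  have hind : ∀ (i : Fin 4) (k : ℕ), Measurable ((A k i).indicator (fun _ : ℝ × ℝ => (1 : ℝ))) :=
    fun i k => measurable_const.indicator ((hA k).meas i)
  have hind1 : ∀ (i : Fin 4) (k : ℕ) (x : ℝ × ℝ), 0 ≤ (A k i).indicator (fun _ => (1 : ℝ)) x ∧
      (A k i).indicator (fun _ => (1 : ℝ)) x ≤ 1 := by
    intro i k x
    by_cases hx : x ∈ A k i
    · rw [indicator_of_mem hx]; exact ⟨zero_le_one, le_rfl⟩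
    · rw [indicator_of_notMem hx]; exact ⟨le_rfl, zero_le_one⟩
  obtain ⟨φ, hφ, f, hf⟩ := frac_extract
    (a := fun i k => (A k i).indicator (fun _ : ℝ × ℝ => (1 : ℝ))) hind hind1
  refine ⟨f, ⟨fun i => (hf i).1, fun i x => ((hf i).2.1 x).1, ?_, ?_⟩⟩
  · -- cover
    apply frac_cover (a := fun i k => (A (φ k) i).indicator (fun _ : ℝ × ℝ => (1 : ℝ)))
      (fun i k => hind i (φ k)) (fun i k => hind1 i (φ k)) (fun i => (hf i).1)
      (fun i x => ((hf i).2.1 x).1) (fun i => (hf i).2.2)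
    intro k
    filter_upwards [(hA (φ k)).cover] with x hx
    obtain ⟨i, hi⟩ := hx
    have h1 : (A (φ k) i).indicator (fun _ : ℝ × ℝ => (1 : ℝ)) x ≤
        ∑ j, (A (φ k) j).indicator (fun _ : ℝ × ℝ => (1 : ℝ)) x :=
      Finset.single_le_sum (f := fun j => (A (φ k) j).indicator (fun _ : ℝ × ℝ => (1 : ℝ)) x)
        (fun j _ => (hind1 j (φ k) x).1) (Finset.mem_univ i)
    rw [indicator_of_mem hi] at h1
    exact h1
  · -- avoid
    intro i ω
    have hr' := fun k => hr (φ k) (fun x => N (φ k) (rot ω x)) (near_rot (hN (φ k)) ω)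
    choose r hrs hr1 using hr'
    have he : Tendsto (fun k : ℕ => 1 / (((φ k : ℕ) : ℝ) + 1)) atTop (𝓝 0) :=
      (tendsto_one_div_add_atTop_nhds_zero_nat (𝕜 := ℝ)).comp hφ.tendsto_atTop
    have hav : ∀ R : ℝ, ∀ᶠ k in atTop, ∀ x ∈ closedBall (0 : ℝ × ℝ) R, ∀ t : ℝ, |t| < 1 / 2 →
        (A (φ k) i).indicator (fun _ => (1 : ℝ)) (rot ω x) *
          (A (φ k) i).indicator (fun _ => (1 : ℝ)) (rot ω (x + (t, g t + r k t))) = 0 := by
      intro R
      have h1 : Tendsto (fun k => ((φ k : ℕ) : ℝ)) atTop atTop :=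
        tendsto_natCast_atTop_atTop.comp hφ.tendsto_atTop
      filter_upwards [h1.eventually_ge_atTop (2 * (R + 2))] with k hk
      intro x hx t ht
      by_contra hne
      have h2 : rot ω x ∈ A (φ k) i := by
        by_contra h3
        rw [indicator_of_notMem h3, zero_mul] at hne
        exact hne rfl
      have h3 : rot ω (x + (t, g t + r k t)) ∈ A (φ k) i := by
        by_contra h3
        rw [indicator_of_notMem h3, mul_zero] at hne
        exact hne rfl
      have hxR : ‖x‖ ≤ R := by rwa [mem_closedBall, dist_zero_right] at hx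
      have hR0 : 0 ≤ R := le_trans (norm_nonneg _) hxR
      have hv : ‖((t, g t + r k t) : ℝ × ℝ)‖ ≤ 2 := by
        rw [Prod.norm_def]
        apply max_le
        · show |t| ≤ 2
          linarith
        · show |g t + r k t| ≤ 2
          have h4 : |r k t| ≤ 1 := by
            refine le_trans ((hrs k).bd t) ?_
            rw [div_le_one (by positivity)]
            have : (0 : ℝ) ≤ ((φ k : ℕ) : ℝ) := Nat.cast_nonneg _
            linarith
          have h5 : |g t| ≤ 1 := by
            rw [hg t (by linarith), abs_of_nonneg (Real.sqrt_nonneg _)]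
            rw [Real.sqrt_le_one]
            nlinarith [sq_nonneg t]
          have := abs_add_le (g t) (r k t)
          linarith
      have h4 : rot ω (x + (t, g t + r k t)) - rot ω x = rot ω (t, g t + r k t) := by
        rw [rot_add, add_sub_cancel_left]
      apply (hA (φ k)).avoid i _ h3 _ h2 ?_ ?_
      · rw [h4]
        exact hr1 k t ht.le
      · rw [mem_closedBall, dist_zero_right]
        refine le_trans (norm_rot_le ω _) ?_
        have := norm_add_le x (t, g t + r k t)
        linarith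
      · rw [mem_closedBall, dist_zero_right]
        refine le_trans (norm_rot_le ω _) ?_
        linarith
    have hlim := limit hP hrs he
      (a := fun k x => (A (φ k) i).indicator (fun _ => (1 : ℝ)) (rot ω x))
      (f := fun x => f i (rot ω x))
      (fun k => (hind i (φ k)).comp (continuous_rot ω).measurable)
      (fun k x => hind1 i (φ k) (rot ω x))
      ((hf i).1.comp (continuous_rot ω).measurable)
      (fun x => (hf i).2.1 (rot ω x))
      (frac_weak_rot (hf i).2.2 ω) hav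
    have h1 := (rot_mp (-ω)).quasiMeasurePreserving.ae hlim
    filter_upwards [h1] with y hy
    filter_upwards [hy] with t ht htt
    have h2 := ht htt
    rw [rot_rot_neg, rot_add, rot_rot_neg, hg t (by linarith)] at h2
    exact h2

end Pool.Agent.H99N
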