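import Pool.Agent.H99N.Defs

/-!
# The unit circle of a norm close to the Euclidean norm is the graph of a concave function

Plan. Let `G t = sSup {y | N (t, y) ≤ 1}`. `N` is continuous (it is a seminorm on `ℝ × ℝ` with
`N x ≤ (1 + ε) * eu x ≤ 4 * ‖x‖`, so `|N x - N y| ≤ N (x - y)`), nonneg, and
`(1 - ε) * eu x ≤ N x ≤ (1 + ε) * eu x`. For `|t| ≤ 3/5` and `ε` small the set is closed, contains
`√(1 / (1 + ε) ^ 2 - t ^ 2)` and is bounded above by `√(1 / (1 - ε) ^ 2 - t ^ 2)`. So the supremum is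
attained, `N (t, G t) = 1` (otherwise `N (t, y) ≤ 1` for some larger `y`) and `G t` is between the
two roots, hence close to `√(1 - t ^ 2)` uniformly in `|t| ≤ 3/5` (`|√a - √b| ≤ √|a - b|`, or better).
Concavity: if `N (t, y) ≤ 1` and `N (s, z) ≤ 1` then `N` of a convex combination is at most `1`.
-/

open Set MeasureTheory Filter Topology Metric

namespace Pool.Agent.H99N

theorem graph {η : ℝ} (hη : 0 < η) : ∃ ε : ℝ, 0 < ε ∧ ∀ N : ℝ × ℝ → ℝ, Near ε N →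
    ∃ G : ℝ → ℝ, ConcaveOn ℝ (Icc (-(3 / 5)) (3 / 5)) G ∧
      (∀ t, |t| ≤ 3 / 5 → |G t - √(1 - t ^ 2)| ≤ η) ∧ ∀ t, |t| ≤ 3 / 5 → N (t, G t) = 1 := by
  have hε0 : 0 < min (1 / 10) (η / 10) := lt_min (by norm_num) (by linarith)
  have hε1 : min (1 / 10) (η / 10) ≤ 1 / 10 := min_le_left _ _
  have hε2 : min (1 / 10) (η / 10) ≤ η / 10 := min_le_right _ _
  refine ⟨min (1 / 10) (η / 10), hε0, fun N hN => ?_⟩
  generalize min (1 / 10) (η / 10) = ε at hε0 hε1 hε2 hN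
  have heu0 : ∀ x, 0 ≤ eu x := fun x => Real.sqrt_nonneg _
  have heu : ∀ t y : ℝ, eu (t, y) ^ 2 = t ^ 2 + y ^ 2 := fun t y => Real.sq_sqrt (by positivity)
  have hup : ∀ x, N x ≤ (1 + ε) * eu x := by
    intro x
    have := (abs_le.1 (hN.near x)).2
    linarith
  have hlow : ∀ x, (1 - ε) * eu x ≤ N x := by
    intro x
    have := (abs_le.1 (hN.near x)).1
    linarith
  have hN0 : ∀ x, 0 ≤ N x := by
    intro x
    have h1 := hlow x
    have h2 : 0 ≤ (1 - ε) * eu x := mul_nonneg (by linarith) (heu0 x)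
    linarith
  -- upper and lower radii
  obtain ⟨B, hB⟩ : ∃ B : ℝ, B = 1 / (1 - ε) ^ 2 := ⟨_, rfl⟩
  obtain ⟨A, hA⟩ : ∃ A : ℝ, A = 1 / (1 + ε) ^ 2 := ⟨_, rfl⟩
  have h1e : 0 < 1 - ε := by linarith
  have hB1 : (1 - ε) ^ 2 * B = 1 := by
    rw [hB]; field_simp
  have hA1 : (1 + ε) ^ 2 * A = 1 := by
    rw [hA]; field_simp
  have hBle : B ≤ 1 + 5 / 2 * ε := by
    rw [hB, div_le_iff₀ (by positivity)]
    nlinarith [mul_nonneg hε0.le hε0.le, mul_nonneg hε0.le (mul_nonneg hε0.le hε0.le)]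
  have hAge : 1 - 2 * ε ≤ A := by
    rw [hA, le_div_iff₀ (by positivity)]
    nlinarith [mul_nonneg hε0.le hε0.le, mul_nonneg hε0.le (mul_nonneg hε0.le hε0.le)]
  have hA0 : 0 < A := by linarith
  have hAle : A ≤ 1 := by
    rw [hA, div_le_one (by positivity)]
    nlinarith
  have hBge : 1 ≤ B := by
    rw [hB, one_le_div (by positivity)]
    nlinarith
  have hbd : ∀ t y : ℝ, N (t, y) ≤ 1 → y ^ 2 ≤ B - t ^ 2 := by
    intro t y h
    have h1 : (1 - ε) * eu (t, y) ≤ 1 := (hlow _).trans h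
    have h2 : ((1 - ε) * eu (t, y)) ^ 2 ≤ 1 := by
      have := mul_nonneg h1e.le (heu0 (t, y))
      nlinarith
    rw [mul_pow, heu] at h2
    have h3 : t ^ 2 + y ^ 2 ≤ B := by
      rw [hB, le_div_iff₀ (by positivity)]
      linarith
    linarith
  have hbdd : ∀ t : ℝ, BddAbove {y : ℝ | N (t, y) ≤ 1} := by
    intro t
    refine ⟨√(B - t ^ 2), fun y hy => ?_⟩
    exact Real.le_sqrt_of_sq_le (hbd t y hy)
  have hsq : ∀ t : ℝ, |t| ≤ 3 / 5 → t ^ 2 ≤ 9 / 25 := by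
    intro t ht
    have h1 := abs_le.1 ht
    nlinarith
  have hmem : ∀ t : ℝ, |t| ≤ 3 / 5 → N (t, √(A - t ^ 2)) ≤ 1 := by
    intro t ht
    have h1 := hsq t ht
    have h2 : 0 ≤ A - t ^ 2 := by linarith
    have h3 := heu t (√(A - t ^ 2))
    rw [Real.sq_sqrt h2] at h3
    have h4 : ((1 + ε) * eu (t, √(A - t ^ 2))) ^ 2 = 1 := by
      rw [mul_pow, h3]
      linarith
    have h5 : (1 + ε) * eu (t, √(A - t ^ 2)) ≤ 1 := by
      have := heu0 (t, √(A - t ^ 2))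
      nlinarith
    exact (hup _).trans h5
  have hne : ∀ t : ℝ, |t| ≤ 3 / 5 → {y : ℝ | N (t, y) ≤ 1}.Nonempty :=
    fun t ht => ⟨_, hmem t ht⟩
  have hstep : ∀ t y d : ℝ, N (t, y + d) ≤ N (t, y) + |d| * N (0, 1) := by
    intro t y d
    have h1 := hN.add (t, y) (d • ((0 : ℝ), (1 : ℝ)))
    have h2 := hN.smul d ((0 : ℝ), (1 : ℝ))
    have h3 : (t, y) + d • ((0 : ℝ), (1 : ℝ)) = (t, y + d) := by
      ext <;> simp
    rw [h3, h2] at h1
    exact h1
  have hcont : ∀ t : ℝ, Continuous fun y : ℝ => N (t, y) := by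
    intro t
    have h1 : LipschitzWith (Real.toNNReal (N (0, 1))) fun y : ℝ => N (t, y) := by
      refine LipschitzWith.of_dist_le_mul fun y z => ?_
      rw [Real.coe_toNNReal _ (hN0 _), Real.dist_eq, Real.dist_eq]
      have h2 := hstep t z (y - z)
      have h3 := hstep t y (z - y)
      rw [add_sub_cancel] at h2 h3
      rw [abs_sub_comm z y] at h3
      rw [abs_le]
      constructor <;> linarith
    exact h1.continuous
  have hclosed : ∀ t : ℝ, IsClosed {y : ℝ | N (t, y) ≤ 1} := fun t =>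
    isClosed_le (hcont t) continuous_const
  have hsup : ∀ t : ℝ, |t| ≤ 3 / 5 → N (t, sSup {y : ℝ | N (t, y) ≤ 1}) ≤ 1 := fun t ht =>
    (hclosed t).csSup_mem (hne t ht) (hbdd t)
  refine ⟨fun t => sSup {y : ℝ | N (t, y) ≤ 1}, ⟨convex_Icc _ _, ?_⟩, ?_, ?_⟩
  · intro s hs t ht a b ha hb hab
    have hs' : |s| ≤ 3 / 5 := abs_le.2 hs
    have ht' : |t| ≤ 3 / 5 := abs_le.2 ht
    have h1 := hsup s hs'
    have h2 := hsup t ht'
    refine le_csSup (hbdd _) ?_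
    have h3 := hN.add (a • (s, sSup {y : ℝ | N (s, y) ≤ 1})) (b • (t, sSup {y : ℝ | N (t, y) ≤ 1}))
    rw [hN.smul, hN.smul, abs_of_nonneg ha, abs_of_nonneg hb] at h3
    have h4 : a * N (s, sSup {y : ℝ | N (s, y) ≤ 1}) + b * N (t, sSup {y : ℝ | N (t, y) ≤ 1})
        ≤ 1 := by
      have h5 := mul_le_mul_of_nonneg_left h1 ha
      have h6 := mul_le_mul_of_nonneg_left h2 hb
      linarith
    exact h3.trans h4
  · intro t ht
    have h1 := hsq t ht
    have hlo : √(A - t ^ 2) ≤ sSup {y : ℝ | N (t, y) ≤ 1} := le_csSup (hbdd t) (hmem t ht)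
    have hhi : sSup {y : ℝ | N (t, y) ≤ 1} ≤ √(B - t ^ 2) :=
      csSup_le (hne t ht) fun y hy => Real.le_sqrt_of_sq_le (hbd t y hy)
    have h2 : √(A - t ^ 2) ≤ √(1 - t ^ 2) := Real.sqrt_le_sqrt (by linarith)
    have h3 : √(1 - t ^ 2) ≤ √(B - t ^ 2) := Real.sqrt_le_sqrt (by linarith)
    have h4 : (4 / 5 : ℝ) ≤ √(1 - t ^ 2) := Real.le_sqrt_of_sq_le (by linarith)
    have h5 : √(A - t ^ 2) ^ 2 = A - t ^ 2 := Real.sq_sqrt (by linarith)
    have h6 : √(B - t ^ 2) ^ 2 = B - t ^ 2 := Real.sq_sqrt (by linarith)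
    have h7 : 0 ≤ √(A - t ^ 2) := Real.sqrt_nonneg _
    have h8 : √(B - t ^ 2) - √(A - t ^ 2) ≤ η := by
      generalize √(A - t ^ 2) = u at *
      generalize √(B - t ^ 2) = v at *
      have h9 : (v - u) * (v + u) = B - A := by linarith [h5, h6, sq_sub_sq v u]
      have h10 : (v - u) * (4 / 5) ≤ (v - u) * (v + u) :=
        mul_le_mul_of_nonneg_left (by linarith) (by linarith)
      linarith
    rw [abs_le]
    constructor <;> linarith
  · intro t ht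
    refine le_antisymm (hsup t ht) (not_lt.1 fun hlt => ?_)
    obtain ⟨M, hM⟩ : ∃ M, M = N (0, 1) := ⟨_, rfl⟩
    have hM0 : 0 ≤ M := by rw [hM]; exact hN0 _
    obtain ⟨δ, hδ⟩ : ∃ δ, δ = (1 - N (t, sSup {y : ℝ | N (t, y) ≤ 1})) / (M + 1) := ⟨_, rfl⟩
    have hlt' : N (t, sSup {y : ℝ | N (t, y) ≤ 1}) < 1 := hlt
    have hδ0 : 0 < δ := by
      rw [hδ]
      exact div_pos (by linarith) (by linarith)
    have hδ1 : δ * (M + 1) = 1 - N (t, sSup {y : ℝ | N (t, y) ≤ 1}) := by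
      rw [hδ]; field_simp
    have h1 := hstep t (sSup {y : ℝ | N (t, y) ≤ 1}) δ
    rw [abs_of_pos hδ0, ← hM] at h1
    have h2 : N (t, sSup {y : ℝ | N (t, y) ≤ 1} + δ) ≤ 1 := by nlinarith
    have h3 : sSup {y : ℝ | N (t, y) ≤ 1} + δ ≤ sSup {y : ℝ | N (t, y) ≤ 1} :=
      le_csSup (hbdd t) h2
    linarith

end Pool.Agent.H99N
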