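import Pool.Agent.H99N.Defs

/-!
# Arc averages of a fixed function depend continuously on the arc

Plan. Let `R'` be such that all points occurring lie in `Q = closedBall 0 R'` (`g` is continuous,
only `|t| ≤ 1/2` matters, and `e k ≤ 1` eventually) and put `φ = Q.indicator f`, an integrable
function. By Fubini the integral is at most `∫ t, chi t * ∫ x, |φ (x + (t, g t + r k t)) -
φ (x + (t, g t))|` and the inner integral equals `∫ x, |φ (x + (0, r k t)) - φ x|` by translation.
Continuity of translation in `L¹`: for every `η > 0` there is `δ > 0` with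
`∫ x, |φ (x + v) - φ x| ≤ η` for all `‖v‖ ≤ δ` (approximate `φ` in `L¹` by a continuous function
with compact support, `Integrable.exists_hasCompactSupport_integral_sub_le`, or use the continuity
of the action `Lp.instContinuousSMulDomMulAct`).
-/

open Set MeasureTheory Filter Topology Metric

namespace Pool.Agent.H99N

private theorem transl_chi_nonneg (t : ℝ) : 0 ≤ chi t := le_max_left _ _

private theorem transl_chi_le (t : ℝ) : chi t ≤ (Icc (-1 / 2 : ℝ) (1 / 2)).indicator 1 t := by
  unfold chi
  by_cases h : t ∈ Icc (-1 / 2 : ℝ) (1 / 2)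
  · rw [indicator_of_mem h]
    simp only [Pi.one_apply]
    have := abs_nonneg t
    exact max_le zero_le_one (by linarith)
  · rw [indicator_of_notMem h]
    refine max_le le_rfl ?_
    by_contra hc
    apply h
    have h1 : |t| ≤ 1 / 2 := by linarith
    rw [abs_le] at h1
    constructor <;> linarith [h1.1, h1.2]

private theorem transl_chi_zero {t : ℝ} (h : ¬ |t| ≤ 1 / 2) : chi t = 0 := by
  unfold chi
  exact max_eq_left (by linarith)

private theorem transl_chi_cont : Continuous chi := by
  unfold chi
  fun_prop

private theorem transl_chi_lint : ∫⁻ t, ‖chi t‖ₑ ≤ 1 := by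
  calc ∫⁻ t, ‖chi t‖ₑ ≤ ∫⁻ t, (Icc (-1 / 2 : ℝ) (1 / 2)).indicator 1 t := by
        refine lintegral_mono fun t => ?_
        rw [Real.enorm_eq_ofReal (transl_chi_nonneg t)]
        have := transl_chi_le t
        by_cases h : t ∈ Icc (-1 / 2 : ℝ) (1 / 2)
        · rw [indicator_of_mem h] at this ⊢
          simpa using this
        · rw [indicator_of_notMem h] at this ⊢
          simpa using this
    _ = 1 := by
        rw [lintegral_indicator_one measurableSet_Icc]
        simp only [Real.volume_Icc]
        norm_num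

private theorem transl_cont {φ : ℝ × ℝ → ℝ} (hφ : Integrable φ) {η : ENNReal} (hη : η ≠ 0) :
    ∃ δ : ℝ, 0 < δ ∧ ∀ v : ℝ × ℝ, ‖v‖ ≤ δ → ∫⁻ x, ‖φ (x + v) - φ x‖ₑ ≤ η := by
  obtain ⟨g, hgc, hga, hgcont, hgi⟩ :=
    hφ.exists_hasCompactSupport_lintegral_sub_le (ε := η / 3) (by simpa using hη)
  have hK : IsCompact (cthickening 1 (tsupport g)) := hgc.isCompact.cthickening
  have hKf : volume (cthickening 1 (tsupport g)) < ⊤ := hK.measure_lt_top
  have huc : UniformContinuous g := hgc.uniformContinuous_of_continuous hgcont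
  -- choose ρ
  obtain ⟨ρ, hρ, hρK⟩ : ∃ ρ : ℝ, 0 < ρ ∧
      ENNReal.ofReal ρ * volume (cthickening 1 (tsupport g)) ≤ η / 3 := by
    by_cases hηt : η = ⊤
    · refine ⟨1, one_pos, ?_⟩
      rw [hηt, ENNReal.top_div_of_ne_top (by norm_num)]
      exact le_top
    · set M : ENNReal := volume (cthickening 1 (tsupport g)) + 1 with hM
      have hM1 : M ≠ ⊤ := by simp [hM, hKf.ne]
      have hM0 : M ≠ 0 := by simp [hM]
      refine ⟨(η / 3 / M).toReal, ?_, ?_⟩
      · refine ENNReal.toReal_pos ?_ ?_
        · exact (ENNReal.div_pos (ENNReal.div_pos hη (by norm_num)).ne' hM1).ne'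
        · exact ENNReal.div_ne_top (ENNReal.div_ne_top hηt (by norm_num)) hM0
      · rw [ENNReal.ofReal_toReal
          (ENNReal.div_ne_top (ENNReal.div_ne_top hηt (by norm_num)) hM0)]
        calc η / 3 / M * volume (cthickening 1 (tsupport g)) ≤ η / 3 / M * M := by
              gcongr
              simp [hM]
          _ = η / 3 := ENNReal.div_mul_cancel hM0 hM1
  obtain ⟨δ, hδ, hδg⟩ := Metric.uniformContinuous_iff.1 huc ρ hρ
  refine ⟨min (δ / 2) 1, by positivity, fun v hv => ?_⟩
  have hv1 : ‖v‖ ≤ 1 := hv.trans (min_le_right _ _)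
  have hv2 : ‖v‖ < δ := lt_of_le_of_lt (hv.trans (min_le_left _ _)) (by linarith)
  have hmid : ∫⁻ x, ‖g (x + v) - g x‖ₑ ≤ η / 3 := by
    calc ∫⁻ x, ‖g (x + v) - g x‖ₑ
        ≤ ∫⁻ x, (cthickening 1 (tsupport g)).indicator (fun _ => ENNReal.ofReal ρ) x := by
          refine lintegral_mono fun x => ?_
          by_cases hx : x ∈ cthickening 1 (tsupport g)
          · rw [indicator_of_mem hx]
            have := hδg (a := x + v) (b := x) (by simpa [dist_eq_norm] using hv2)
            rw [dist_eq_norm] at this
            rw [← ofReal_norm]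
            exact ENNReal.ofReal_le_ofReal this.le
          · rw [indicator_of_notMem hx]
            have h1 : g x = 0 := by
              apply image_eq_zero_of_notMem_tsupport
              intro h
              exact hx (self_subset_cthickening _ h)
            have h2 : g (x + v) = 0 := by
              apply image_eq_zero_of_notMem_tsupport
              intro h
              apply hx
              refine mem_cthickening_of_dist_le x (x + v) 1 _ h ?_
              simpa [dist_eq_norm] using hv1
            simp [h1, h2]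
      _ = ENNReal.ofReal ρ * volume (cthickening 1 (tsupport g)) := by
          rw [lintegral_indicator isClosed_cthickening.measurableSet, setLIntegral_const]
      _ ≤ η / 3 := hρK
  have hshift : ∫⁻ x, ‖φ (x + v) - g (x + v)‖ₑ ≤ η / 3 := by
    rw [lintegral_add_right_eq_self (fun x => ‖φ x - g x‖ₑ) v]
    exact hga
  have hgm : Continuous fun x => ‖g (x + v) - g x‖ₑ := by fun_prop
  have hφm : AEMeasurable (fun x => ‖φ x - g x‖ₑ) :=
    ((hφ.aestronglyMeasurable.sub hgi.aestronglyMeasurable).enorm)
  calc ∫⁻ x, ‖φ (x + v) - φ x‖ₑ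
      ≤ ∫⁻ x, (‖φ (x + v) - g (x + v)‖ₑ + (‖g (x + v) - g x‖ₑ + ‖φ x - g x‖ₑ)) := by
        refine lintegral_mono fun x => ?_
        have : φ (x + v) - φ x = (φ (x + v) - g (x + v)) + ((g (x + v) - g x) - (φ x - g x)) := by
          ring
        rw [this]
        refine (enorm_add_le _ _).trans ?_
        gcongr
        exact enorm_sub_le
    _ = (∫⁻ x, ‖φ (x + v) - g (x + v)‖ₑ) + ∫⁻ x, (‖g (x + v) - g x‖ₑ + ‖φ x - g x‖ₑ) := by
        rw [lintegral_add_right']
        exact hgm.measurable.aemeasurable.add hφm
    _ = (∫⁻ x, ‖φ (x + v) - g (x + v)‖ₑ) +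
          ((∫⁻ x, ‖g (x + v) - g x‖ₑ) + ∫⁻ x, ‖φ x - g x‖ₑ) := by
        rw [lintegral_add_left hgm.measurable]
    _ ≤ η / 3 + (η / 3 + η / 3) := by gcongr
    _ = η := by rw [← add_assoc]; exact ENNReal.add_thirds η

theorem transl {g : ℝ → ℝ} (hg : Continuous g) {r : ℕ → ℝ → ℝ} {e : ℕ → ℝ}
    (hr : ∀ k, Small (e k) (r k)) (he : Tendsto e atTop (𝓝 0)) {f : ℝ × ℝ → ℝ}
    (hf : Measurable f) (hf1 : ∀ x, |f x| ≤ 1) (R : ℝ) :
    Tendsto (fun k => ∫ x in closedBall (0 : ℝ × ℝ) R,
      |(∫ t, chi t * f (x + (t, g t + r k t))) - ∫ t, chi t * f (x + (t, g t))|)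
      atTop (𝓝 0) := by
  -- a bound for g on [-1/2, 1/2]
  obtain ⟨G, hG⟩ : ∃ G : ℝ, ∀ t, |t| ≤ 1 / 2 → |g t| ≤ G := by
    obtain ⟨G, hG⟩ := (isCompact_Icc (a := (-1 / 2 : ℝ)) (b := 1 / 2)).exists_bound_of_continuousOn
      hg.continuousOn
    refine ⟨G, fun t ht => ?_⟩
    rw [abs_le] at ht
    exact hG t ⟨by linarith [ht.1], ht.2⟩
  have hrc : ∀ k, Continuous (r k) := by
    intro k
    have h0 : 0 ≤ e k := (abs_nonneg _).trans ((hr k).bd 0)
    have : LipschitzWith (Real.toNNReal (e k)) (r k) := by
      refine LipschitzWith.of_dist_le_mul fun s t => ?_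
      rw [Real.dist_eq, Real.dist_eq, Real.coe_toNNReal _ h0]
      exact (hr k).lip s t
    exact this.continuous
  set Q : Set (ℝ × ℝ) := closedBall (0 : ℝ × ℝ) (R + G + 2) with hQ
  set φ : ℝ × ℝ → ℝ := Q.indicator f with hφdef
  have hφi : Integrable φ := by
    rw [hφdef, integrable_indicator_iff measurableSet_closedBall]
    refine Measure.integrableOn_of_bounded (M := 1) measure_closedBall_lt_top.ne
      hf.aestronglyMeasurable ?_
    exact Eventually.of_forall fun x => by simpa using hf1 x
  have hφf : ∀ x ∈ Q, φ x = f x := fun x hx => by rw [hφdef, indicator_of_mem hx]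
  rw [Metric.tendsto_atTop]
  intro η hη
  obtain ⟨δ, hδ, hδφ⟩ := transl_cont hφi (η := ENNReal.ofReal (η / 2)) (by simpa using hη)
  obtain ⟨K, hK⟩ := (Metric.tendsto_atTop.1 he) (min δ 1) (by positivity)
  refine ⟨K, fun k hk => ?_⟩
  have hek := hK k hk
  rw [Real.dist_eq, sub_zero] at hek
  have hek1 : e k ≤ 1 := (le_abs_self _).trans (hek.le.trans (min_le_right _ _))
  have hekδ : e k ≤ δ := (le_abs_self _).trans (hek.le.trans (min_le_left _ _))
  have hmeas1 : Measurable fun p : (ℝ × ℝ) × ℝ => f (p.1 + (p.2, g p.2 + r k p.2)) := by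
    refine hf.comp ?_
    have := hrc k
    fun_prop
  have hmeas2 : Measurable fun p : (ℝ × ℝ) × ℝ => f (p.1 + (p.2, g p.2)) := by
    refine hf.comp ?_
    fun_prop
  have hchim : Measurable chi := transl_chi_cont.measurable
  have hchii : Integrable chi := by
    refine ⟨transl_chi_cont.aestronglyMeasurable, ?_⟩
    exact lt_of_le_of_lt transl_chi_lint ENNReal.one_lt_top
  have hint1 : ∀ x, Integrable fun t => chi t * f (x + (t, g t + r k t)) := by
    intro x
    refine hchii.mul_bdd (c := 1) ?_ ?_
    · exact (hmeas1.comp (measurable_prodMk_left (x := x))).aestronglyMeasurable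
    · exact Eventually.of_forall fun t => by simpa using hf1 _
  have hint2 : ∀ x, Integrable fun t => chi t * f (x + (t, g t)) := by
    intro x
    refine hchii.mul_bdd (c := 1) ?_ ?_
    · exact (hmeas2.comp (measurable_prodMk_left (x := x))).aestronglyMeasurable
    · exact Eventually.of_forall fun t => by simpa using hf1 _
  have key : ∫⁻ x in closedBall (0 : ℝ × ℝ) R,
      ‖(∫ t, chi t * f (x + (t, g t + r k t))) - ∫ t, chi t * f (x + (t, g t))‖ₑ
        ≤ ENNReal.ofReal (η / 2) := by
    calc ∫⁻ x in closedBall (0 : ℝ × ℝ) R,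
          ‖(∫ t, chi t * f (x + (t, g t + r k t))) - ∫ t, chi t * f (x + (t, g t))‖ₑ
        ≤ ∫⁻ x in closedBall (0 : ℝ × ℝ) R,
          ∫⁻ t, ‖chi t‖ₑ * ‖f (x + (t, g t + r k t)) - f (x + (t, g t))‖ₑ := by
          refine lintegral_mono fun x => ?_
          rw [← integral_sub (hint1 x) (hint2 x)]
          refine (enorm_integral_le_lintegral_enorm _).trans ?_
          refine lintegral_mono fun t => ?_
          rw [← mul_sub, enorm_mul]
      _ = ∫⁻ t, ∫⁻ x in closedBall (0 : ℝ × ℝ) R,
          ‖chi t‖ₑ * ‖f (x + (t, g t + r k t)) - f (x + (t, g t))‖ₑ := by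
          rw [lintegral_lintegral_swap]
          refine Measurable.aemeasurable ?_
          have h1 : Measurable fun p : (ℝ × ℝ) × ℝ => ‖chi p.2‖ₑ :=
            (hchim.comp measurable_snd).enorm
          exact h1.mul (hmeas1.sub hmeas2).enorm
      _ ≤ ∫⁻ t, ‖chi t‖ₑ * ENNReal.ofReal (η / 2) := by
          refine lintegral_mono fun t => ?_
          by_cases ht : |t| ≤ 1 / 2
          · rw [lintegral_const_mul' _ _ (by simp)]
            refine mul_le_mul_right ?_ _
            have hrt : |r k t| ≤ 1 := ((hr k).bd t).trans hek1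
            calc ∫⁻ x in closedBall (0 : ℝ × ℝ) R,
                  ‖f (x + (t, g t + r k t)) - f (x + (t, g t))‖ₑ
                ≤ ∫⁻ x in closedBall (0 : ℝ × ℝ) R,
                  ‖φ (x + (t, g t + r k t)) - φ (x + (t, g t))‖ₑ := by
                  refine setLIntegral_mono' measurableSet_closedBall fun x hx => ?_
                  rw [hφf, hφf]
                  · rw [hQ, mem_closedBall_zero_iff]
                    rw [mem_closedBall_zero_iff] at hx
                    have h2 : ‖((t, g t) : ℝ × ℝ)‖ ≤ G + 1 := by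
                      rw [Prod.norm_def]
                      refine max_le ?_ ?_
                      · simp only [Real.norm_eq_abs]
                        linarith [(abs_nonneg (g t)).trans (hG t ht)]
                      · simp only [Real.norm_eq_abs]
                        linarith [hG t ht]
                    linarith [norm_add_le x ((t, g t) : ℝ × ℝ)]
                  · rw [hQ, mem_closedBall_zero_iff]
                    rw [mem_closedBall_zero_iff] at hx
                    have h2 : ‖((t, g t + r k t) : ℝ × ℝ)‖ ≤ G + 1 := by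
                      rw [Prod.norm_def]
                      refine max_le ?_ ?_
                      · simp only [Real.norm_eq_abs]
                        linarith [(abs_nonneg (g t)).trans (hG t ht)]
                      · simp only [Real.norm_eq_abs]
                        linarith [hG t ht, abs_add_le (g t) (r k t)]
                    linarith [norm_add_le x ((t, g t + r k t) : ℝ × ℝ)]
              _ ≤ ∫⁻ x, ‖φ (x + (t, g t + r k t)) - φ (x + (t, g t))‖ₑ :=
                  setLIntegral_le_lintegral _ _
              _ = ∫⁻ x, ‖φ (x + (0, r k t)) - φ x‖ₑ := by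
                  rw [← lintegral_add_right_eq_self (fun x => ‖φ (x + (0, r k t)) - φ x‖ₑ)
                    ((t, g t) : ℝ × ℝ)]
                  refine lintegral_congr fun x => ?_
                  have : x + ((t, g t) : ℝ × ℝ) + (0, r k t) = x + (t, g t + r k t) := by
                    ext <;> simp [add_assoc]
                  rw [this]
              _ ≤ ENNReal.ofReal (η / 2) := by
                  refine hδφ _ ?_
                  rw [Prod.norm_def]
                  simp only [norm_zero, Real.norm_eq_abs]
                  exact max_le hδ.le (((hr k).bd t).trans hekδ)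
          · rw [transl_chi_zero ht]
            simp
      _ = (∫⁻ t, ‖chi t‖ₑ) * ENNReal.ofReal (η / 2) := by
          rw [lintegral_mul_const _ hchim.enorm]
      _ ≤ 1 * ENNReal.ofReal (η / 2) := by
          gcongr
          exact transl_chi_lint
      _ = ENNReal.ofReal (η / 2) := one_mul _
  rw [Real.dist_eq, sub_zero, abs_of_nonneg (integral_nonneg fun x => abs_nonneg _)]
  have hfin : ∫ x in closedBall (0 : ℝ × ℝ) R,
      |(∫ t, chi t * f (x + (t, g t + r k t))) - ∫ t, chi t * f (x + (t, g t))| ≤ η / 2 := by
    rw [integral_eq_lintegral_of_nonneg_ae (Eventually.of_forall fun x => abs_nonneg _)]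
    · refine ENNReal.toReal_le_of_le_ofReal (by positivity) ?_
      refine le_trans (le_of_eq ?_) key
      refine lintegral_congr fun x => ?_
      rw [← Real.norm_eq_abs, ofReal_norm]
    · refine AEStronglyMeasurable.norm (AEStronglyMeasurable.sub (f := fun x : ℝ × ℝ =>
        ∫ t, chi t * f (x + (t, g t + r k t))) (g := fun x : ℝ × ℝ =>
        ∫ t, chi t * f (x + (t, g t))) ?_ ?_)
      · have h1 : StronglyMeasurable fun p : (ℝ × ℝ) × ℝ =>
            chi p.2 * f (p.1 + (p.2, g p.2 + r k p.2)) :=
          ((hchim.comp measurable_snd).mul hmeas1).stronglyMeasurable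
        exact h1.integral_prod_right.aestronglyMeasurable
      · have h1 : StronglyMeasurable fun p : (ℝ × ℝ) × ℝ =>
            chi p.2 * f (p.1 + (p.2, g p.2)) :=
          ((hchim.comp measurable_snd).mul hmeas2).stronglyMeasurable
        exact h1.integral_prod_right.aestronglyMeasurable
  linarith

end Pool.Agent.H99N
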