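import Pool.Agent.H99N.Strong
import Pool.Agent.H99N.Transl

/-!
# Avoidance passes to the weak limit

Plan. Fix `R`, `B = closedBall 0 R`. With `T k h x = ∫ t, chi t * h (x + (t, g t + r k t))` and
`T h x = ∫ t, chi t * h (x + (t, g t))` one has `∫ x in B, a k x * T k (a k) x = 0` eventually and
`∫_B a k * T k (a k) - ∫_B f * T f = ∫_B a k * T k (a k - f) + ∫_B a k * (T k f - T f) +
∫_B (a k - f) * T f`. The first term tends to `0` by `strong` (with `b k = a k - f`, weakly null),
the second by `transl`, the third by weak convergence tested against `B.indicator (T f)`. Hence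
`∫ x in B, f x * T f x = 0` for every `R`; the integrand is nonnegative, so `f x * T f x = 0` for
almost every `x`, and then for such `x`, `chi t * (f x * f (x + (t, g t))) = 0` for almost every `t`,
with `chi t > 0` for `|t| < 1/2`.
-/

open Set MeasureTheory Filter Topology Metric

namespace Pool.Agent.H99N

private theorem lim_chi_cont : Continuous chi := by
  unfold chi
  fun_prop

private theorem lim_chi_nonneg (t : ℝ) : 0 ≤ chi t := by
  unfold chi
  exact le_max_left _ _

private theorem lim_chi_zero {t : ℝ} (ht : ¬ |t| < 1 / 2) : chi t = 0 := by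
  unfold chi
  apply max_eq_left
  linarith

private theorem lim_chi_pos {t : ℝ} (ht : |t| < 1 / 2) : 0 < chi t := by
  unfold chi
  apply lt_max_of_lt_right
  linarith

private theorem lim_chi_int : Integrable chi := by
  apply lim_chi_cont.integrable_of_hasCompactSupport
  apply HasCompactSupport.intro (K := Set.Icc (-(1 / 2)) (1 / 2)) isCompact_Icc
  intro t ht
  apply lim_chi_zero
  intro h
  apply ht
  rw [abs_lt] at h
  exact ⟨h.1.le, h.2.le⟩

/-- arc average -/
private noncomputable def lT (γ : ℝ → ℝ) (h : ℝ × ℝ → ℝ) (x : ℝ × ℝ) : ℝ :=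
  ∫ t, chi t * h (x + (t, γ t))

private theorem lim_int {γ : ℝ → ℝ} (hγ : Measurable γ) {h : ℝ × ℝ → ℝ} (hh : Measurable h)
    {C : ℝ} (hC : ∀ x, |h x| ≤ C) (x : ℝ × ℝ) :
    Integrable fun t => chi t * h (x + (t, γ t)) := by
  apply lim_chi_int.mul_bdd (c := C)
  · apply Measurable.aestronglyMeasurable
    exact hh.comp (measurable_const.add (measurable_id.prodMk hγ))
  · filter_upwards with t
    exact hC _

private theorem lim_meas {γ : ℝ → ℝ} (hγ : Measurable γ) {h : ℝ × ℝ → ℝ} (hh : Measurable h) :
    Measurable (lT γ h) := by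
  unfold lT
  apply StronglyMeasurable.measurable
  apply StronglyMeasurable.integral_prod_right (f := fun x : ℝ × ℝ => fun t : ℝ =>
    chi t * h (x + (t, γ t)))
  apply Measurable.stronglyMeasurable
  apply Measurable.mul
  · exact lim_chi_cont.measurable.comp measurable_snd
  · apply hh.comp
    exact measurable_fst.add (measurable_snd.prodMk (hγ.comp measurable_snd))

private theorem lim_bd {γ : ℝ → ℝ} {h : ℝ × ℝ → ℝ}
    {C : ℝ} (hC : ∀ x, |h x| ≤ C) (x : ℝ × ℝ) : |lT γ h x| ≤ (∫ t, chi t) * C := by
  unfold lT
  rw [← integral_mul_const, ← Real.norm_eq_abs]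
  apply norm_integral_le_of_norm_le (lim_chi_int.mul_const C)
  filter_upwards with t
  rw [norm_mul, Real.norm_eq_abs, Real.norm_eq_abs, abs_of_nonneg (lim_chi_nonneg t)]
  exact mul_le_mul_of_nonneg_left (hC _) (lim_chi_nonneg t)

private theorem lim_sub {γ : ℝ → ℝ} (hγ : Measurable γ) {h h' : ℝ × ℝ → ℝ} (hh : Measurable h)
    (hh' : Measurable h') {C C' : ℝ} (hC : ∀ x, |h x| ≤ C) (hC' : ∀ x, |h' x| ≤ C')
    (x : ℝ × ℝ) : lT γ (fun y => h y - h' y) x = lT γ h x - lT γ h' x := by
  unfold lT
  rw [← integral_sub (lim_int hγ hh hC x) (lim_int hγ hh' hC' x)]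
  congr 1
  funext t
  ring

/-- a bounded measurable function is integrable on a ball -/
private theorem lim_ball {F : ℝ × ℝ → ℝ} (hF : Measurable F) {C : ℝ} (hC : ∀ x, |F x| ≤ C)
    (R : ℝ) : IntegrableOn F (closedBall (0 : ℝ × ℝ) R) := by
  apply Measure.integrableOn_of_bounded (M := C)
  · exact (measure_closedBall_lt_top (x := (0 : ℝ × ℝ)) (r := R)).ne
  · exact hF.aestronglyMeasurable
  · filter_upwards with x
    exact hC x

theorem limit {g g' : ℝ → ℝ} (h : Prof g g') {r : ℕ → ℝ → ℝ} {e : ℕ → ℝ}
    (hr : ∀ k, Small (e k) (r k)) (he : Tendsto e atTop (𝓝 0)) {a : ℕ → ℝ × ℝ → ℝ}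
    {f : ℝ × ℝ → ℝ} (ha : ∀ k, Measurable (a k)) (ha1 : ∀ k x, 0 ≤ a k x ∧ a k x ≤ 1)
    (hf : Measurable f) (hf1 : ∀ x, 0 ≤ f x ∧ f x ≤ 1) (hw : Weak a f)
    (hav : ∀ R : ℝ, ∀ᶠ k in atTop, ∀ x ∈ closedBall (0 : ℝ × ℝ) R, ∀ t : ℝ, |t| < 1 / 2 →
      a k x * a k (x + (t, g t + r k t)) = 0) :
    ∀ᵐ x : ℝ × ℝ, ∀ᵐ t : ℝ, |t| < 1 / 2 → f x * f (x + (t, g t)) = 0 := by
  have hg : Continuous g := continuous_iff_continuousAt.mpr fun t => (h.der t).continuousAt
  have hrc : ∀ k, Continuous (r k) := by
    intro k
    have he0 : 0 ≤ e k := (abs_nonneg _).trans ((hr k).bd 0)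
    have hl : LipschitzWith (e k).toNNReal (r k) := by
      apply LipschitzWith.of_dist_le_mul
      intro s t
      rw [Real.dist_eq, Real.dist_eq, Real.coe_toNNReal _ he0]
      exact (hr k).lip s t
    exact hl.continuous
  have hγ : ∀ k, Measurable fun t => g t + r k t := fun k => (hg.add (hrc k)).measurable
  have hf' : ∀ x, |f x| ≤ 1 := fun x => by
    rw [abs_of_nonneg (hf1 x).1]; exact (hf1 x).2
  have ha' : ∀ k x, |a k x| ≤ 1 := fun k x => by
    rw [abs_of_nonneg (ha1 k x).1]; exact (ha1 k x).2
  have hI : 0 ≤ ∫ t, chi t := integral_nonneg lim_chi_nonneg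
  have hTf := lim_meas hg.measurable hf
  -- the integral over every ball vanishes
  have key : ∀ R : ℝ, ∫ x in closedBall (0 : ℝ × ℝ) R, f x * lT g f x = 0 := by
    intro R
    set B : Set (ℝ × ℝ) := closedBall (0 : ℝ × ℝ) R with hB
    have hBm : MeasurableSet B := isClosed_closedBall.measurableSet
    -- the three error terms
    have hb1 : ∀ k x, |a k x - f x| ≤ 1 := by
      intro k x
      rw [abs_le]
      constructor <;> linarith [(ha1 k x).1, (ha1 k x).2, (hf1 x).1, (hf1 x).2]
    have hbm : ∀ k, Measurable fun x => a k x - f x := fun k => (ha k).sub hf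
    have hw0 : Weak (fun k x => a k x - f x) 0 := by
      intro G hG
      have h1 := hw G hG
      have h2 : ∀ k, ∫ x, (a k x - f x) * G x = (∫ x, a k x * G x) - ∫ x, f x * G x := by
        intro k
        rw [← integral_sub]
        · congr 1
          funext x
          ring
        · exact hG.bdd_mul (c := 1) (ha k).aestronglyMeasurable
            (by filter_upwards with x; exact ha' k x)
        · exact hG.bdd_mul (c := 1) hf.aestronglyMeasurable
            (by filter_upwards with x; exact hf' x)
      simp only [h2, Pi.zero_apply, zero_mul, integral_zero]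
      have h3 := h1.sub_const (∫ x, f x * G x)
      rwa [sub_self] at h3
    have t1 := strong h hr he (b := fun k x => a k x - f x) hbm hb1 hw0 R
    have t2 := transl hg hr he hf hf' R
    have t3 : Tendsto (fun k => (∫ x, a k x * B.indicator (lT g f) x)
        - ∫ x, f x * B.indicator (lT g f) x) atTop (𝓝 0) := by
      have hG : Integrable (B.indicator (lT g f)) := by
        rw [integrable_indicator_iff hBm]
        exact lim_ball hTf (fun x => lim_bd hf' x) R
      have h3 := (hw _ hG).sub_const (∫ x, f x * B.indicator (lT g f) x)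
      rwa [sub_self] at h3
    have hbound : ∀ᶠ k in atTop, |∫ x in B, f x * lT g f x| ≤
        (∫ x in B, |∫ t, chi t * (a k (x + (t, g t + r k t)) - f (x + (t, g t + r k t)))|)
        + (∫ x in B, |(∫ t, chi t * f (x + (t, g t + r k t))) - ∫ t, chi t * f (x + (t, g t))|)
        + |(∫ x, a k x * B.indicator (lT g f) x) - ∫ x, f x * B.indicator (lT g f) x| := by
      filter_upwards [hav R] with k hk
      have hTk := lim_meas (hγ k) (ha k)
      have hTkf := lim_meas (hγ k) hf
      have hTkd := lim_meas (hγ k) (hbm k)
      have e0 : ∀ x ∈ B, a k x * lT (fun t => g t + r k t) (a k) x = 0 := by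
        intro x hx
        unfold lT
        rw [← integral_const_mul]
        have : ∀ t, a k x * (chi t * a k (x + (t, g t + r k t))) = 0 := by
          intro t
          by_cases ht : |t| < 1 / 2
          · have := hk x hx t ht
            calc a k x * (chi t * a k (x + (t, g t + r k t)))
                = chi t * (a k x * a k (x + (t, g t + r k t))) := by ring
              _ = 0 := by rw [this, mul_zero]
          · rw [lim_chi_zero ht]
            ring
        simp only [this, integral_zero]
      -- integrability
      have i1 : IntegrableOn (fun x => a k x *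
          lT (fun t => g t + r k t) (fun y => a k y - f y) x) B := by
        apply lim_ball ((ha k).mul hTkd) (C := 1 * ((∫ t, chi t) * 1))
        intro x
        simp only [Pi.mul_apply]
        rw [abs_mul]
        exact mul_le_mul (ha' k x) (lim_bd (hb1 k) x) (abs_nonneg _) (by norm_num)
      have i2 : IntegrableOn (fun x => a k x *
          (lT (fun t => g t + r k t) f x - lT g f x)) B := by
        apply lim_ball ((ha k).mul (hTkf.sub hTf))
          (C := 1 * ((∫ t, chi t) * 1 + (∫ t, chi t) * 1))
        intro x
        simp only [Pi.mul_apply]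
        rw [abs_mul]
        refine mul_le_mul (ha' k x) ?_ (abs_nonneg _) (by norm_num)
        exact (abs_sub _ _).trans (add_le_add (lim_bd hf' x) (lim_bd hf' x))
      have i3 : IntegrableOn (fun x => (a k x - f x) * lT g f x) B := by
        apply lim_ball ((hbm k).mul hTf) (C := 1 * ((∫ t, chi t) * 1))
        intro x
        simp only [Pi.mul_apply]
        rw [abs_mul]
        exact mul_le_mul (hb1 k x) (lim_bd hf' x) (abs_nonneg _) (by norm_num)
      have i3a : IntegrableOn (fun x => a k x * lT g f x) B := by
        apply lim_ball ((ha k).mul hTf) (C := 1 * ((∫ t, chi t) * 1))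
        intro x
        simp only [Pi.mul_apply]
        rw [abs_mul]
        exact mul_le_mul (ha' k x) (lim_bd hf' x) (abs_nonneg _) (by norm_num)
      have i3b : IntegrableOn (fun x => f x * lT g f x) B := by
        apply lim_ball (hf.mul hTf) (C := 1 * ((∫ t, chi t) * 1))
        intro x
        simp only [Pi.mul_apply]
        rw [abs_mul]
        exact mul_le_mul (hf' x) (lim_bd hf' x) (abs_nonneg _) (by norm_num)
      have e1 : ∫ x in B, f x * lT g f x
          = -((∫ x in B, a k x * lT (fun t => g t + r k t) (fun y => a k y - f y) x)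
            + (∫ x in B, a k x * (lT (fun t => g t + r k t) f x - lT g f x))
            + ∫ x in B, (a k x - f x) * lT g f x) := by
        have i12 : IntegrableOn (fun x => a k x *
            lT (fun t => g t + r k t) (fun y => a k y - f y) x
            + a k x * (lT (fun t => g t + r k t) f x - lT g f x)) B := i1.add i2
        rw [← integral_add i1 i2, ← integral_add i12 i3, ← integral_neg]
        apply setIntegral_congr_fun hBm
        intro x hx
        have h0 := e0 x hx
        have h1 := lim_sub (hγ k) (ha k) hf (ha' k) hf' x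
        show f x * lT g f x = -(a k x * lT (fun t => g t + r k t) (fun y => a k y - f y) x
          + a k x * (lT (fun t => g t + r k t) f x - lT g f x) + (a k x - f x) * lT g f x)
        rw [h1]
        linear_combination h0
      have b1 : |∫ x in B, a k x * lT (fun t => g t + r k t) (fun y => a k y - f y) x|
          ≤ ∫ x in B, |∫ t, chi t * (a k (x + (t, g t + r k t)) - f (x + (t, g t + r k t)))| := by
        rw [← Real.norm_eq_abs]
        apply norm_integral_le_of_norm_le
        · have : IntegrableOn (fun x => |lT (fun t => g t + r k t) (fun y => a k y - f y) x|) B := by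
            apply Integrable.abs
            exact lim_ball hTkd (fun x => lim_bd (hb1 k) x) R
          exact this
        · filter_upwards with x
          rw [norm_mul, Real.norm_eq_abs, Real.norm_eq_abs]
          calc |a k x| * |lT (fun t => g t + r k t) (fun y => a k y - f y) x|
              ≤ 1 * |lT (fun t => g t + r k t) (fun y => a k y - f y) x| :=
                mul_le_mul_of_nonneg_right (ha' k x) (abs_nonneg _)
            _ = |lT (fun t => g t + r k t) (fun y => a k y - f y) x| := one_mul _
            _ ≤ _ := le_refl _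
      have b2 : |∫ x in B, a k x * (lT (fun t => g t + r k t) f x - lT g f x)|
          ≤ ∫ x in B, |(∫ t, chi t * f (x + (t, g t + r k t)))
            - ∫ t, chi t * f (x + (t, g t))| := by
        rw [← Real.norm_eq_abs]
        apply norm_integral_le_of_norm_le
        · have : IntegrableOn (fun x => |lT (fun t => g t + r k t) f x - lT g f x|) B := by
            apply Integrable.abs
            apply lim_ball (hTkf.sub hTf) (C := (∫ t, chi t) * 1 + (∫ t, chi t) * 1)
            intro x
            exact (abs_sub _ _).trans (add_le_add (lim_bd hf' x) (lim_bd hf' x))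
          exact this
        · filter_upwards with x
          rw [norm_mul, Real.norm_eq_abs, Real.norm_eq_abs]
          calc |a k x| * |lT (fun t => g t + r k t) f x - lT g f x|
              ≤ 1 * |lT (fun t => g t + r k t) f x - lT g f x| :=
                mul_le_mul_of_nonneg_right (ha' k x) (abs_nonneg _)
            _ = |lT (fun t => g t + r k t) f x - lT g f x| := one_mul _
            _ ≤ _ := le_refl _
      have b3 : ∫ x in B, (a k x - f x) * lT g f x
          = (∫ x, a k x * B.indicator (lT g f) x) - ∫ x, f x * B.indicator (lT g f) x := by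
        have c1 : ∫ x, a k x * B.indicator (lT g f) x = ∫ x in B, a k x * lT g f x := by
          rw [← integral_indicator hBm]
          congr 1
          funext x
          by_cases hx : x ∈ B
          · rw [indicator_of_mem hx, indicator_of_mem hx]
          · rw [indicator_of_notMem hx, indicator_of_notMem hx, mul_zero]
        have c2 : ∫ x, f x * B.indicator (lT g f) x = ∫ x in B, f x * lT g f x := by
          rw [← integral_indicator hBm]
          congr 1
          funext x
          by_cases hx : x ∈ B
          · rw [indicator_of_mem hx, indicator_of_mem hx]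
          · rw [indicator_of_notMem hx, indicator_of_notMem hx, mul_zero]
        rw [c1, c2, ← integral_sub i3a i3b]
        congr 1
        funext x
        ring
      rw [e1, abs_neg, b3]
      refine (abs_add_le _ _).trans (add_le_add ((abs_add_le _ _).trans (add_le_add b1 b2)) ?_)
      exact le_refl _
    have hlim : Tendsto (fun k =>
        (∫ x in B, |∫ t, chi t * (a k (x + (t, g t + r k t)) - f (x + (t, g t + r k t)))|)
        + (∫ x in B, |(∫ t, chi t * f (x + (t, g t + r k t))) - ∫ t, chi t * f (x + (t, g t))|)
        + |(∫ x, a k x * B.indicator (lT g f) x) - ∫ x, f x * B.indicator (lT g f) x|)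
        atTop (𝓝 0) := by
      have h3 := t3.abs
      rw [abs_zero] at h3
      have := (t1.add t2).add h3
      simpa using this
    have hle : |∫ x in B, f x * lT g f x| ≤ 0 := ge_of_tendsto hlim hbound
    exact abs_eq_zero.mp (le_antisymm hle (abs_nonneg _))
  -- nonnegativity
  have hnn : ∀ x, 0 ≤ f x * lT g f x := by
    intro x
    refine mul_nonneg (hf1 x).1 ?_
    unfold lT
    exact integral_nonneg fun t => mul_nonneg (lim_chi_nonneg t) (hf1 _).1
  have hae : ∀ᵐ x : ℝ × ℝ, f x * lT g f x = 0 := by
    have h1 : ∀ n : ℕ, ∀ᵐ x : ℝ × ℝ, x ∈ closedBall (0 : ℝ × ℝ) n → f x * lT g f x = 0 := by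
      intro n
      have i3b : IntegrableOn (fun x => f x * lT g f x) (closedBall (0 : ℝ × ℝ) n) := by
        apply lim_ball (hf.mul hTf) (C := 1 * ((∫ t, chi t) * 1))
        intro x
        simp only [Pi.mul_apply]
        rw [abs_mul]
        exact mul_le_mul (hf' x) (lim_bd hf' x) (abs_nonneg _) (by norm_num)
      have h2 := (setIntegral_eq_zero_iff_of_nonneg_ae
        (by filter_upwards with x; exact hnn x) i3b).mp (key n)
      have h3 := (ae_restrict_iff' isClosed_closedBall.measurableSet).mp h2
      filter_upwards [h3] with x hx hxB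
      exact hx hxB
    have h2 := ae_all_iff.mpr h1
    filter_upwards [h2] with x hx
    obtain ⟨n, hn⟩ := exists_nat_ge ‖x‖
    apply hx n
    rw [mem_closedBall_zero_iff]
    exact hn
  filter_upwards [hae] with x hx
  have e1 : ∫ t, f x * (chi t * f (x + (t, g t))) = 0 := by
    rw [integral_const_mul]
    exact hx
  have hint := (lim_int hg.measurable hf hf' x).const_mul (f x)
  have e2 := (integral_eq_zero_iff_of_nonneg (fun t =>
    mul_nonneg (hf1 x).1 (mul_nonneg (lim_chi_nonneg t) (hf1 _).1)) hint).mp e1
  filter_upwards [e2] with t ht htt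
  have ht' : f x * (chi t * f (x + (t, g t))) = 0 := ht
  have hp := lim_chi_pos htt
  have : chi t * (f x * f (x + (t, g t))) = 0 := by linear_combination ht'
  exact (mul_eq_zero.mp this).resolve_left hp.ne'

end Pool.Agent.H99N
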