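import Pool.Agent.H99N.Defs

/-!
# The `l_p` norms for `p` close to `2` are close to the Euclidean norm

Plan. Minkowski's inequality for `p ≥ 1` (`Real.Lp_add_le` for sums over `Fin 2`, or the norm of
`WithLp`/`PiLp`), homogeneity of `rpow`, and for the closeness the compactness of the Euclidean unit
circle: `(p, x) ↦ (|x.1| ^ p + |x.2| ^ p) ^ (1 / p)` is continuous at all points `(2, x)` with
`eu x = 1`, value `1` (`IsCompact.eventually_forall_of_forall_eventually`), then scale.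
-/

open Set MeasureTheory Filter Topology Metric

namespace Pool.Agent.H99N

private theorem nearlp_add {p : ℝ} (hp : 1 ≤ p) (x y : ℝ × ℝ) :
    (|(x + y).1| ^ p + |(x + y).2| ^ p) ^ (1 / p) ≤
      (|x.1| ^ p + |x.2| ^ p) ^ (1 / p) + (|y.1| ^ p + |y.2| ^ p) ^ (1 / p) := by
  have := Real.Lp_add_le (Finset.univ : Finset (Fin 2)) ![x.1, x.2] ![y.1, y.2] hp
  simpa [Fin.sum_univ_two] using this

private theorem nearlp_smul {p : ℝ} (hp : 1 ≤ p) (c : ℝ) (x : ℝ × ℝ) :
    (|(c • x).1| ^ p + |(c • x).2| ^ p) ^ (1 / p) =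
      |c| * (|x.1| ^ p + |x.2| ^ p) ^ (1 / p) := by
  have h1 : |(c • x).1| ^ p + |(c • x).2| ^ p = |c| ^ p * (|x.1| ^ p + |x.2| ^ p) := by
    simp only [Prod.smul_fst, Prod.smul_snd, smul_eq_mul, abs_mul]
    rw [Real.mul_rpow (abs_nonneg _) (abs_nonneg _), Real.mul_rpow (abs_nonneg _) (abs_nonneg _)]
    ring
  rw [h1, Real.mul_rpow (by positivity) (by positivity), ← Real.rpow_mul (abs_nonneg _),
    mul_one_div_cancel (by linarith), Real.rpow_one]

private theorem nearlp_eu_smul (c : ℝ) (x : ℝ × ℝ) : eu (c • x) = |c| * eu x := by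
  unfold eu
  simp only [Prod.smul_fst, Prod.smul_snd, smul_eq_mul]
  rw [show (c * x.1) ^ 2 + (c * x.2) ^ 2 = c ^ 2 * (x.1 ^ 2 + x.2 ^ 2) by ring,
    Real.sqrt_mul (sq_nonneg c), Real.sqrt_sq_eq_abs]

private theorem nearlp_eu_cont : Continuous eu := by
  unfold eu
  fun_prop

private theorem nearlp_compact : IsCompact {x : ℝ × ℝ | eu x = 1} := by
  refine IsCompact.of_isClosed_subset (isCompact_closedBall (0 : ℝ × ℝ) 1)
    (isClosed_eq nearlp_eu_cont continuous_const) ?_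
  intro x hx
  rw [mem_ofPred_eq, eu, Real.sqrt_eq_one] at hx
  rw [mem_closedBall_zero_iff, Prod.norm_def, Real.norm_eq_abs, Real.norm_eq_abs]
  apply max_le
  · rw [← abs_one, ← sq_le_sq]
    nlinarith [sq_nonneg x.2]
  · rw [← abs_one, ← sq_le_sq]
    nlinarith [sq_nonneg x.1]

theorem near_lp {ε : ℝ} (hε : 0 < ε) : ∃ δ : ℝ, 0 < δ ∧ δ < 1 ∧ ∀ p : ℝ, |p - 2| < δ →
    Near ε (fun x : ℝ × ℝ => (|x.1| ^ p + |x.2| ^ p) ^ (1 / p)) := by
  have h1 : ∀ᶠ p in 𝓝 (2 : ℝ), ∀ x ∈ {x : ℝ × ℝ | eu x = 1},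
      |(|x.1| ^ p + |x.2| ^ p) ^ (1 / p) - 1| < ε := by
    refine nearlp_compact.eventually_forall_of_forall_eventually ?_
    intro x hx
    rw [mem_ofPred_eq, eu, Real.sqrt_eq_one] at hx
    have hval : |x.1| ^ (2 : ℝ) + |x.2| ^ (2 : ℝ) = 1 := by
      rw [Real.rpow_two, Real.rpow_two, sq_abs, sq_abs]
      exact hx
    have hc : ContinuousAt (fun z : ℝ × (ℝ × ℝ) =>
        (|z.2.1| ^ z.1 + |z.2.2| ^ z.1) ^ (1 / z.1)) (2, x) := by
      have c1 : ContinuousAt (fun z : ℝ × (ℝ × ℝ) => |z.2.1| ^ z.1) (2, x) :=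
        ContinuousAt.rpow (by fun_prop) (by fun_prop) (Or.inr (by norm_num))
      have c2 : ContinuousAt (fun z : ℝ × (ℝ × ℝ) => |z.2.2| ^ z.1) (2, x) :=
        ContinuousAt.rpow (by fun_prop) (by fun_prop) (Or.inr (by norm_num))
      have c3 : ContinuousAt (fun z : ℝ × (ℝ × ℝ) => 1 / z.1) (2, x) :=
        ContinuousAt.div continuousAt_const (by fun_prop) (by norm_num)
      refine ContinuousAt.rpow (c1.add c2) c3 (Or.inl ?_)
      simp only
      rw [hval]
      exact one_ne_zero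
    have h2 := Metric.continuousAt_iff'.1 hc ε hε
    filter_upwards [h2] with z hz
    rw [Real.dist_eq] at hz
    simp only [hval, Real.one_rpow] at hz
    exact hz
  obtain ⟨r, hr, hr'⟩ := Metric.eventually_nhds_iff.1 h1
  refine ⟨min r (1 / 2), lt_min hr (by norm_num), (min_le_right _ _).trans_lt (by norm_num), ?_⟩
  intro p hp
  have hpr : dist p 2 < r := by
    rw [Real.dist_eq]
    exact hp.trans_le (min_le_left _ _)
  have hp1 : 1 ≤ p := by
    have h2 := (abs_lt.1 (hp.trans_le (min_le_right _ _))).1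
    linarith
  have hK := hr' hpr
  refine ⟨nearlp_add hp1, nearlp_smul hp1, fun x => ?_⟩
  have hux : 0 ≤ eu x := Real.sqrt_nonneg _
  rcases eq_or_lt_of_le hux with h0 | h0
  · -- `x = 0`
    have h2 : x.1 ^ 2 + x.2 ^ 2 = 0 := by
      have := h0.symm
      rw [eu, Real.sqrt_eq_zero (by positivity)] at this
      exact this
    have h3 : x.1 = 0 := by nlinarith [sq_nonneg x.1, sq_nonneg x.2]
    have h4 : x.2 = 0 := by nlinarith [sq_nonneg x.1, sq_nonneg x.2]
    simp only [h3, h4, abs_zero, ← h0]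
    rw [Real.zero_rpow (by linarith), add_zero, Real.zero_rpow (by positivity)]
    simp
  · have h2 : eu ((eu x)⁻¹ • x) = 1 := by
      rw [nearlp_eu_smul, abs_of_pos (inv_pos.2 h0), inv_mul_cancel₀ h0.ne']
    have h3 := hK _ h2
    have h4 := nearlp_smul hp1 (eu x) ((eu x)⁻¹ • x)
    rw [smul_smul, mul_inv_cancel₀ h0.ne', one_smul, abs_of_pos h0] at h4
    rw [h4]
    have h5 : ∀ a : ℝ, eu x * a - eu x = eu x * (a - 1) := fun a => by ring
    rw [h5, abs_mul, abs_of_pos h0, mul_comm]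
    exact mul_le_mul_of_nonneg_right h3.le hux

end Pool.Agent.H99N
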