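import Pool.Agent.H99N.FracOf
import Pool.Agent.H99N.AvoidOf
import Pool.Agent.H99N.Falconer
import Pool.Agent.H99N.NearLp

/-!
# Measurable chromatic number of the planes with a norm close to the Euclidean norm
-/

open Set MeasureTheory Filter Topology Metric

namespace Pool.Agent.H99N

/-- a colouring without monochromatic pair at distance one gives measurable sets -/
theorem loc_of {N : ℝ × ℝ → ℝ} {R : ℝ} {κ : ℝ × ℝ → Fin 4}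
    (hm : ∀ i, NullMeasurableSet (κ ⁻¹' {i}))
    (h : ∀ x y : ℝ × ℝ, ‖x‖ ≤ R → ‖y‖ ≤ R → κ x = κ y → N (x - y) ≠ 1) :
    ∃ A, Loc N R A := by
  have h1 : ∀ i, ∃ t, t ⊆ κ ⁻¹' {i} ∧ MeasurableSet t ∧ t =ᵐ[volume] κ ⁻¹' {i} := fun i => by
    obtain ⟨t, ht1, ht2, ht3⟩ := (hm i).exists_measurable_subset_ae_eq
    exact ⟨t, ht1, ht2, ht3⟩
  choose A hA1 hA2 hA3 using h1
  refine ⟨A, hA2, ?_, ?_⟩
  · have h2 : ∀ᵐ x : ℝ × ℝ, ∀ i, (x ∈ A i ↔ x ∈ κ ⁻¹' {i}) := by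
      rw [ae_all_iff]
      intro i
      filter_upwards [hA3 i] with x hx
      exact Iff.of_eq hx
    filter_upwards [h2] with x hx
    exact ⟨κ x, (hx (κ x)).2 rfl⟩
  · intro i x hx y hy hxR hyR
    rw [mem_closedBall_zero_iff] at hxR hyR
    exact h x y hxR hyR ((hA1 i hx : κ x = i).trans (hA1 i hy : κ y = i).symm)

theorem main : ∃ ε R : ℝ, 0 < ε ∧ 0 < R ∧ ∀ N : ℝ × ℝ → ℝ, Near ε N →
    ∀ κ : ℝ × ℝ → Fin 4, (∀ i, NullMeasurableSet (κ ⁻¹' {i})) →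
      ∃ x y : ℝ × ℝ, ‖x‖ ≤ R ∧ ‖y‖ ≤ R ∧ κ x = κ y ∧ N (x - y) = 1 := by
  by_contra hcon
  have hbad : ∀ ε : ℝ, 0 < ε → ∀ R : ℝ, ∃ N : ℝ × ℝ → ℝ, Near ε N ∧
      ∃ A : Fin 4 → Set (ℝ × ℝ), Loc N R A := by
    intro ε hε R
    by_contra hno
    apply hcon
    refine ⟨ε, max R 1, hε, lt_max_of_lt_right one_pos, fun N hN κ hκ => ?_⟩
    by_contra hno2
    apply hno
    refine ⟨N, hN, loc_of hκ ?_⟩
    intro x y hx hy hxy hN1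
    exact hno2 ⟨x, y, hx.trans (le_max_left _ _), hy.trans (le_max_left _ _), hxy, hN1⟩
  obtain ⟨f, hf⟩ := frac_of hbad
  obtain ⟨A, hA⟩ := avoid_of_frac hf
  exact falconer A hA

theorem main_lp : ∃ ε R : ℝ, 0 < ε ∧ 0 < R ∧
    (∀ N : Seminorm ℝ (ℝ × ℝ), (∀ x, |N x - √(x.1 ^ 2 + x.2 ^ 2)| ≤ ε * √(x.1 ^ 2 + x.2 ^ 2)) →
      ∀ κ : ℝ × ℝ → Fin 4, (∀ i, NullMeasurableSet (κ ⁻¹' {i})) →
        ∃ x y : ℝ × ℝ, ‖x‖ ≤ R ∧ ‖y‖ ≤ R ∧ κ x = κ y ∧ N (x - y) = 1) ∧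
    ∀ p : ℝ, |p - 2| < ε →
      ∀ κ : ℝ × ℝ → Fin 4, (∀ i, NullMeasurableSet (κ ⁻¹' {i})) →
        ∃ x y : ℝ × ℝ, ‖x‖ ≤ R ∧ ‖y‖ ≤ R ∧ κ x = κ y ∧
          |x.1 - y.1| ^ p + |x.2 - y.2| ^ p = 1 := by
  obtain ⟨ε, R, hε, hR, h⟩ := main
  obtain ⟨δ, hδ, hδ1, hlp⟩ := near_lp hε
  refine ⟨min ε δ, R, lt_min hε hδ, hR, ?_, ?_⟩
  · intro N hN κ hκ
    refine h N ⟨map_add_le_add N, fun c x => ?_, fun x => ?_⟩ κ hκ
    · rw [map_smul_eq_mul, Real.norm_eq_abs]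
    · refine (hN x).trans ?_
      exact mul_le_mul_of_nonneg_right (min_le_left _ _) (Real.sqrt_nonneg _)
  · intro p hp κ hκ
    have hpδ : |p - 2| < δ := hp.trans_le (min_le_right _ _)
    obtain ⟨x, y, hx, hy, hxy, hN⟩ := h _ (hlp p hpδ) κ hκ
    refine ⟨x, y, hx, hy, hxy, ?_⟩
    have hp0 : 0 < p := by
      have := (abs_lt.1 hpδ).1
      linarith
    simp only [Prod.fst_sub, Prod.snd_sub] at hN
    have hnn : 0 ≤ |x.1 - y.1| ^ p + |x.2 - y.2| ^ p := by positivity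
    have h1 := congrArg (fun z : ℝ => z ^ p) hN
    simp only [Real.one_rpow] at h1
    rwa [← Real.rpow_mul hnn, one_div, inv_mul_cancel₀ hp0.ne', Real.rpow_one] at h1

end Pool.Agent.H99N
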