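import Pool.Agent.H99N.Defs

/-!
# Maps of the line close to the identity almost preserve integrals

Plan. `τ` is Lipschitz with constant `1 + η` and antilipschitz with constant `1/(1-η)` (≤ 2), it is
continuous and surjective (`τ s - s` is bounded; intermediate value theorem). With
`hausdorffMeasure_real` (`μH[1] = volume` on `ℝ`), `LipschitzWith.hausdorffMeasure_image_le` and
`AntilipschitzWith.hausdorffMeasure_preimage_le` one gets, for every set `S`,
`volume (τ ⁻¹' S) ≤ 1/(1-η) * volume S` and `volume S ≤ (1+η) * volume (τ ⁻¹' S)`, i.e. the measures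
`map τ volume` and `volume` are comparable with constants `1 + O(η)`. Hence for integrable `F ≥ 0`
one has `|∫ F (τ s) - ∫ F s| ≤ 2 * η * ∫ F`, and for `F = w * c` (positive and negative part)
`|∫ w (τ s) * c (τ s) - ∫ w s * c s| ≤ 2 * η * ∫ |w * c| ≤ 2 * η`. Finally
`|∫ w s * c (τ s) - ∫ w (τ s) * c (τ s)| ≤ ∫ |w s - w (τ s)| ≤ 2 * η`, because `|τ s - s| ≤ η` and
the integrand vanishes for `|s| ≥ 1`.
-/

open Set MeasureTheory Filter Topology Metric

namespace Pool.Agent.H99N

open scoped NNReal ENNReal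

private theorem nearid_eta {τ : ℝ → ℝ} {η : ℝ} (hτ : Small η fun s => τ s - s) : 0 ≤ η :=
  (abs_nonneg _).trans (hτ.bd 0)

private theorem nearid_lip {τ : ℝ → ℝ} {η : ℝ} (hτ : Small η fun s => τ s - s) (s t : ℝ) :
    |τ s - τ t| ≤ (1 + 2 * η) * |s - t| := by
  have h1 := hτ.lip s t
  have h0 := nearid_eta hτ
  have h2 : |τ s - τ t| ≤ |(τ s - s) - (τ t - t)| + |s - t| := by
    have : τ s - τ t = ((τ s - s) - (τ t - t)) + (s - t) := by ring
    rw [this]
    exact abs_add_le _ _
  have h3 := abs_nonneg (s - t)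
  nlinarith

private theorem nearid_anti {τ : ℝ → ℝ} {η : ℝ} (h1 : η ≤ 1 / 2) (hτ : Small η fun s => τ s - s)
    (s t : ℝ) : |s - t| ≤ (1 + 2 * η) * |τ s - τ t| := by
  have h2 := hτ.lip s t
  have h0 := nearid_eta hτ
  have h3 : |s - t| ≤ |τ s - τ t| + |(τ s - s) - (τ t - t)| := by
    have : s - t = (τ s - τ t) - ((τ s - s) - (τ t - t)) := by ring
    conv_lhs => rw [this]
    exact abs_sub _ _
  have h4 := abs_nonneg (s - t)
  have h5 := abs_nonneg (τ s - τ t)
  have h6 : (1 - η) * |s - t| ≤ |τ s - τ t| := by linarith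
  have h7 : (1 + 2 * η) * ((1 - η) * |s - t|) ≤ (1 + 2 * η) * |τ s - τ t| :=
    mul_le_mul_of_nonneg_left h6 (by linarith)
  have h8 : 0 ≤ η * (1 - 2 * η) * |s - t| := mul_nonneg (mul_nonneg h0 (by linarith)) h4
  nlinarith

private theorem nearid_lip' {τ : ℝ → ℝ} {η : ℝ} (hτ : Small η fun s => τ s - s) :
    LipschitzWith (Real.toNNReal (1 + 2 * η)) τ := by
  have h0 := nearid_eta hτ
  refine LipschitzWith.of_dist_le_mul fun s t => ?_
  rw [Real.dist_eq, Real.dist_eq, Real.coe_toNNReal _ (by linarith)]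
  exact nearid_lip hτ s t

private theorem nearid_anti' {τ : ℝ → ℝ} {η : ℝ} (h1 : η ≤ 1 / 2)
    (hτ : Small η fun s => τ s - s) : AntilipschitzWith (Real.toNNReal (1 + 2 * η)) τ := by
  have h0 := nearid_eta hτ
  refine AntilipschitzWith.of_le_mul_dist fun s t => ?_
  rw [Real.dist_eq, Real.dist_eq, Real.coe_toNNReal _ (by linarith)]
  exact nearid_anti h1 hτ s t

private theorem nearid_surj {τ : ℝ → ℝ} {η : ℝ} (hτ : Small η fun s => τ s - s) :
    Function.Surjective τ := by
  have hc : Continuous τ := (nearid_lip' hτ).continuous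
  intro y
  have h1 : y ∈ Icc (τ (y - η)) (τ (y + η)) := by
    have h2 := abs_le.1 (hτ.bd (y - η))
    have h3 := abs_le.1 (hτ.bd (y + η))
    constructor <;> linarith [h2.1, h2.2, h3.1, h3.2]
  have h2 : y - η ≤ y + η := by linarith [nearid_eta hτ]
  obtain ⟨s, _, hs⟩ := intermediate_value_Icc h2 hc.continuousOn h1
  exact ⟨s, hs⟩

private theorem nearid_vol1 {τ : ℝ → ℝ} {η : ℝ} (h1 : η ≤ 1 / 2)
    (hτ : Small η fun s => τ s - s) (S : Set ℝ) :
    volume (τ ⁻¹' S) ≤ (Real.toNNReal (1 + 2 * η) : ℝ≥0∞) * volume S := by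
  have := (nearid_anti' h1 hτ).hausdorffMeasure_preimage_le (zero_le_one) S
  rwa [hausdorffMeasure_real, ENNReal.rpow_one] at this

private theorem nearid_vol2 {τ : ℝ → ℝ} {η : ℝ}
    (hτ : Small η fun s => τ s - s) (S : Set ℝ) :
    volume S ≤ (Real.toNNReal (1 + 2 * η) : ℝ≥0∞) * volume (τ ⁻¹' S) := by
  have := (nearid_lip' hτ).hausdorffMeasure_image_le (zero_le_one) (τ ⁻¹' S)
  rwa [hausdorffMeasure_real, ENNReal.rpow_one, image_preimage_eq _ (nearid_surj hτ)] at this

private theorem nearid_key {τ : ℝ → ℝ} {η : ℝ} (h1 : η ≤ 1 / 2) (hτ : Small η fun s => τ s - s)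
    {F : ℝ → ℝ} (hF : Integrable F) (hF0 : ∀ s, 0 ≤ F s) :
    Integrable (fun s => F (τ s)) ∧ |(∫ s, F (τ s)) - ∫ s, F s| ≤ 4 * η * ∫ s, F s := by
  have h0 := nearid_eta hτ
  have hc : Continuous τ := (nearid_lip' hτ).continuous
  set L : ℝ≥0 := Real.toNNReal (1 + 2 * η) with hL
  have hLr : (L : ℝ) = 1 + 2 * η := Real.coe_toNNReal _ (by linarith)
  have m1 : Measure.map τ volume ≤ L • (volume : Measure ℝ) := by
    refine Measure.le_iff.2 fun S hS => ?_
    rw [Measure.map_apply hc.measurable hS]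
    exact nearid_vol1 h1 hτ S
  have m2 : (volume : Measure ℝ) ≤ L • Measure.map τ volume := by
    refine Measure.le_iff.2 fun S hS => ?_
    rw [Measure.smul_apply, Measure.map_apply hc.measurable hS]
    exact nearid_vol2 hτ S
  have hFL : Integrable F (L • (volume : Measure ℝ)) := hF.smul_measure_nnreal
  have hFm : Integrable F (Measure.map τ volume) := hFL.mono_measure m1
  have hFτ : Integrable (fun s => F (τ s)) := hFm.comp_measurable hc.measurable
  refine ⟨hFτ, ?_⟩
  have e1 : ∫ s, F (τ s) = ∫ s, F s ∂(Measure.map τ volume) :=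
    (integral_map hc.measurable.aemeasurable hFm.aestronglyMeasurable).symm
  have i1 : ∫ s, F s ∂(Measure.map τ volume) ≤ (1 + 2 * η) * ∫ s, F s := by
    have := integral_mono_measure m1 (ae_of_all _ hF0) hFL
    rw [integral_smul_nnreal_measure] at this
    rw [← hLr]
    simpa [NNReal.smul_def] using this
  have i2 : ∫ s, F s ≤ (1 + 2 * η) * ∫ s, F s ∂(Measure.map τ volume) := by
    have := integral_mono_measure m2 (ae_of_all _ hF0) hFm.smul_measure_nnreal
    rw [integral_smul_nnreal_measure] at this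
    rw [← hLr]
    simpa [NNReal.smul_def] using this
  rw [e1]
  have p1 : 0 ≤ ∫ s, F s := integral_nonneg hF0
  have p2 : 0 ≤ ∫ s, F s ∂(Measure.map τ volume) := integral_nonneg hF0
  rw [abs_le]
  constructor
  · nlinarith [mul_nonneg h0 p1, mul_nonneg h0 p2]
  · nlinarith [mul_nonneg h0 p1]

theorem near_id {τ : ℝ → ℝ} {η : ℝ} (h1 : η ≤ 1 / 2) (hτ : Small η fun s => τ s - s)
    {w : ℝ → ℝ} (hw0 : ∀ s, 0 ≤ w s) (hw1 : ∀ s, w s ≤ 1) (hwl : ∀ s t, |w s - w t| ≤ |s - t|)
    (hws : ∀ s, 1 / 2 ≤ |s| → w s = 0) {c : ℝ → ℝ} (hc : Measurable c) (hcb : ∀ s, |c s| ≤ 1) :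
    |(∫ s, w s * c (τ s)) - ∫ s, w s * c s| ≤ 10 * η := by
  have h0 := nearid_eta hτ
  have hτc : Continuous τ := (nearid_lip' hτ).continuous
  have hwc : Continuous w := by
    have : LipschitzWith 1 w := LipschitzWith.of_dist_le_mul fun s t => by
      rw [Real.dist_eq, Real.dist_eq]
      simpa using hwl s t
    exact this.continuous
  -- the indicator of an interval
  have hI : ∀ r : ℝ, Integrable (indicator (Icc (-r) r) (fun _ => (1 : ℝ))) := fun r =>
    (integrable_indicator_iff measurableSet_Icc).2 (by simp)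
  have hIv : ∀ r : ℝ, 0 ≤ r → ∫ s, indicator (Icc (-r) r) (fun _ => (1 : ℝ)) s = 2 * r := by
    intro r hr
    rw [integral_indicator measurableSet_Icc]
    simp only [integral_const, MeasurableSet.univ, measureReal_restrict_apply, univ_inter,
      smul_eq_mul, mul_one, Real.volume_real_Icc]
    rw [max_eq_left (by linarith)]
    ring
  have hwI : ∀ s, w s ≤ indicator (Icc (-(1 / 2)) (1 / 2)) (fun _ => (1 : ℝ)) s := by
    intro s
    by_cases hs : s ∈ Icc (-(1 / 2 : ℝ)) (1 / 2)
    · rw [indicator_of_mem hs]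
      exact hw1 s
    · rw [indicator_of_notMem hs, hws s]
      by_contra hcon
      rw [not_le, abs_lt] at hcon
      exact hs ⟨hcon.1.le, hcon.2.le⟩
  have hb : ∀ s, |w s * c s| ≤ indicator (Icc (-(1 / 2)) (1 / 2)) (fun _ => (1 : ℝ)) s := by
    intro s
    rw [abs_mul, abs_of_nonneg (hw0 s)]
    exact (mul_le_of_le_one_right (hw0 s) (hcb s)).trans (hwI s)
  have hHi : Integrable fun s => w s * c s := by
    refine (hI (1 / 2)).mono' (hwc.measurable.mul hc).aestronglyMeasurable ?_
    exact ae_of_all _ fun s => by simpa using hb s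
  have hHτi : Integrable fun s => w (τ s) * c (τ s) := by
    have hpos := (nearid_key h1 hτ hHi.pos_part fun s => le_max_right _ _).1
    have hneg := (nearid_key h1 hτ hHi.neg_part fun s => le_max_right _ _).1
    refine (hpos.sub hneg).congr (ae_of_all _ fun s => ?_)
    simp only [Pi.sub_apply]
    rcases le_total 0 (w (τ s) * c (τ s)) with h | h
    · rw [max_eq_left h, max_eq_right (by linarith)]; ring
    · rw [max_eq_right h, max_eq_left (by linarith)]; ring
  -- first comparison
  have c1 : |(∫ s, w (τ s) * c (τ s)) - ∫ s, w s * c s| ≤ 4 * η := by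
    obtain ⟨hpi, hp⟩ := nearid_key h1 hτ hHi.pos_part fun s => le_max_right _ _
    obtain ⟨hni, hn⟩ := nearid_key h1 hτ hHi.neg_part fun s => le_max_right _ _
    have e1 : ∫ s, w (τ s) * c (τ s) = (∫ s, max (w (τ s) * c (τ s)) 0) -
        ∫ s, max (-(w (τ s) * c (τ s))) 0 := by
      rw [← integral_sub hpi hni]
      refine integral_congr_ae (ae_of_all _ fun s => ?_)
      simp only
      rcases le_total 0 (w (τ s) * c (τ s)) with h | h
      · rw [max_eq_left h, max_eq_right (by linarith)]; ring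
      · rw [max_eq_right h, max_eq_left (by linarith)]; ring
    have e2 : ∫ s, w s * c s = (∫ s, max (w s * c s) 0) - ∫ s, max (-(w s * c s)) 0 := by
      rw [← integral_sub hHi.pos_part hHi.neg_part]
      refine integral_congr_ae (ae_of_all _ fun s => ?_)
      simp only
      rcases le_total 0 (w s * c s) with h | h
      · rw [max_eq_left h, max_eq_right (by linarith)]; ring
      · rw [max_eq_right h, max_eq_left (by linarith)]; ring
    have e3 : (∫ s, max (w s * c s) 0) + ∫ s, max (-(w s * c s)) 0 ≤ 1 := by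
      rw [← integral_add hHi.pos_part hHi.neg_part]
      calc ∫ s, max (w s * c s) 0 + max (-(w s * c s)) 0
          ≤ ∫ s : ℝ, indicator (Icc (-(1 / 2)) (1 / 2)) (fun _ => (1 : ℝ)) s := by
            refine integral_mono (hHi.pos_part.add hHi.neg_part) (hI _) fun s => ?_
            refine le_trans (le_of_eq ?_) (hb s)
            simp only
            rcases le_total 0 (w s * c s) with h | h
            · rw [max_eq_left h, max_eq_right (by linarith), abs_of_nonneg h]; ring
            · rw [max_eq_right h, max_eq_left (by linarith), abs_of_nonpos h]; ring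
        _ = 1 := by rw [hIv _ (by norm_num)]; norm_num
    rw [e1, e2]
    have hp' := abs_le.1 hp
    have hn' := abs_le.1 hn
    rw [abs_le]
    constructor <;> nlinarith [hp'.1, hp'.2, hn'.1, hn'.2]
  -- second comparison
  have hdb : ∀ s, |w s * c (τ s) - w (τ s) * c (τ s)| ≤
      η * indicator (Icc (-1) 1) (fun _ => (1 : ℝ)) s := by
    intro s
    rw [← sub_mul, abs_mul]
    have h3 : |w s - w (τ s)| * |c (τ s)| ≤ |w s - w (τ s)| :=
      mul_le_of_le_one_right (abs_nonneg _) (hcb _)
    refine h3.trans ?_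
    by_cases hs : s ∈ Icc (-1 : ℝ) 1
    · rw [indicator_of_mem hs, mul_one]
      refine (hwl _ _).trans ?_
      rw [abs_sub_comm]
      exact hτ.bd s
    · rw [indicator_of_notMem hs, mul_zero]
      have hs1 : 1 < |s| := by
        by_contra hcon
        rw [not_lt, abs_le] at hcon
        exact hs hcon
      have hs2 : 1 / 2 ≤ |τ s| := by
        have h4 := hτ.bd s
        have h5 : |s| ≤ |τ s| + |τ s - s| := by
          have : s = τ s - (τ s - s) := by ring
          conv_lhs => rw [this]
          exact abs_sub _ _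
        linarith
      rw [hws s (by linarith), hws _ hs2]
      simp
  have hIη : Integrable fun s : ℝ => η * indicator (Icc (-1) 1) (fun _ => (1 : ℝ)) s :=
    (hI 1).const_mul η
  have hdi : Integrable fun s => w s * c (τ s) - w (τ s) * c (τ s) := by
    refine hIη.mono' ?_ (ae_of_all _ fun s => by simpa using hdb s)
    have hcτ : Measurable fun s => c (τ s) := hc.comp hτc.measurable
    exact ((hwc.measurable.mul hcτ).sub
      ((hwc.measurable.comp hτc.measurable).mul hcτ)).aestronglyMeasurable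
  have c2 : |(∫ s, w s * c (τ s)) - ∫ s, w (τ s) * c (τ s)| ≤ 2 * η := by
    have hwcτ : Integrable fun s => w s * c (τ s) := by
      refine (hdi.add hHτi).congr (ae_of_all _ fun s => ?_)
      simp
    rw [← integral_sub hwcτ hHτi]
    refine (abs_integral_le_integral_abs).trans ?_
    refine (integral_mono hdi.abs hIη hdb).trans ?_
    rw [integral_const_mul, hIv 1 zero_le_one]
    linarith
  have e : (∫ s, w s * c (τ s)) - ∫ s, w s * c s =
      ((∫ s, w s * c (τ s)) - ∫ s, w (τ s) * c (τ s)) +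
      ((∫ s, w (τ s) * c (τ s)) - ∫ s, w s * c s) := by ring
  rw [e]
  refine (abs_add_le _ _).trans ?_
  linarith

end Pool.Agent.H99N
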