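import Pool.Agent.H99N.Defs

/-!
# The square of the `L²` norm of the arc average

Plan. Expand the square as `∫ s, ∫ t, chi s * b (x + (s, G s)) * (chi t * b (x + (t, G t)))`
(`integral_mul_const` and so on), swap the integrals (Fubini; the integrand is bounded, measurable,
and for `|s|, |t| < 1/2` it is nonzero only for `x ∈ Q - (s, G s)`, a set of measure `volume Q`: the
function `(s, t, x) ↦ chi s * chi t * 1_Q (x + (s, G s))` is integrable on `ℝ × ℝ × (ℝ × ℝ)`)
and substitute `x ↦ x - (s, G s)` in the integral over `x`.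
-/

open Set MeasureTheory Filter Topology Metric

namespace Pool.Agent.H99N

private theorem sq_chi_cont : Continuous chi := by
  unfold chi
  fun_prop

private theorem sq_chi_nonneg (t : ℝ) : 0 ≤ chi t := le_max_left _ _

private theorem sq_chi_int : Integrable chi := by
  have h1 : HasCompactSupport chi := by
    refine HasCompactSupport.of_support_subset_isCompact (K := Icc (-(1 / 2)) (1 / 2))
      isCompact_Icc ?_
    intro t ht
    rw [Function.mem_support] at ht
    by_contra hcon
    apply ht
    unfold chi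
    apply max_eq_left
    rw [sub_nonpos]
    by_contra hlt
    rw [not_le, abs_lt] at hlt
    exact hcon ⟨hlt.1.le, hlt.2.le⟩
  exact sq_chi_cont.integrable_of_hasCompactSupport h1

theorem sq {b : ℝ × ℝ → ℝ} (hb : Measurable b) (hb1 : ∀ x, |b x| ≤ 1) {Q : Set (ℝ × ℝ)}
    (hQ : MeasurableSet Q) (hQv : volume Q < ⊤) (hbQ : ∀ x, x ∉ Q → b x = 0) {G : ℝ → ℝ}
    (hG : Measurable G) :
    Integrable (fun x : ℝ × ℝ => (∫ t, chi t * b (x + (t, G t))) ^ 2) ∧
    ∫ x : ℝ × ℝ, (∫ t, chi t * b (x + (t, G t))) ^ 2 =
      ∫ s, ∫ t, chi s * chi t * ∫ x : ℝ × ℝ, b x * b (x + (t - s, G t - G s)) := by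
  have hcm : Measurable chi := sq_chi_cont.measurable
  have hbi : Integrable b := by
    have h1 : Integrable (indicator Q fun _ => (1 : ℝ)) :=
      (integrable_indicator_iff hQ).2 (by simp [hQv])
    refine h1.mono' hb.aestronglyMeasurable (ae_of_all _ fun x => ?_)
    by_cases hx : x ∈ Q
    · rw [indicator_of_mem hx]
      simpa using hb1 x
    · rw [indicator_of_notMem hx, hbQ x hx]
      simp
  -- the integrand
  set K : (ℝ × ℝ) × (ℝ × ℝ) → ℝ := fun z =>
    (chi z.2.1 * b (z.1 + (z.2.1, G z.2.1))) * (chi z.2.2 * b (z.1 + (z.2.2, G z.2.2))) with hK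
  have hKm : Measurable K := by
    have m1 : Measurable fun z : (ℝ × ℝ) × (ℝ × ℝ) => b (z.1 + (z.2.1, G z.2.1)) :=
      hb.comp (measurable_fst.add ((measurable_fst.comp measurable_snd).prodMk
        (hG.comp (measurable_fst.comp measurable_snd))))
    have m2 : Measurable fun z : (ℝ × ℝ) × (ℝ × ℝ) => b (z.1 + (z.2.2, G z.2.2)) :=
      hb.comp (measurable_fst.add ((measurable_snd.comp measurable_snd).prodMk
        (hG.comp (measurable_snd.comp measurable_snd))))
    exact ((hcm.comp (measurable_fst.comp measurable_snd)).mul m1).mul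
      ((hcm.comp (measurable_snd.comp measurable_snd)).mul m2)
  have hKb : ∀ x st, |K (x, st)| ≤ chi st.1 * chi st.2 * |b (x + (st.1, G st.1))| := by
    intro x st
    simp only [hK, abs_mul, abs_of_nonneg (sq_chi_nonneg _)]
    have h1 := hb1 (x + (st.2, G st.2))
    have h2 := sq_chi_nonneg st.1
    have h3 := sq_chi_nonneg st.2
    have h4 := abs_nonneg (b (x + (st.1, G st.1)))
    calc chi st.1 * |b (x + (st.1, G st.1))| * (chi st.2 * |b (x + (st.2, G st.2))|)
        = (chi st.1 * chi st.2 * |b (x + (st.1, G st.1))|) * |b (x + (st.2, G st.2))| := by ring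
      _ ≤ (chi st.1 * chi st.2 * |b (x + (st.1, G st.1))|) * 1 :=
          mul_le_mul_of_nonneg_left h1 (by positivity)
      _ = _ := mul_one _
  have hbs : ∀ v : ℝ × ℝ, Integrable fun x => |b (x + v)| := fun v =>
    (hbi.comp_add_right v).abs
  have hKi : Integrable K ((volume : Measure (ℝ × ℝ)).prod (volume : Measure (ℝ × ℝ))) := by
    rw [integrable_prod_iff' hKm.aestronglyMeasurable]
    constructor
    · refine ae_of_all _ fun st => ?_
      refine ((hbs (st.1, G st.1)).const_mul (chi st.1 * chi st.2)).mono' ?_ ?_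
      · exact (hKm.comp (measurable_id.prodMk measurable_const)).aestronglyMeasurable
      · exact ae_of_all _ fun x => by simpa using hKb x st
    · have h1 : Integrable (fun st : ℝ × ℝ => chi st.1 * chi st.2 * ∫ x, |b x|) :=
        (sq_chi_int.mul_prod sq_chi_int).mul_const _
      refine h1.mono' ?_ ?_
      · exact hKm.aestronglyMeasurable.norm.prod_swap.integral_prod_right'
      · refine ae_of_all _ fun st => ?_
        rw [Real.norm_of_nonneg (integral_nonneg fun x => norm_nonneg _)]
        calc ∫ x, ‖K (x, st)‖ ≤ ∫ x, chi st.1 * chi st.2 * |b (x + (st.1, G st.1))| := by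
              refine integral_mono_of_nonneg (ae_of_all _ fun x => norm_nonneg _)
                ((hbs _).const_mul _) (ae_of_all _ fun x => hKb x st)
          _ = chi st.1 * chi st.2 * ∫ x, |b x| := by
              rw [integral_const_mul, integral_add_right_eq_self (fun x => |b x|)]
  have e1 : ∀ x : ℝ × ℝ, ∫ st, K (x, st) = (∫ t, chi t * b (x + (t, G t))) ^ 2 := by
    intro x
    have := integral_prod_mul (μ := (volume : Measure ℝ)) (ν := (volume : Measure ℝ))
      (fun s => chi s * b (x + (s, G s))) (fun t => chi t * b (x + (t, G t)))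
    rw [pow_two]
    exact this
  have e2 : ∀ st : ℝ × ℝ, ∫ x, K (x, st) =
      chi st.1 * chi st.2 * ∫ x : ℝ × ℝ, b x * b (x + (st.2 - st.1, G st.2 - G st.1)) := by
    intro st
    have h1 : ∀ x, K (x, st) = chi st.1 * chi st.2 *
        (fun y => b y * b (y + (st.2 - st.1, G st.2 - G st.1))) (x + (st.1, G st.1)) := by
      intro x
      have h2 : x + (st.1, G st.1) + (st.2 - st.1, G st.2 - G st.1) = x + (st.2, G st.2) := by
        ext
        · simp
        · simp
      simp only [hK, h2]
      ring
    simp only [h1]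
    rw [integral_const_mul, integral_add_right_eq_self
      (fun y => b y * b (y + (st.2 - st.1, G st.2 - G st.1)))]
  have hint1 : Integrable (fun x : ℝ × ℝ => ∫ st, K (x, st)) := hKi.integral_prod_left
  have hint2 : Integrable (fun st : ℝ × ℝ => ∫ x, K (x, st)) := hKi.integral_prod_right
  refine ⟨hint1.congr (ae_of_all _ e1), ?_⟩
  calc ∫ x : ℝ × ℝ, (∫ t, chi t * b (x + (t, G t))) ^ 2 = ∫ x : ℝ × ℝ, ∫ st, K (x, st) := by
        simp only [e1]
    _ = ∫ st, ∫ x, K (x, st) := integral_integral_swap hKi
    _ = ∫ s, ∫ t, ∫ x, K (x, (s, t)) := by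
        exact integral_prod (μ := (volume : Measure ℝ)) (ν := (volume : Measure ℝ)) _ hint2
    _ = _ := by simp only [e2]

end Pool.Agent.H99N
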