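import Pool.Agent.H99N.Tv
import Pool.Agent.H99N.Ac
import Pool.Agent.H99N.Auto
import Pool.Agent.H99N.Sq

/-!
# Arc averages of a weakly null sequence converge strongly

Plan. Fix `R`. As `g` is continuous there is `R'` with `x + (t, g t + r k t) ∈ Q := closedBall 0 R'`
for all `x ∈ closedBall 0 R`, `|t| ≤ 1/2` and all `k` with `e k ≤ 1`. With
`β k = Q.indicator (b k)` we have, for `x ∈ closedBall 0 R`, that
`F k x := ∫ t, chi t * b k (x + (t, g t + r k t)) = ∫ t, chi t * β k (x + (t, g t + r k t))`.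
By Cauchy-Schwarz on the ball (or `2 * |F| ≤ η + F ^ 2 / η` for every `η > 0`) it suffices that
`∫ x, (∫ t, chi t * β k (x + (t, g t + r k t))) ^ 2` tends to `0`. By `sq` this is
`∫ s, ∫ t, chi s * chi t * c k (t - s, (g t + r k t) - (g s + r k s))` with
`c k u = ∫ x, β k x * β k (x + u)`, measurable and bounded by `(volume Q).toReal`; by `tv` (applied to
`c k` divided by a bound) it differs from `∫ s, ∫ t, chi s * chi t * c k (t - s, g t - g s)` by a
quantity tending to `0`, and the latter is `∫ u, κ u * c k u` by `ac`, which tends to `0` by `auto`.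
(`r k` is continuous, hence measurable, because it is Lipschitz.)
-/

open Set MeasureTheory Filter Topology Metric

namespace Pool.Agent.H99N

private lemma strong_small_continuous {η : ℝ} {r : ℝ → ℝ} (h : Small η r) : Continuous r := by
  have hη : 0 ≤ η := le_trans (abs_nonneg _) (h.bd 0)
  have : LipschitzWith (Real.toNNReal η) r := by
    apply LipschitzWith.of_dist_le_mul
    intro s t
    rw [Real.dist_eq, Real.dist_eq, Real.coe_toNNReal _ hη]
    exact h.lip s t
  exact this.continuous

private lemma strong_prof_continuous {g g' : ℝ → ℝ} (h : Prof g g') : Continuous g :=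
  continuous_iff_continuousAt.2 fun t => (h.der t).continuousAt

private lemma strong_chi_zero {t : ℝ} (ht : ¬ |t| < 1 / 2) : chi t = 0 := by
  unfold chi
  rw [max_eq_left]
  linarith [not_lt.1 ht]

/-- the autocorrelation is measurable -/
private lemma strong_meas {β : ℝ × ℝ → ℝ} (hβ : Measurable β) :
    Measurable fun u : ℝ × ℝ => ∫ x, β x * β (x + u) := by
  have h1 : StronglyMeasurable fun p : (ℝ × ℝ) × (ℝ × ℝ) => β p.2 * β (p.2 + p.1) := by
    apply Measurable.stronglyMeasurable
    exact (hβ.comp measurable_snd).mul (hβ.comp (measurable_snd.add measurable_fst))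
  exact (StronglyMeasurable.integral_prod_right (f := fun u x => β x * β (x + u)) h1).measurable

private lemma strong_bound {β : ℝ × ℝ → ℝ} (hβ1 : ∀ x, |β x| ≤ 1) {Q : Set (ℝ × ℝ)}
    (hQ : MeasurableSet Q) (hQv : volume Q < ⊤) (hβQ : ∀ x, x ∉ Q → β x = 0) (u : ℝ × ℝ) :
    |∫ x, β x * β (x + u)| ≤ (volume Q).toReal := by
  have h1 : |∫ x, β x * β (x + u)| ≤ ∫ x, Q.indicator (fun _ => (1 : ℝ)) x := by
    rw [← Real.norm_eq_abs]
    refine le_trans (norm_integral_le_integral_norm _) ?_
    apply integral_mono_of_nonneg (Eventually.of_forall fun x => norm_nonneg _)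
    · rw [integrable_indicator_iff hQ]
      exact integrableOn_const hQv.ne
    · refine Eventually.of_forall fun x => ?_
      show ‖β x * β (x + u)‖ ≤ Q.indicator (fun _ => (1 : ℝ)) x
      by_cases hx : x ∈ Q
      · rw [indicator_of_mem hx, norm_mul, Real.norm_eq_abs, Real.norm_eq_abs]
        calc |β x| * |β (x + u)| ≤ 1 * 1 :=
              mul_le_mul (hβ1 _) (hβ1 _) (abs_nonneg _) zero_le_one
          _ = 1 := one_mul _
      · rw [indicator_of_notMem hx, hβQ x hx, zero_mul, norm_zero]
  rw [integral_indicator hQ, setIntegral_const, smul_eq_mul, mul_one] at h1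
  exact h1

theorem strong {g g' : ℝ → ℝ} (h : Prof g g') {r : ℕ → ℝ → ℝ} {e : ℕ → ℝ}
    (hr : ∀ k, Small (e k) (r k)) (he : Tendsto e atTop (𝓝 0)) {b : ℕ → ℝ × ℝ → ℝ}
    (hb : ∀ k, Measurable (b k)) (hb1 : ∀ k x, |b k x| ≤ 1) (hw : Weak b 0) (R : ℝ) :
    Tendsto (fun k => ∫ x in closedBall (0 : ℝ × ℝ) R,
      |∫ t, chi t * b k (x + (t, g t + r k t))|) atTop (𝓝 0) := by
  have hgc := strong_prof_continuous h
  -- bound of g
  obtain ⟨Cg, hCg⟩ : ∃ C : ℝ, ∀ t : ℝ, |t| ≤ 1 / 2 → |g t| ≤ C := by
    obtain ⟨C, hC⟩ := (isCompact_Icc (a := (-(1 / 2) : ℝ)) (b := 1 / 2)).exists_bound_of_continuousOn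
      hgc.continuousOn
    exact ⟨C, fun t ht => hC t (abs_le.1 ht)⟩
  set R' : ℝ := R + Cg + 2 with hR'
  set Q : Set (ℝ × ℝ) := closedBall (0 : ℝ × ℝ) R' with hQdef
  have hQ : MeasurableSet Q := measurableSet_closedBall
  have hQv : volume Q < ⊤ := measure_closedBall_lt_top
  set β : ℕ → ℝ × ℝ → ℝ := fun k => Q.indicator (b k) with hβdef
  have hβ : ∀ k, Measurable (β k) := fun k => (hb k).indicator hQ
  have hβ1 : ∀ k x, |β k x| ≤ 1 := by
    intro k x
    by_cases hx : x ∈ Q
    · show |Q.indicator (b k) x| ≤ 1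
      rw [indicator_of_mem hx]; exact hb1 k x
    · show |Q.indicator (b k) x| ≤ 1
      rw [indicator_of_notMem hx, abs_zero]; exact zero_le_one
  have hβQ : ∀ k x, x ∉ Q → β k x = 0 := fun k x hx => indicator_of_notMem hx _
  have hG : ∀ k, Measurable fun t => g t + r k t := fun k =>
    (hgc.add (strong_small_continuous (hr k))).measurable
  have hsq := fun k => sq (hβ k) (hβ1 k) hQ hQv (hβQ k) (hG k)
  set c : ℕ → ℝ × ℝ → ℝ := fun k u => ∫ x, β k x * β k (x + u) with hcdef
  have hcm : ∀ k, Measurable (c k) := fun k => strong_meas (hβ k)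
  set V : ℝ := (volume Q).toReal with hV
  have hV0 : 0 ≤ V := ENNReal.toReal_nonneg
  have hcb : ∀ k u, |c k u| ≤ V := fun k u => strong_bound (hβ1 k) hQ hQv (hβQ k) u
  set F : ℕ → ℝ × ℝ → ℝ := fun k x => ∫ t, chi t * β k (x + (t, g t + r k t)) with hF
  -- the integral of the square tends to zero
  have hF2 : Tendsto (fun k => ∫ x, F k x ^ 2) atTop (𝓝 0) := by
    obtain ⟨κ, hκ, hκc⟩ := ac h
    have h1 : Tendsto (fun k => ∫ s, ∫ t, chi s * chi t * c k (t - s, g t - g s)) atTop (𝓝 0) := by
      have h2 := auto hb hb1 hw hQ hQv hκ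
      refine h2.congr fun k => ?_
      rw [hκc (c k) (hcm k) ⟨V, hcb k⟩]
    rw [Metric.tendsto_atTop] at h1 ⊢
    intro ε hε
    obtain ⟨n1, hn1⟩ := h1 (ε / 2) (half_pos hε)
    have hV1 : 0 < V + 1 := by linarith
    obtain ⟨η, hη, htv⟩ := tv h (ε := ε / 4 / (V + 1)) (by positivity)
    have he1 : ∀ᶠ k in atTop, e k < η := he.eventually (gt_mem_nhds hη)
    obtain ⟨n2, hn2⟩ := eventually_atTop.1 he1
    refine ⟨max n1 n2, fun k hk => ?_⟩
    have hk1 := hn1 k (le_trans (le_max_left _ _) hk)
    have hk2 := hn2 k (le_trans (le_max_right _ _) hk)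
    have hsm : Small η (r k) := ⟨fun t => le_trans ((hr k).bd t) hk2.le, fun s t =>
      le_trans ((hr k).lip s t) (mul_le_mul_of_nonneg_right hk2.le (abs_nonneg _))⟩
    have hkk := htv (r k) hsm (fun u => c k u / (V + 1)) ((hcm k).div_const _) (by
      intro u
      rw [abs_div, abs_of_pos hV1, div_le_one hV1]
      linarith [hcb k u])
    have e1 : ∀ G : ℝ → ℝ, (∫ s, ∫ t, chi s * chi t * (c k (t - s, G t - G s) / (V + 1))) =
        (∫ s, ∫ t, chi s * chi t * c k (t - s, G t - G s)) / (V + 1) := by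
      intro G
      rw [← integral_div]
      refine integral_congr_ae (Eventually.of_forall fun s => ?_)
      show (∫ t, chi s * chi t * (c k (t - s, G t - G s) / (V + 1))) =
        (∫ t, chi s * chi t * c k (t - s, G t - G s)) / (V + 1)
      rw [← integral_div]
      refine integral_congr_ae (Eventually.of_forall fun t => ?_)
      show chi s * chi t * (c k (t - s, G t - G s) / (V + 1)) =
        chi s * chi t * c k (t - s, G t - G s) / (V + 1)
      ring
    have hkk' : |(∫ s, ∫ t, chi s * chi t * c k (t - s, (g t + r k t) - (g s + r k s))) / (V + 1) -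
        (∫ s, ∫ t, chi s * chi t * c k (t - s, g t - g s)) / (V + 1)| ≤ ε / 4 / (V + 1) := by
      have e2 := e1 (fun t => g t + r k t)
      have e3 := e1 g
      have e2' : (∫ s, ∫ t, chi s * chi t * (c k (t - s, (g t + r k t) - (g s + r k s)) / (V + 1))) =
        (∫ s, ∫ t, chi s * chi t * c k (t - s, (g t + r k t) - (g s + r k s))) / (V + 1) := e2
      rw [← e2', ← e3]
      exact hkk
    rw [← sub_div, abs_div, abs_of_pos hV1, div_le_div_iff_of_pos_right hV1] at hkk'
    have e4 : ∫ x, F k x ^ 2 =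
        ∫ s, ∫ t, chi s * chi t * c k (t - s, (g t + r k t) - (g s + r k s)) := (hsq k).2
    rw [Real.dist_eq, sub_zero] at hk1 ⊢
    rw [e4]
    have e5 := abs_sub_abs_le_abs_sub
      (∫ s, ∫ t, chi s * chi t * c k (t - s, (g t + r k t) - (g s + r k s)))
      (∫ s, ∫ t, chi s * chi t * c k (t - s, g t - g s))
    linarith
  -- conclusion
  set B : Set (ℝ × ℝ) := closedBall (0 : ℝ × ℝ) R with hB
  have hBv : volume B < ⊤ := measure_closedBall_lt_top
  set W : ℝ := (volume B).toReal with hW
  have hW0 : 0 ≤ W := ENNReal.toReal_nonneg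
  have heq : ∀ᶠ k in atTop, (∫ x in B, |∫ t, chi t * b k (x + (t, g t + r k t))|) =
      ∫ x in B, |F k x| := by
    have he1 : ∀ᶠ k in atTop, e k < 1 := he.eventually (gt_mem_nhds one_pos)
    filter_upwards [he1] with k hk
    refine setIntegral_congr_fun measurableSet_closedBall fun x hx => ?_
    have e1 : (∫ t, chi t * b k (x + (t, g t + r k t))) = F k x := by
      refine integral_congr_ae (Eventually.of_forall fun t => ?_)
      show chi t * b k (x + (t, g t + r k t)) = chi t * β k (x + (t, g t + r k t))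
      by_cases ht : |t| < 1 / 2
      · have hmem : x + (t, g t + r k t) ∈ Q := by
          rw [hQdef, mem_closedBall, dist_zero_right]
          have hx' : ‖x‖ ≤ R := by rwa [hB, mem_closedBall, dist_zero_right] at hx
          have h2 : ‖((t, g t + r k t) : ℝ × ℝ)‖ ≤ Cg + 2 := by
            have hg1 := hCg t ht.le
            have hg0 : 0 ≤ Cg := le_trans (abs_nonneg _) hg1
            have hr1 : |r k t| ≤ 1 := le_trans ((hr k).bd t) hk.le
            rw [Prod.norm_def]
            apply max_le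
            · show |t| ≤ _
              linarith
            · show |g t + r k t| ≤ _
              have := abs_add_le (g t) (r k t)
              linarith
          calc ‖x + (t, g t + r k t)‖ ≤ ‖x‖ + ‖((t, g t + r k t) : ℝ × ℝ)‖ := norm_add_le _ _
            _ ≤ R' := by rw [hR']; linarith
        show _ = chi t * Q.indicator (b k) _
        rw [indicator_of_mem hmem]
      · rw [strong_chi_zero ht, zero_mul, zero_mul]
    show |∫ t, chi t * b k (x + (t, g t + r k t))| = |F k x|
    rw [e1]
  refine Tendsto.congr' (f₁ := fun k => ∫ x in B, |F k x|) (heq.mono fun k hk => hk.symm) ?_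
  rw [Metric.tendsto_atTop] at hF2 ⊢
  intro ε hε
  set δ : ℝ := ε / (2 * (W + 1)) with hδ
  have hW1 : 0 < W + 1 := by linarith
  have hδ0 : 0 < δ := by rw [hδ]; positivity
  obtain ⟨n, hn⟩ := hF2 (ε * δ) (by positivity)
  refine ⟨n, fun k hk => ?_⟩
  have h1 := hn k hk
  rw [Real.dist_eq, sub_zero] at h1 ⊢
  have hint : Integrable (fun x => F k x ^ 2) := (hsq k).1
  have hnn : 0 ≤ ∫ x, F k x ^ 2 := integral_nonneg fun x => sq_nonneg _
  rw [abs_of_nonneg hnn] at h1
  have hnn2 : 0 ≤ ∫ x in B, |F k x| := integral_nonneg fun x => abs_nonneg _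
  rw [abs_of_nonneg hnn2]
  have hint2 : Integrable (fun x => (δ + F k x ^ 2 / δ) / 2) (volume.restrict B) := by
    apply Integrable.div_const
    apply Integrable.add
    · exact integrableOn_const hBv.ne
    · exact hint.restrict.div_const _
  have h2 : (∫ x in B, |F k x|) ≤ ∫ x in B, (δ + F k x ^ 2 / δ) / 2 := by
    apply integral_mono_of_nonneg (Eventually.of_forall fun x => abs_nonneg _) hint2
    refine Eventually.of_forall fun x => ?_
    show |F k x| ≤ (δ + F k x ^ 2 / δ) / 2
    rw [← sq_abs (F k x)]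
    have h3 : 0 ≤ (|F k x| - δ) ^ 2 / δ := by positivity
    have h4 : (|F k x| - δ) ^ 2 / δ = |F k x| ^ 2 / δ - 2 * |F k x| + δ := by
      field_simp
      ring
    linarith
  have h3 : (∫ x in B, (δ + F k x ^ 2 / δ) / 2) = (W * δ + (∫ x in B, F k x ^ 2) / δ) / 2 := by
    have hc : Integrable (fun _ : ℝ × ℝ => δ) (volume.restrict B) := integrableOn_const hBv.ne
    have hd : Integrable (fun x => F k x ^ 2 / δ) (volume.restrict B) := hint.restrict.div_const _
    have e1 : (∫ x in B, F k x ^ 2 / δ) = (∫ x in B, F k x ^ 2) / δ := integral_div _ _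
    have e0 : (∫ _ in B, δ) = W * δ := by
      rw [setIntegral_const, smul_eq_mul]
      rfl
    rw [integral_div, integral_add hc hd, e1, e0]
  have h4 : (∫ x in B, F k x ^ 2) ≤ ∫ x, F k x ^ 2 :=
    setIntegral_le_integral hint (Eventually.of_forall fun x => sq_nonneg _)
  have h5 : (∫ x in B, F k x ^ 2) / δ ≤ ε := by
    rw [div_le_iff₀ hδ0]; linarith
  have h6 : W * δ ≤ ε / 2 := by
    rw [hδ, mul_div_assoc', div_le_iff₀ (by positivity)]
    nlinarith
  linarith

end Pool.Agent.H99N
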