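import Pool.Agent.H99N.NearId
import Pool.Agent.H99N.Fibre

/-!
# The law of the difference of two points of an arc depends continuously on the arc (total variation)

Plan. Substitute `t = s + a` in the inner integrals (translation invariance,
`integral_add_left_eq_self` or similar) and swap the integrals (everything is bounded, measurable
and vanishes outside `|s| < 1/2`, `|a| < 1`): both double integrals become
`∫ a, ∫ s, chi s * chi (s + a) * c (a, ...)`. Take `δ = ε / 16` (say), `ε' = min (1/2) (ε / 100)`
and `η` from `fibre` for `δ`, `ε'`. For `|a| < δ` bound both inner integrals by `1`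
(`chi ≤ 1/2`, support in an interval of length `1`). For `δ ≤ |a| < 1` use `near_id` with
`w s = chi s * chi (s + a)` (which is `1`-Lipschitz as `chi` is `1`-Lipschitz with values in
`[0, 1/2]`), `c` replaced by `fun s => c (a, g (s + a) - g s)` and `τ` from `fibre`; the difference
of the inner integrals is at most `10 * ε'`. For `|a| ≥ 1` both are `0`.
-/

open Set MeasureTheory Filter Topology Metric

namespace Pool.Agent.H99N

private lemma tv_chi0 (t : ℝ) : 0 ≤ chi t := le_max_left _ _

private lemma tv_chi1 (t : ℝ) : chi t ≤ 1 / 2 := by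
  unfold chi
  apply max_le (by norm_num)
  have := abs_nonneg t
  linarith

private lemma tv_chiz {t : ℝ} (h : 1 / 2 ≤ |t|) : chi t = 0 := by
  unfold chi
  apply max_eq_left
  linarith

private lemma tv_chil (s t : ℝ) : |chi s - chi t| ≤ |s - t| := by
  unfold chi
  calc |max 0 (1 / 2 - |s|) - max 0 (1 / 2 - |t|)|
      ≤ max |(0 : ℝ) - 0| |(1 / 2 - |s|) - (1 / 2 - |t|)| := abs_max_sub_max_le_max _ _ _ _
    _ = |(|t| - |s|)| := by
        rw [sub_self, abs_zero, max_eq_right (abs_nonneg _)]
        congr 1
        ring
    _ ≤ |t - s| := abs_abs_sub_abs_le_abs_sub t s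
    _ = |s - t| := abs_sub_comm t s

private lemma tv_chic : Continuous chi := by
  unfold chi
  fun_prop

/-- the integrand -/
private noncomputable def tvH (G : ℝ → ℝ) (c : ℝ × ℝ → ℝ) (s a : ℝ) : ℝ :=
  chi s * chi (s + a) * c (a, G (s + a) - G s)

private lemma tv_abs {G : ℝ → ℝ} {c : ℝ × ℝ → ℝ} (hb : ∀ u, |c u| ≤ 1) (s a : ℝ) :
    |tvH G c s a| ≤ chi s * chi (s + a) := by
  unfold tvH
  rw [abs_mul, abs_of_nonneg (mul_nonneg (tv_chi0 s) (tv_chi0 (s + a)))]
  calc chi s * chi (s + a) * |c (a, G (s + a) - G s)| ≤ chi s * chi (s + a) * 1 :=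
        mul_le_mul_of_nonneg_left (hb _) (mul_nonneg (tv_chi0 s) (tv_chi0 (s + a)))
    _ = _ := mul_one _

private lemma tv_le (s a : ℝ) : chi s * chi (s + a) ≤
    (Icc (-1 / 2 : ℝ) (1 / 2)).indicator (fun _ => (1 : ℝ)) s *
      (Icc (-1 : ℝ) 1).indicator (fun _ => (1 : ℝ)) a := by
  by_cases hs : s ∈ Icc (-1 / 2 : ℝ) (1 / 2)
  · by_cases ha : a ∈ Icc (-1 : ℝ) 1
    · rw [indicator_of_mem hs, indicator_of_mem ha]
      have h1 := tv_chi0 s
      have h2 := tv_chi1 s
      have h3 := tv_chi0 (s + a)
      have h4 := tv_chi1 (s + a)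
      nlinarith
    · rw [indicator_of_notMem ha, mul_zero]
      have : 1 / 2 ≤ |s + a| := by
        rw [mem_Icc, not_and_or, not_le, not_le] at ha
        rcases ha with ha | ha
        · rw [le_abs]
          right
          linarith [hs.2]
        · rw [le_abs]
          left
          linarith [hs.1]
      rw [tv_chiz this, mul_zero]
  · rw [indicator_of_notMem hs, zero_mul]
    have : 1 / 2 ≤ |s| := by
      rw [mem_Icc, not_and_or, not_le, not_le] at hs
      rcases hs with hs | hs
      · rw [le_abs]
        right
        linarith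
      · rw [le_abs]
        left
        linarith
    rw [tv_chiz this, zero_mul]

private lemma tv_int {G : ℝ → ℝ} (hG : Measurable G) {c : ℝ × ℝ → ℝ} (hc : Measurable c)
    (hb : ∀ u, |c u| ≤ 1) : Integrable (Function.uncurry (tvH G c)) (volume.prod volume) := by
  have h1 : Integrable (fun s : ℝ => (Icc (-1 / 2 : ℝ) (1 / 2)).indicator (fun _ => (1 : ℝ)) s) :=
    (integrable_indicator_iff measurableSet_Icc).2 continuous_const.integrableOn_Icc
  have h2 : Integrable (fun a : ℝ => (Icc (-1 : ℝ) 1).indicator (fun _ => (1 : ℝ)) a) :=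
    (integrable_indicator_iff measurableSet_Icc).2 continuous_const.integrableOn_Icc
  refine Integrable.mono' (h1.mul_prod h2) ?_ (Eventually.of_forall ?_)
  · apply Measurable.aestronglyMeasurable
    unfold tvH Function.uncurry
    have hchi := tv_chic.measurable
    exact ((hchi.comp measurable_fst).mul (hchi.comp (measurable_fst.add measurable_snd))).mul
      (hc.comp (measurable_snd.prodMk ((hG.comp (measurable_fst.add measurable_snd)).sub
        (hG.comp measurable_fst))))
  · rintro ⟨s, a⟩
    simp only [Function.uncurry, Real.norm_eq_abs]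
    exact (tv_abs hb s a).trans (tv_le s a)

private lemma tv_swap {G : ℝ → ℝ} (hG : Measurable G) {c : ℝ × ℝ → ℝ} (hc : Measurable c)
    (hb : ∀ u, |c u| ≤ 1) :
    (∫ s, ∫ t, chi s * chi t * c (t - s, G t - G s)) = ∫ a, ∫ s, tvH G c s a := by
  rw [← integral_integral_swap (tv_int hG hc hb)]
  congr 1
  ext s
  rw [← integral_add_left_eq_self (fun t => chi s * chi t * c (t - s, G t - G s)) s]
  congr 1
  ext a
  unfold tvH
  rw [add_sub_cancel_left]

theorem tv {g g' : ℝ → ℝ} (h : Prof g g') {ε : ℝ} (hε : 0 < ε) :
    ∃ η : ℝ, 0 < η ∧ ∀ r : ℝ → ℝ, Small η r → ∀ c : ℝ × ℝ → ℝ, Measurable c → (∀ u, |c u| ≤ 1) →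
      |(∫ s, ∫ t, chi s * chi t * c (t - s, (g t + r t) - (g s + r s))) -
        ∫ s, ∫ t, chi s * chi t * c (t - s, g t - g s)| ≤ ε := by
  obtain ⟨η, hη, H⟩ := fibre h (δ := ε / 16) (ε := min (1 / 2) (ε / 100)) (by positivity)
    (lt_min (by norm_num) (by positivity))
  refine ⟨η, hη, fun r hr c hc hb => ?_⟩
  have hgc : Continuous g := continuous_iff_continuousAt.2 fun t => (h.der t).continuousAt
  have hrc : Continuous r := by
    have : LipschitzWith (Real.toNNReal η) r := by
      apply LipschitzWith.of_dist_le_mul
      intro s t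
      rw [Real.dist_eq, Real.dist_eq, Real.coe_toNNReal _ hη.le]
      exact hr.lip s t
    exact this.continuous
  have hm1 : Measurable (fun t => g t + r t) := (hgc.add hrc).measurable
  have hm2 : Measurable g := hgc.measurable
  have e1 := tv_swap hm1 hc hb
  have e2 := tv_swap hm2 hc hb
  rw [e1, e2]
  have i1 := (tv_int hm1 hc hb).integral_prod_right
  have i2 := (tv_int hm2 hc hb).integral_prod_right
  simp only [Function.uncurry] at i1 i2
  rw [← integral_sub i1 i2]
  set ε' : ℝ := min (1 / 2) (ε / 100) with hε'
  have hε'0 : 0 < ε' := lt_min (by norm_num) (by positivity)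
  have hε'1 : ε' ≤ 1 / 2 := min_le_left _ _
  have hε'2 : ε' ≤ ε / 100 := min_le_right _ _
  -- bound for the inner integrals
  have hin : ∀ (G : ℝ → ℝ) (a : ℝ), |∫ s, tvH G c s a| ≤ 1 := by
    intro G a
    have h1 : Integrable (fun s : ℝ => (Icc (-1 / 2 : ℝ) (1 / 2)).indicator
        (fun _ => (1 : ℝ)) s) :=
      (integrable_indicator_iff measurableSet_Icc).2 continuous_const.integrableOn_Icc
    have h2 : ‖∫ s, tvH G c s a‖ ≤ ∫ s : ℝ, (Icc (-1 / 2 : ℝ) (1 / 2)).indicator
        (fun _ => (1 : ℝ)) s := by
      refine norm_integral_le_of_norm_le h1 (Eventually.of_forall fun s => ?_)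
      rw [Real.norm_eq_abs]
      refine ((tv_abs hb s a).trans (tv_le s a)).trans ?_
      have h3 : (Icc (-1 : ℝ) 1).indicator (fun _ => (1 : ℝ)) a ≤ 1 :=
        indicator_le_self' (fun _ _ => zero_le_one) a
      have h4 : 0 ≤ (Icc (-1 / 2 : ℝ) (1 / 2)).indicator (fun _ => (1 : ℝ)) s :=
        indicator_nonneg (fun _ _ => zero_le_one) s
      calc _ ≤ (Icc (-1 / 2 : ℝ) (1 / 2)).indicator (fun _ => (1 : ℝ)) s * 1 :=
            mul_le_mul_of_nonneg_left h3 h4
        _ = _ := mul_one _
    rw [integral_indicator measurableSet_Icc] at h2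
    simp only [integral_const, MeasurableSet.univ, measureReal_restrict_apply, univ_inter,
      smul_eq_mul, mul_one] at h2
    rw [Real.norm_eq_abs] at h2
    refine h2.trans ?_
    rw [Measure.real, Real.volume_Icc, ENNReal.toReal_ofReal (by norm_num)]
    norm_num
  -- bound for the difference
  have hdiff : ∀ a : ℝ, ‖(∫ s, tvH (fun t => g t + r t) c s a) - ∫ s, tvH g c s a‖ ≤
      (Icc (-(ε / 16)) (ε / 16)).indicator (fun _ => (2 : ℝ)) a +
        (Icc (-1 : ℝ) 1).indicator (fun _ => 10 * ε') a := by
    intro a
    rw [Real.norm_eq_abs]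
    by_cases ha : |a| < ε / 16
    · have hm : a ∈ Icc (-(ε / 16)) (ε / 16) := abs_le.1 ha.le
      rw [indicator_of_mem hm]
      have h5 : 0 ≤ (Icc (-1 : ℝ) 1).indicator (fun _ => 10 * ε') a :=
        indicator_nonneg (fun _ _ => by positivity) a
      have h6 := hin (fun t => g t + r t) a
      have h7 := hin g a
      have h8 := abs_sub (∫ s, tvH (fun t => g t + r t) c s a) (∫ s, tvH g c s a)
      linarith
    · rw [not_lt] at ha
      have h9 : 0 ≤ (Icc (-(ε / 16)) (ε / 16)).indicator (fun _ => (2 : ℝ)) a :=
        indicator_nonneg (fun _ _ => by norm_num) a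
      by_cases ha1 : a ∈ Icc (-1 : ℝ) 1
      · rw [indicator_of_mem ha1]
        obtain ⟨τ, hτ, hτe⟩ := H r hr a ha
        have key := near_id (τ := τ) hε'1 hτ (w := fun s => chi s * chi (s + a))
          (fun s => mul_nonneg (tv_chi0 _) (tv_chi0 _))
          (fun s => by
            have h1 := tv_chi0 s
            have h2 := tv_chi1 s
            have h3 := tv_chi0 (s + a)
            have h4 := tv_chi1 (s + a)
            nlinarith)
          (fun s t => by
            have e : chi s * chi (s + a) - chi t * chi (t + a) =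
                chi s * (chi (s + a) - chi (t + a)) + chi (t + a) * (chi s - chi t) := by ring
            rw [e]
            refine (abs_add_le _ _).trans ?_
            rw [abs_mul, abs_mul, abs_of_nonneg (tv_chi0 s), abs_of_nonneg (tv_chi0 (t + a))]
            have h1 := tv_chil (s + a) (t + a)
            have h2 := tv_chil s t
            have h3 := tv_chi1 s
            have h4 := tv_chi1 (t + a)
            rw [add_sub_add_right_eq_sub] at h1
            have h5 : chi s * |chi (s + a) - chi (t + a)| ≤ 1 / 2 * |s - t| :=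
              mul_le_mul h3 h1 (abs_nonneg _) (by norm_num)
            have h6 : chi (t + a) * |chi s - chi t| ≤ 1 / 2 * |s - t| :=
              mul_le_mul h4 h2 (abs_nonneg _) (by norm_num)
            linarith)
          (fun s hs => by
            show chi s * chi (s + a) = 0
            rw [tv_chiz hs, zero_mul])
          (c := fun s => c (a, g (s + a) - g s))
          (hc.comp (measurable_const.prodMk
            ((hm2.comp (measurable_id.add_const a)).sub hm2)))
          (fun s => hb _)
        simp only [hτe] at key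
        unfold tvH
        linarith
      · have hz : ∀ G : ℝ → ℝ, (∫ s, tvH G c s a) = 0 := by
          intro G
          have : (fun s => tvH G c s a) = fun _ => 0 := by
            ext s
            have := (tv_abs (G := G) hb s a).trans (tv_le s a)
            rw [indicator_of_notMem ha1, mul_zero] at this
            exact abs_nonpos_iff.1 this
          rw [this, integral_zero]
        rw [hz, hz, indicator_of_notMem ha1, sub_zero, abs_zero, add_zero]
        exact h9
  have j1 : Integrable (fun a : ℝ => (Icc (-(ε / 16)) (ε / 16)).indicator (fun _ => (2 : ℝ)) a) :=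
    (integrable_indicator_iff measurableSet_Icc).2 continuous_const.integrableOn_Icc
  have j2 : Integrable (fun a : ℝ => (Icc (-1 : ℝ) 1).indicator (fun _ => 10 * ε') a) :=
    (integrable_indicator_iff measurableSet_Icc).2 continuous_const.integrableOn_Icc
  have fin := norm_integral_le_of_norm_le (j1.add j2) (Eventually.of_forall hdiff)
  rw [Real.norm_eq_abs] at fin
  refine fin.trans ?_
  simp only [Pi.add_apply]
  rw [integral_add j1 j2, integral_indicator measurableSet_Icc,
    integral_indicator measurableSet_Icc]
  simp only [integral_const, MeasurableSet.univ, measureReal_restrict_apply, univ_inter,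
    smul_eq_mul]
  rw [Measure.real, Measure.real, Real.volume_Icc, Real.volume_Icc,
    ENNReal.toReal_ofReal (by linarith), ENNReal.toReal_ofReal (by norm_num)]
  nlinarith

end Pool.Agent.H99N
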